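import Pool.Agent.Lib.PolyTime.Derived

/-!
# Further closure properties: equality tests, options, sums, comparison, filter, lookup
-/

namespace Pool.Agent.Lib.PolyTime

open Function

variable {α β γ δ σ : Type} [Enc α] [Enc β] [Enc γ] [Enc δ] [Enc σ]

/-! ### Equality test -/

/-- Subtree test along the preorder traversal: one step of the comparison of two serialisations. -/
def cmpLoop {K : Type} (a b : K) : Prog K :=
  .loop a ne (.ite a isT
    (.ite b isT (.seq (.pop a) (.pop b)) (.seq (clear a) (.seq (clear b) (.push b true))))
    (.ite b isT (.seq (clear a) (.seq (clear b) (.push b true)))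
      (.ite b ne (.seq (.pop a) (.pop b)) (.seq (clear a) (.seq (clear b) (.push b true))))))

theorem run_cmpLoop {K : Type} [DecidableEq K] {a b : K} (hab : a ≠ b) :
    ∀ (u v : List Bool) (s : St K), s a = u → s b = v → ∃ t w,
      t ≤ 6 * (u.length + v.length) + 12 ∧ (w = [] ↔ u = v) ∧
      w.length ≤ v.length + 1 ∧
      Run (cmpLoop a b) s (update (update s a []) b w) t := by
  intro u
  induction u with
  | nil =>
    intro v s ha hb
    refine ⟨1, v, by omega, eq_comm, by omega, ?_⟩
    have : update (update s a []) b v = s := by
      rw [← ha, update_eq_self, ← hb, update_eq_self]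
    rw [this]
    exact .loopF (by rw [ha]; rfl)
  | cons x u ih =>
    intro v s ha hb
    -- the failing branch
    have fail : ∀ (w : List Bool), s b = w → ∃ t', t' ≤ 2 * (u.length + 1) + 2 * w.length + 3 ∧
        Run (.seq (clear a) (.seq (clear b) (.push b true))) s
          (update (update s a []) b [true]) t' := by
      intro w hw
      have h1 := run_clear a (x :: u) s ha
      have h2 := run_clear b w (update s a []) (by rw [update_of_ne (Ne.symm hab)]; exact hw)
      have h3 := Run.push b true (update (update s a []) b [])
      rw [update_self, update_idem] at h3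
      refine ⟨_, ?_, .seq h1 (.seq h2 h3)⟩
      simp only [List.length_cons]; omega
    have done : ∀ (t' : ℕ) (B : Prog K), t' ≤ 2 * (u.length + 1) + 2 * v.length + 6 →
        Run B s (update (update s a []) b [true]) t' → cmpLoop a b = .loop a ne B →
        (x :: u ≠ v) → ∃ t w, t ≤ 6 * ((x :: u).length + v.length) + 12 ∧
          (w = [] ↔ x :: u = v) ∧ w.length ≤ v.length + 1 ∧
          Run (cmpLoop a b) s (update (update s a []) b w) t := by
      intro t' B ht' hB hc hne
      refine ⟨t' + 1 + 1, [true], by simp only [List.length_cons]; omega, by simp [hne],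
        by simp, ?_⟩
      rw [hc]
      refine .loopT (by rw [ha]; rfl) hB (.loopF ?_)
      rw [update_of_ne hab, update_self]; rfl
    have good : ∀ (v' : List Bool), v = x :: v' → ∃ t w,
          t ≤ 6 * (u.length + v'.length) + 12 ∧
          (w = [] ↔ u = v') ∧ w.length ≤ v'.length + 1 ∧
          Run (cmpLoop a b) (update (update s a u) b v') (update (update s a []) b w) t := by
      intro v' hv'
      obtain ⟨t, w, h1, h2, h3, h4⟩ := ih v' (update (update s a u) b v')
        (by rw [update_of_ne hab, update_self]) (by rw [update_self])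
      refine ⟨t, w, h1, h2, h3, ?_⟩
      have : update (update (update (update s a u) b v') a []) b w =
          update (update s a []) b w := by
        funext k
        by_cases hk : k = b
        · subst hk; simp
        · by_cases hk' : k = a
          · subst hk'; simp [hk]
          · simp [hk, hk']
      rwa [this] at h4
    have pops : ∀ (v' : List Bool), v = x :: v' →
        Run (.seq (.pop a) (.pop b)) s (update (update s a u) b v') 2 := by
      intro v' hv'
      have h1 := Run.pop a s
      rw [ha, List.tail_cons] at h1
      have h2 := Run.pop b (update s a u)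
      rw [update_of_ne (Ne.symm hab), hb, hv', List.tail_cons] at h2
      exact .seq h1 h2
    cases x with
    | true =>
      cases v with
      | nil =>
        obtain ⟨t', h1, h2⟩ := fail [] hb
        refine done (t' + 1 + 1) _ ?_ (.iteT (by rw [ha]; rfl) (.iteF (by rw [hb]; rfl) h2)) rfl
          (by simp)
        simp only [List.length_nil] at h1 ⊢; omega
      | cons y v' =>
        cases y with
        | true =>
          obtain ⟨t, w, h1, h2, h3, h4⟩ := good v' rfl
          refine ⟨2 + 1 + 1 + t + 1, w, ?_, ?_, ?_, ?_⟩
          · simp only [List.length_cons]; omega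
          · rw [h2]; simp
          · simp only [List.length_cons]; omega
          · exact .loopT (by rw [ha]; rfl) (.iteT (by rw [ha]; rfl) (.iteT (by rw [hb]; rfl)
              (pops v' rfl))) h4
        | false =>
          obtain ⟨t', h1, h2⟩ := fail _ hb
          refine done (t' + 1 + 1) _ ?_ (.iteT (by rw [ha]; rfl) (.iteF (by rw [hb]; rfl) h2)) rfl
            (by simp)
          omega
    | false =>
      cases v with
      | nil =>
        obtain ⟨t', h1, h2⟩ := fail [] hb
        refine done (t' + 1 + 1 + 1) _ ?_ (.iteF (by rw [ha]; rfl) (.iteF (by rw [hb]; rfl)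
          (.iteF (by rw [hb]; rfl) h2))) rfl (by simp)
        simp only [List.length_nil] at h1 ⊢; omega
      | cons y v' =>
        cases y with
        | true =>
          obtain ⟨t', h1, h2⟩ := fail _ hb
          refine done (t' + 1 + 1) _ ?_ (.iteF (by rw [ha]; rfl) (.iteT (by rw [hb]; rfl) h2)) rfl
            (by simp)
          omega
        | false =>
          obtain ⟨t, w, h1, h2, h3, h4⟩ := good v' rfl
          refine ⟨2 + 1 + 1 + 1 + t + 1, w, ?_, ?_, ?_, ?_⟩
          · simp only [List.length_cons]; omega
          · rw [h2]; simp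
          · simp only [List.length_cons]; omega
          · exact .loopT (by rw [ha]; rfl) (.iteF (by rw [ha]; rfl) (.iteF (by rw [hb]; rfl)
              (.iteT (by rw [hb]; rfl) (pops v' rfl)))) h4

theorem PT.eqBT : PT (fun x : BT × BT => decide (x.1 = x.2)) := by
  -- stacks: 0 = input, 1 = first component, 2 = counter
  refine PT.of (K := Fin 3) (.seq (.pop 0) (.seq (takeTree 0 1 2) (.seq (mv 1 2)
    (.seq (cmpLoop 2 0) (.ite 0 ne (.seq (clear 0) (.push 0 false))
      (.seq (.push 0 false) (.seq (.push 0 false) (.push 0 true)))))))) 0
    (fun n => 100 * n + 100) (((PB.const 100).mul PB.id).add (PB.const 100)) ?_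
  rintro ⟨x, y⟩
  have exy : code (x, y) = true :: (x.ser ++ y.ser) := rfl
  have h1 := Run.pop (0 : Fin 3) (single 0 (code (x, y)))
  rw [single_self, update_single, exy, List.tail_cons] at h1
  have h2 := run_takeTree (a := (0 : Fin 3)) (b := 1) (c := 2) (by decide) (by decide)
    (by decide) x (single 0 (x.ser ++ y.ser)) y.ser (single_self _ _) rfl
  have e2 : update (update (single (0 : Fin 3) (x.ser ++ y.ser)) 0 y.ser) 1
      (x.ser.reverse ++ single (0 : Fin 3) (x.ser ++ y.ser) 1) =
      update (single 0 y.ser) 1 x.ser.reverse := by
    rw [update_single]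
    simp [single]
  rw [e2] at h2
  have h3 := run_mv (a := (1 : Fin 3)) (b := 2) (by decide) x.ser.reverse
    (update (single 0 y.ser) 1 x.ser.reverse) rfl
  have e3 : update (update (update (single (0 : Fin 3) y.ser) 1 x.ser.reverse) 1 []) 2
      (x.ser.reverse.reverse ++ update (single (0 : Fin 3) y.ser) 1 x.ser.reverse 2) =
      update (single 0 y.ser) 2 x.ser := by
    funext k
    fin_cases k <;> simp [single, update]
  rw [e3, List.length_reverse] at h3
  obtain ⟨t, w, ht, hw, hwl, h4⟩ := run_cmpLoop (a := (2 : Fin 3)) (b := 0) (by decide) x.ser y.ser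
    (update (single 0 y.ser) 2 x.ser) (update_self _ _ _) rfl
  have e4 : update (update (update (single (0 : Fin 3) y.ser) 2 x.ser) 2 []) 0 w =
      single 0 w := by
    funext k
    fin_cases k <;> simp [single, update]
  rw [e4] at h4
  have hsx : x.ser.length = x.size := rfl
  have hsy : y.ser.length = y.size := rfl
  have hxy : size (x, y) = x.size + y.size + 1 := by simp [size]; rfl
  have hpos := x.size_pos
  by_cases hxe : x = y
  · have hw' : w = [] := hw.mpr (by rw [hxe])
    subst hw'
    have ec : code (decide ((x, y).1 = (x, y).2)) = [true, false, false] := by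
      simp [hxe, code, BT.ser]
    rw [ec]
    have hpush : ∀ (b : Bool) (w : List Bool), Run (.push (0 : Fin 3) b) (single 0 w)
        (single 0 (b :: w)) 1 := by
      intro b w
      have := Run.push (0 : Fin 3) b (single 0 w)
      rwa [update_single, single_self] at this
    have h5 := Run.iteF (k := (0 : Fin 3)) (p := ne) (P := .seq (clear 0) (.push 0 false))
      (s := single 0 []) (by rfl) (.seq (hpush false []) (.seq (hpush false _) (hpush true _)))
    refine ⟨_, ?_, .seq h1 (.seq h2 (.seq h3 (.seq h4 h5)))⟩
    rw [hxy]
    omega
  · have hw' : w ≠ [] := fun h => hxe (BT.ser_injective (hw.mp h))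
    have ec : code (decide ((x, y).1 = (x, y).2)) = [false] := by
      simp [hxe, code, BT.ser]
    rw [ec]
    have h5 := run_clear (0 : Fin 3) w (single 0 w) (single_self _ _)
    rw [update_single] at h5
    have h6 := Run.push (0 : Fin 3) false (single 0 [])
    rw [update_single, single_self] at h6
    have h7 := Run.iteT (k := (0 : Fin 3)) (p := ne)
      (Q := .seq (.push 0 false) (.seq (.push 0 false) (.push 0 true)))
      (s := single 0 w) (by
        rw [single_self]
        cases w with
        | nil => exact (hw' rfl).elim
        | cons b w => rfl) (.seq h5 h6)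
    refine ⟨_, ?_, .seq h1 (.seq h2 (.seq h3 (.seq h4 h7)))⟩
    rw [hxy]
    omega

/-- Equality of encoded data is decidable in polynomial time. -/
theorem PT.eq [DecidableEq β] {f g : α → β} (hf : PT f) (hg : PT g) :
    PT (fun a => decide (f a = g a)) := by
  have h1 : PT (fun x : β × β => (enc x.1, enc x.2)) := PT.of_enc_eq (fun _ => rfl)
  refine ((PT.eqBT.comp h1).comp (hf.pair hg)).congr (fun a => ?_)
  by_cases h : f a = g a
  · simp [h]
  · have : enc (f a) ≠ enc (g a) := fun h' => h (Enc.inj h')
    simp [h, this]

/-! ### Options -/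

instance encOption : Enc (Option α) where
  enc o := match o with
    | none => .leaf
    | some a => .node (enc a) .leaf
  inj := by
    intro o o' h
    cases o <;> cases o' <;> simp_all
    exact Enc.inj h

@[simp] theorem enc_none : enc (none : Option α) = BT.leaf := rfl
@[simp] theorem enc_some (a : α) : enc (some a) = BT.node (enc a) BT.leaf := rfl

theorem PT.some {f : α → β} (hf : PT f) : PT (fun a => Option.some (f a)) := by
  have h : PT (fun x : β × Unit => Option.some x.1) := PT.of_enc_eq (fun _ => rfl)
  exact h.comp (hf.pair (PT.const ()))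

theorem PT.toList {f : α → Option β} (hf : PT f) : PT (fun a => (f a).toList) := by
  have h : PT (fun o : Option β => o.toList) := PT.of_enc_eq (fun o => by cases o <;> rfl)
  exact h.comp hf

theorem PT.head? {f : α → List β} (hf : PT f) : PT (fun a => (f a).head?) :=
  (PT.listCases (g := fun _ => (none : Option β)) (h := fun _ b _ => Option.some b) hf
    (PT.const _) PT.snd.fst'.some).congr (fun a => by cases f a <;> rfl)

/-- Case distinction on an option. -/
theorem PT.optCases {f : α → Option β} {g : α → γ} {h : α → β → γ} (hf : PT f)
    (hg : PT g) (hh : PT (fun x : α × β => h x.1 x.2)) :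
    PT (fun a => match f a with
      | none => g a
      | Option.some b => h a b) :=
  (PT.listCases (f := fun a => (f a).toList) (g := g) (h := fun a b _ => h a b) hf.toList hg
    (hh.comp (PT.fst.pair PT.snd.fst'))).congr (fun a => by cases f a <;> rfl)

/-! ### Sums -/

instance encSum : Enc (α ⊕ β) where
  enc x := match x with
    | Sum.inl a => .node .leaf (enc a)
    | Sum.inr b => .node (.node .leaf .leaf) (enc b)
  inj := by
    intro x y h
    cases x <;> cases y <;> simp_all
    · exact Enc.inj h
    · exact Enc.inj h

theorem PT.inl {f : α → β} (hf : PT f) : PT (fun a => (Sum.inl (f a) : β ⊕ γ)) := by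
  have h : PT (fun x : Bool × β => if x.1 then (Sum.inl x.2 : β ⊕ γ) else Sum.inl x.2) := by
    refine PT.cond PT.fst ?_ ?_ <;>
    · have : PT (fun x : Unit × β => (Sum.inl x.2 : β ⊕ γ)) := PT.of_enc_eq (fun _ => rfl)
      exact this.comp ((PT.const ()).pair PT.snd)
  exact (h.comp ((PT.const true).pair hf)).congr (fun a => by simp)

theorem PT.inr {f : α → γ} (hf : PT f) : PT (fun a => (Sum.inr (f a) : β ⊕ γ)) := by
  have h : PT (fun x : Bool × γ => if x.1 then (Sum.inr x.2 : β ⊕ γ) else Sum.inr x.2) := by
    refine PT.cond PT.fst ?_ ?_ <;>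
    · have : PT (fun x : (Unit × Unit) × γ => (Sum.inr x.2 : β ⊕ γ)) :=
        PT.of_enc_eq (fun _ => rfl)
      exact this.comp ((PT.const ((), ())).pair PT.snd)
  exact (h.comp ((PT.const true).pair hf)).congr (fun a => by simp)

/-- Case distinction on a sum. -/
theorem PT.sumCases {f : α → β ⊕ γ} {g : α → β → δ} {h : α → γ → δ} (hf : PT f)
    (hg : PT (fun x : α × β => g x.1 x.2)) (hh : PT (fun x : α × γ => h x.1 x.2)) :
    PT (fun a => match f a with
      | Sum.inl b => g a b
      | Sum.inr c => h a c) := by
  have hc : PT (fun x : β ⊕ γ => x.isLeft) := by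
    have h1 : PT (fun x : β ⊕ γ => enc x) := PT.of_enc_eq (β := BT) (fun _ => rfl)
    have h2 : PT (fun x : {x : BT // x ≠ BT.leaf} => (match x.1 with
        | .leaf => (BT.leaf, BT.leaf)
        | .node l r => (l, r) : BT × BT)) := by
      refine PT.of_enc_eq ?_
      rintro ⟨x, hx⟩
      cases x with
      | leaf => exact (hx rfl).elim
      | node l r => rfl
    let cast : β ⊕ γ → {x : BT // x ≠ BT.leaf} := fun x => ⟨enc x, by cases x <;> simp [enc]⟩
    have h3 : PT cast := PT.of_enc_eq (fun _ => rfl)
    refine ((PT.eqConstBT BT.leaf).comp ((h2.comp h3).fst')).congr ?_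
    rintro (x | x) <;> simp [cast, enc]
  have key : PT (fun x : α × (β ⊕ γ) => match x.2 with
      | Sum.inl b => g x.1 b
      | Sum.inr c => h x.1 c) := by
    refine PT.cond' (c := fun x : α × (β ⊕ γ) => x.2.isLeft) (hc.comp PT.snd) ?_ ?_
    · let cast : {x : α × (β ⊕ γ) // x.2.isLeft = true} → α × (Unit × β) := fun x =>
        match x with
        | ⟨(a, Sum.inl b), _⟩ => (a, ((), b))
      have h1 : PT cast := by
        refine PT.of_enc_eq ?_
        rintro ⟨⟨a, x⟩, hx⟩
        cases x with
        | inl b => rfl
        | inr c => simp at hx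
      refine ((hg.comp (PT.fst.pair PT.snd.snd')).comp h1).congr ?_
      rintro ⟨⟨a, x⟩, hx⟩
      cases x with
      | inl b => rfl
      | inr c => simp at hx
    · let cast : {x : α × (β ⊕ γ) // x.2.isLeft = false} → α × ((Unit × Unit) × γ) := fun x =>
        match x with
        | ⟨(a, Sum.inr b), _⟩ => (a, (((), ()), b))
      have h1 : PT cast := by
        refine PT.of_enc_eq ?_
        rintro ⟨⟨a, x⟩, hx⟩
        cases x with
        | inl b => simp at hx
        | inr c => rfl
      refine ((hh.comp (PT.fst.pair PT.snd.snd')).comp h1).congr ?_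
      rintro ⟨⟨a, x⟩, hx⟩
      cases x with
      | inl b => simp at hx
      | inr c => rfl
  exact key.comp (PT.id.pair hf)

/-! ### Natural numbers: case distinction, subtraction, comparison -/

/-- Case distinction on a (unary) natural number. -/
theorem PT.natCases {f : α → ℕ} {g : α → γ} {h : α → ℕ → γ} (hf : PT f)
    (hg : PT g) (hh : PT (fun x : α × ℕ => h x.1 x.2)) :
    PT (fun a => match f a with
      | 0 => g a
      | n + 1 => h a n) := by
  have h1 : PT (fun n : ℕ => List.replicate n ()) := PT.of_enc_eq enc_replicate_unit
  refine (PT.listCases (f := fun a => List.replicate (f a) ()) (g := g)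
    (h := fun a _ l => h a l.length) (h1.comp hf) hg
    (hh.comp (PT.fst.pair (PT.length PT.snd.snd')))).congr (fun a => ?_)
  cases hfa : f a with
  | zero => simp
  | succ n => simp [List.replicate_succ]

theorem PT.sub {f g : α → ℕ} (hf : PT f) (hg : PT g) : PT (fun a => f a - g a) := by
  obtain ⟨p, hp⟩ := hf.size_le
  have h := PT.iterate (f := g) (init := f) (step := fun _ s => s - 1) hg hf
    (PT.snd.pred) (B := fun n => p.eval n) (PB.poly p) (by
      intro a i _
      have h1 : ∀ i m : ℕ, (fun s => s - 1)^[i] m ≤ m := by
        intro i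
        induction i with
        | zero => intro m; exact le_refl _
        | succ i ih => intro m; rw [iterate_succ_apply]; exact (ih _).trans (by omega)
      have h2 := h1 i (f a)
      have h3 := hp a
      rw [size_nat] at h3 ⊢
      omega)
  refine h.congr (fun a => ?_)
  have h1 : ∀ i m : ℕ, (fun s => s - 1)^[i] m = m - i := by
    intro i
    induction i with
    | zero => intro m; rfl
    | succ i ih => intro m; rw [iterate_succ_apply, ih]; omega
  exact h1 _ _

theorem PT.le {f g : α → ℕ} (hf : PT f) (hg : PT g) : PT (fun a => decide (f a ≤ g a)) := by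
  refine ((PT.eqConst 0).comp (hf.sub hg)).congr (fun a => ?_)
  simp [Nat.sub_eq_zero_iff_le]

theorem PT.lt {f g : α → ℕ} (hf : PT f) (hg : PT g) : PT (fun a => decide (f a < g a)) :=
  (PT.le hf.succ hg).congr (fun a => by simp [Nat.succ_le_iff])

/-! ### More list functions -/

theorem PT.filter {f : α → List β} {p : α → β → Bool} (hf : PT f)
    (hp : PT (fun x : α × β => p x.1 x.2)) : PT (fun a => (f a).filter (p a)) := by
  have h := PT.flatMap (f := f) (g := fun a b => if p a b then [b] else []) hf
    (PT.cond hp (PT.cons PT.snd (PT.const [])) (PT.const []))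
  refine h.congr (fun a => ?_)
  induction f a with
  | nil => rfl
  | cons b l ih =>
    rw [List.flatMap_cons, ih, List.filter_cons]
    cases p a b <;> rfl

theorem PT.any {f : α → List β} {p : α → β → Bool} (hf : PT f)
    (hp : PT (fun x : α × β => p x.1 x.2)) : PT (fun a => (f a).any (p a)) := by
  refine (PT.not (PT.isNil (PT.filter hf hp))).congr (fun a => ?_)
  induction f a with
  | nil => rfl
  | cons b l ih =>
    rw [List.filter_cons, List.any_cons, ← ih]
    cases p a b <;> simp

theorem PT.all {f : α → List β} {p : α → β → Bool} (hf : PT f)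
    (hp : PT (fun x : α × β => p x.1 x.2)) : PT (fun a => (f a).all (p a)) := by
  refine (PT.not (PT.any (p := fun a b => !(p a b)) hf hp.not)).congr (fun a => ?_)
  induction f a with
  | nil => rfl
  | cons b l ih =>
    rw [List.any_cons, List.all_cons, ← ih]
    cases p a b <;> simp

theorem PT.drop {f : α → ℕ} {g : α → List β} (hf : PT f) (hg : PT g) :
    PT (fun a => (g a).drop (f a)) := by
  obtain ⟨p, hp⟩ := hg.size_le
  have hsz : ∀ (l : List β), size l.tail ≤ size l := by
    intro l
    cases l with
    | nil => exact le_refl _
    | cons b l => rw [size_cons, List.tail_cons]; omega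
  have h1 : ∀ (i : ℕ) (l : List β), List.tail^[i] l = l.drop i := by
    intro i
    induction i with
    | zero => intro l; rfl
    | succ i ih => intro l; rw [iterate_succ_apply, ih]; cases l <;> simp
  have h := PT.iterate (f := f) (init := g) (step := fun _ s => s.tail) hf hg
    (PT.snd.tail) (B := fun n => p.eval n) (PB.poly p) (by
      intro a i _
      have h2 : ∀ (i : ℕ) (l : List β), size (List.tail^[i] l) ≤ size l := by
        intro i
        induction i with
        | zero => intro l; exact le_refl _
        | succ i ih => intro l; rw [iterate_succ_apply]; exact (ih _).trans (hsz l)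
      exact (h2 i (g a)).trans (hp a))
  exact h.congr (fun a => h1 _ _)

/-- Lookup in a list. -/
theorem PT.getElem? {f : α → ℕ} {g : α → List β} (hf : PT f) (hg : PT g) :
    PT (fun a => (g a)[f a]?) :=
  (PT.head? (hf.drop hg)).congr (fun a => by simp)

end Pool.Agent.Lib.PolyTime
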