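import Pool.Agent.Lib.PolyTime.More

/-!
# More closure properties: constant lists, `zipIdx`, `idxOf`, `getD`
-/

namespace Pool.Agent.Lib.PolyTime

variable {α β γ δ σ : Type} [Enc α] [Enc β] [Enc γ] [Enc δ] [Enc σ]

/-- Two functions with the same encoded values. -/
theorem PT.congr_enc {f : α → β} {g : α → γ} (hg : PT g) (h : ∀ a, enc (f a) = enc (g a)) :
    PT f := by
  obtain ⟨K, i1, i2, P, k₀, T, hP⟩ := hg
  refine ⟨K, i1, i2, P, k₀, T, fun a => ?_⟩
  obtain ⟨t, ht, hr⟩ := hP a
  refine ⟨t, ht, ?_⟩
  have : code (f a) = code (g a) := by simp only [code, h]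
  rw [this]
  exact hr

/-- Mapping over a constant list. -/
theorem PT.mapConst {ι : Type} (L : List ι) {f : ι → α → β} (hf : ∀ i ∈ L, PT (f i)) :
    PT (fun a => L.map (fun i => f i a)) := by
  induction L with
  | nil => exact PT.const []
  | cons i L ih =>
    exact PT.cons (hf i (List.mem_cons_self ..)) (ih (fun j hj => hf j (List.mem_cons_of_mem _ hj)))

theorem PT.flatMapConst {ι : Type} (L : List ι) {f : ι → α → List β} (hf : ∀ i ∈ L, PT (f i)) :
    PT (fun a => L.flatMap (fun i => f i a)) := by
  induction L with
  | nil => exact PT.const []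
  | cons i L ih =>
    exact (PT.append (hf i (List.mem_cons_self ..))
      (ih (fun j hj => hf j (List.mem_cons_of_mem _ hj)))).congr (fun a => by
        rw [List.flatMap_cons])

/-- A list of functions. -/
theorem PT.list1 {f : α → β} (hf : PT f) : PT (fun a => [f a]) := PT.cons hf (PT.const [])

theorem zipIdx_eq_flatMap (l : List β) : l.zipIdx = (List.range l.length).flatMap (fun i =>
    match l[i]? with
    | none => []
    | Option.some b => [(b, i)]) := by
  induction l using List.reverseRecOn with
  | nil => rfl
  | append_singleton l b ih =>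
    rw [List.zipIdx_append, ih, List.length_append, List.length_singleton, List.range_succ,
      List.flatMap_append]
    congr 1
    · refine List.flatMap_congr (fun i hi => ?_)
      rw [List.getElem?_append_left (List.mem_range.mp hi)]
    · simp

theorem PT.zipIdx {f : α → List β} (hf : PT f) : PT (fun a => (f a).zipIdx) := by
  have h1 : PT (fun x : α × ℕ => (match (f x.1)[x.2]? with
      | none => ([] : List (β × ℕ))
      | Option.some b => [(b, x.2)])) := by
    refine PT.optCases (f := fun x : α × ℕ => (f x.1)[x.2]?) (g := fun _ => ([] : List (β × ℕ)))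
      (h := fun x b => [(b, x.2)]) (PT.getElem? PT.snd (hf.comp PT.fst)) (PT.const _) ?_
    exact PT.list1 (PT.pair PT.snd PT.fst.snd')
  refine (PT.flatMap (f := fun a => List.range (f a).length) (g := fun a i =>
    match (f a)[i]? with
      | none => ([] : List (β × ℕ))
      | Option.some b => [(b, i)]) (PT.range (PT.length hf)) h1).congr (fun a => ?_)
  rw [zipIdx_eq_flatMap]

theorem PT.getD {f : α → List β} (hf : PT f) (i : ℕ) (b : β) : PT (fun a => (f a).getD i b) := by
  refine (PT.optCases (f := fun a => (f a)[i]?) (g := fun _ => b) (h := fun _ c => c)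
    (PT.getElem? (PT.const i) hf) (PT.const b) PT.snd).congr (fun a => ?_)
  rw [List.getD_eq_getElem?_getD]
  cases (f a)[i]? <;> rfl

theorem foldl_idxOf [DecidableEq β] (l : List β) (b : β) (n : ℕ) :
    l.foldl (fun (s : Bool × ℕ) c => if s.1 then s else if c = b then (true, s.2)
      else (false, s.2 + 1)) (false, n) =
      (decide (b ∈ l), n + l.idxOf b) := by
  have h1 : ∀ (l : List β) (n : ℕ), l.foldl (fun (s : Bool × ℕ) c => if s.1 then s else
      if c = b then (true, s.2) else (false, s.2 + 1)) (true, n) = (true, n) := by
    intro l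
    induction l with
    | nil => intro n; rfl
    | cons c l ih => intro n; rw [List.foldl_cons, if_pos rfl, ih]
  induction l generalizing n with
  | nil => simp
  | cons c l ih =>
    rw [List.foldl_cons]
    by_cases h : c = b
    · subst h
      simp only [Bool.false_eq_true, if_false, if_true, h1]
      simp
    · have h' : ¬ b = c := fun h' => h h'.symm
      simp only [Bool.false_eq_true, if_false, h, ih, List.mem_cons, h', false_or]
      rw [List.idxOf_cons_ne _ h]
      congr 1
      omega

theorem PT.idxOf [DecidableEq β] {f : α → List β} {g : α → β} (hf : PT f) (hg : PT g) :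
    PT (fun a => (f a).idxOf (g a)) := by
  have h := PT.foldl_add (f := f) (init := fun _ => ((false, 0) : Bool × ℕ))
    (step := fun a s c => if s.1 = true then s else if c = g a then (true, s.2)
      else (false, s.2 + 1)) hf (PT.const _) (by
      refine PT.cond (c := fun x : α × ((Bool × ℕ) × β) => x.2.1.1) PT.snd.fst'.fst' PT.snd.fst' ?_
      refine PT.ite (c := fun x : α × ((Bool × ℕ) × β) => x.2.2 = g x.1)
        (PT.eq PT.snd.snd' (hg.comp PT.fst)) (PT.pair (PT.const true) PT.snd.fst'.snd')
        (PT.pair (PT.const false) PT.snd.fst'.snd'.succ))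
    (C := fun _ => 4) (PB.const 4) (by
      intro a s c _
      obtain ⟨b, n⟩ := s
      have hb : ∀ b : Bool, 1 ≤ size b ∧ size b ≤ 3 := by
        intro b
        cases b <;> exact ⟨by decide, by decide⟩
      have h1 := hb b
      have h2 := hb true
      have h3 := hb false
      simp only
      split_ifs <;> simp only [size_prod, size_nat] <;> omega)
  refine (h.snd').congr (fun a => ?_)
  have := foldl_idxOf (f a) (g a) 0
  rw [this]
  simp

/-- The size of a list whose elements have bounded size. -/
theorem size_list_le {S : ℕ} (l : List β) (h : ∀ b ∈ l, size b ≤ S) :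
    size l ≤ l.length * (S + 1) + 1 := by
  induction l with
  | nil => simp
  | cons b l ih =>
    have h1 := ih (fun b hb => h b (List.mem_cons_of_mem _ hb))
    have h2 := h b (List.mem_cons_self ..)
    rw [size_cons, List.length_cons, Nat.succ_mul]
    omega

end Pool.Agent.Lib.PolyTime
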