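import Pool.Agent.Lib.PolyTime.Lists
import Mathlib.Data.Nat.Bitwise
import Mathlib.Data.Nat.Size
import Mathlib.Tactic.Ring
import Mathlib.Tactic.Linarith

/-!
# Binary natural numbers

`BN` is the type of natural numbers encoded in binary (`Nat.bits`, least significant bit first);
`PT.bn*`: closure of polynomial time functions under binary arithmetic.
-/

namespace Pool.Agent.Lib.PolyTime

open Function

variable {α β γ δ σ : Type} [Enc α] [Enc β] [Enc γ] [Enc δ] [Enc σ]

/-- Natural numbers, encoded in binary. -/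
structure BN where
  /-- the number -/
  val : ℕ
  deriving DecidableEq

theorem BN.ext' {x y : BN} (h : x.val = y.val) : x = y := by
  cases x; cases y; simp only at h; rw [h]

theorem bits_inj {m n : ℕ} (h : m.bits = n.bits) : m = n := by
  apply Nat.eq_of_testBit_eq
  intro i
  rw [Nat.testBit_eq_inth, Nat.testBit_eq_inth, h]

instance encBN : Enc BN :=
  Enc.ofInj (fun x : BN => x.val.bits) (fun _ _ h => BN.ext' (bits_inj h))

theorem enc_BN (x : BN) : enc x = enc x.val.bits := rfl

theorem size_bool_le (b : Bool) : size b ≤ 3 := by cases b <;> decide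

theorem size_bool_pos (b : Bool) : 1 ≤ size b := size_pos b

theorem size_bools_le (l : List Bool) : size l ≤ 4 * l.length + 1 := by
  induction l with
  | nil => simp
  | cons b l ih =>
    have := size_bool_le b
    rw [size_cons, List.length_cons]; omega

theorem le_size_bools (l : List Bool) : 2 * l.length + 1 ≤ size l := by
  induction l with
  | nil => simp
  | cons b l ih =>
    have := size_bool_pos b
    rw [size_cons, List.length_cons]; omega

theorem size_BN_le (x : BN) : size x ≤ 4 * x.val.size + 1 := by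
  have h := size_bools_le x.val.bits
  rw [Nat.size_eq_bits_len] at h
  exact h

theorem le_size_BN (x : BN) : 2 * x.val.size + 1 ≤ size x := by
  have h := le_size_bools x.val.bits
  rw [Nat.size_eq_bits_len] at h
  exact h

theorem size_BN_le_of_lt {x : BN} {n : ℕ} (h : x.val < 2 ^ n) : size x ≤ 4 * n + 1 := by
  have h1 := size_BN_le x
  have h2 : x.val.size ≤ n := Nat.size_le.mpr h
  omega

theorem lt_two_pow_size (x : BN) : x.val < 2 ^ size x := by
  have h1 : x.val < 2 ^ x.val.size := Nat.lt_size_self _
  have h2 := le_size_BN x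
  exact h1.trans_le (Nat.pow_le_pow_right (by norm_num) (by omega))

/-- monotonicity: the encoding of a smaller number is at most (about) twice as long -/
theorem size_BN_mono {x y : BN} (h : x.val ≤ y.val) : size x ≤ 2 * size y := by
  have h1 := size_BN_le x
  have h2 := le_size_BN y
  have h3 := Nat.size_le_size h
  omega

/-! ### most significant bit first -/

/-- value of a bit string, most significant bit first -/
def msb (l : List Bool) : ℕ := l.foldl (fun n b => Nat.bit b n) 0

theorem msb_acc (l : List Bool) : ∀ n : ℕ, l.foldl (fun n b => Nat.bit b n) n =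
    n * 2 ^ l.length + msb l := by
  induction l with
  | nil => intro n; simp [msb]
  | cons b l ih =>
    intro n
    have h : msb (b :: l) = Nat.bit b 0 * 2 ^ l.length + msb l := by
      rw [msb, List.foldl_cons, ih]
    rw [List.foldl_cons, ih, h, List.length_cons, Nat.bit_val, Nat.bit_val]
    ring

theorem msb_nil : msb [] = 0 := rfl

theorem msb_cons (b : Bool) (l : List Bool) : msb (b :: l) = b.toNat * 2 ^ l.length + msb l := by
  rw [msb, List.foldl_cons, msb_acc, Nat.bit_val]
  simp

theorem msb_lt (l : List Bool) : msb l < 2 ^ l.length := by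
  induction l with
  | nil => simp [msb]
  | cons b l ih =>
    rw [msb_cons, List.length_cons, pow_succ]
    have := Bool.toNat_le b
    nlinarith [Nat.mul_le_mul_right (2 ^ l.length) this]

/-- one step of the normalisation -/
def nrm (s : List Bool) (b : Bool) : List Bool := if b || !s.isEmpty then b :: s else []

theorem nrm_bits (n : ℕ) (b : Bool) : nrm n.bits b = (Nat.bit b n).bits := by
  unfold nrm
  by_cases hn : n = 0
  · subst hn
    cases b
    · simp
    · rw [Nat.bits_append_bit _ _ (by simp)]
      simp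
  · rw [Nat.bits_append_bit _ _ (fun h => absurd h hn), if_pos]
    have : n.bits ≠ [] := by
      intro h
      have h1 := Nat.size_eq_bits_len n
      rw [h] at h1
      exact hn (Nat.size_eq_zero.mp h1.symm)
    simp [this]

theorem foldl_nrm (l : List Bool) : ∀ n : ℕ, l.foldl nrm n.bits =
    (l.foldl (fun n b => Nat.bit b n) n).bits := by
  induction l with
  | nil => intro n; rfl
  | cons b l ih => intro n; rw [List.foldl_cons, List.foldl_cons, nrm_bits, ih]

theorem PT.ofMSB {f : α → List Bool} (hf : PT f) : PT (fun a => (⟨msb (f a)⟩ : BN)) := by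
  have h1 : PT (fun a => (f a).foldl nrm []) := by
    refine PT.foldl_add (f := f) (init := fun _ => ([] : List Bool)) (step := fun _ s b => nrm s b)
      hf (PT.const _) ?_ (C := fun _ => 4) (PB.const 4) ?_
    · refine PT.cond (c := fun x : α × (List Bool × Bool) => x.2.2 || !x.2.1.isEmpty)
        (PT.or PT.snd.snd' (PT.not (PT.isNil PT.snd.fst'))) (PT.cons PT.snd.snd' PT.snd.fst')
        (PT.const [])
    · intro a s b _
      unfold nrm
      have := size_bool_le b
      split_ifs
      · rw [size_cons]; omega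
      · rw [size_nil]; omega
  refine PT.congr_enc h1 (fun a => ?_)
  rw [enc_BN]
  have := foldl_nrm (f a) 0
  rw [Nat.zero_bits] at this
  rw [this]
  rfl

/-- The bits of a binary number, least significant first. -/
theorem PT.bits {f : α → BN} (hf : PT f) : PT (fun a => (f a).val.bits) := by
  have h : PT (fun x : BN => x.val.bits) := PT.of_enc_eq (fun _ => rfl)
  exact h.comp hf

theorem PT.bnSize {f : α → BN} (hf : PT f) : PT (fun a => (f a).val.size) :=
  (PT.length hf.bits).congr (fun a => Nat.size_eq_bits_len _)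

theorem PT.testBit {f : α → BN} {g : α → ℕ} (hf : PT f) (hg : PT g) :
    PT (fun a => (f a).val.testBit (g a)) := by
  refine (PT.optCases (f := fun a => ((f a).val.bits)[g a]?) (g := fun _ => false)
    (h := fun _ c => c) (PT.getElem? hg hf.bits) (PT.const false) PT.snd).congr (fun a => ?_)
  rw [Nat.testBit_eq_inth, List.getI_eq_getElem?_getD]
  cases ((f a).val.bits)[g a]? <;> rfl

/-! ### addition and subtraction -/

/-- the adder -/
def addF (a b n : ℕ) : Bool × List Bool :=
  (List.range n).foldl (fun s i => ((a.testBit i && b.testBit i) || ((a.testBit i || b.testBit i) &&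
    s.1), (xor (xor (a.testBit i) (b.testBit i)) s.1) :: s.2)) (false, [])

/-- the subtractor -/
def subF (a b n : ℕ) : Bool × List Bool :=
  (List.range n).foldl (fun s i => ((!a.testBit i && b.testBit i) ||
    ((!a.testBit i || b.testBit i) && s.1),
    (xor (xor (a.testBit i) (b.testBit i)) s.1) :: s.2)) (false, [])

theorem mod_two_pow_succ (a n : ℕ) :
    a % 2 ^ (n + 1) = a % 2 ^ n + (a.testBit n).toNat * 2 ^ n := by
  have h1 : (a.testBit n).toNat = a / 2 ^ n % 2 := Nat.toNat_testBit a n
  rw [h1, Nat.mod_pow_succ]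
  ring

theorem addF_spec (a b n : ℕ) : (addF a b n).2.length = n ∧
    msb (addF a b n).2 + (addF a b n).1.toNat * 2 ^ n = a % 2 ^ n + b % 2 ^ n := by
  induction n with
  | zero => simp [addF, msb, Nat.mod_one]
  | succ n ih =>
    have e : addF a b (n + 1) = ((a.testBit n && b.testBit n) ||
        ((a.testBit n || b.testBit n) && (addF a b n).1),
        (xor (xor (a.testBit n) (b.testBit n)) (addF a b n).1) :: (addF a b n).2) := by
      unfold addF
      rw [List.range_succ, List.foldl_append]
      rfl
    rw [e]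
    refine ⟨by simp [ih.1], ?_⟩
    simp only
    rw [msb_cons, ih.1, mod_two_pow_succ, mod_two_pow_succ, pow_succ]
    have h2 := ih.2
    generalize (addF a b n).1 = c at *
    generalize a.testBit n = x at *
    generalize b.testBit n = y at *
    cases c <;> cases x <;> cases y <;> simp at h2 ⊢ <;> omega

theorem subF_spec (a b n : ℕ) : (subF a b n).2.length = n ∧
    msb (subF a b n).2 + b % 2 ^ n = a % 2 ^ n + (subF a b n).1.toNat * 2 ^ n := by
  induction n with
  | zero => simp [subF, msb, Nat.mod_one]
  | succ n ih =>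
    have e : subF a b (n + 1) = ((!a.testBit n && b.testBit n) ||
        ((!a.testBit n || b.testBit n) && (subF a b n).1),
        (xor (xor (a.testBit n) (b.testBit n)) (subF a b n).1) :: (subF a b n).2) := by
      unfold subF
      rw [List.range_succ, List.foldl_append]
      rfl
    rw [e]
    refine ⟨by simp [ih.1], ?_⟩
    simp only
    rw [msb_cons, ih.1, mod_two_pow_succ, mod_two_pow_succ, pow_succ]
    have h2 := ih.2
    generalize (subF a b n).1 = c at *
    generalize a.testBit n = x at *
    generalize b.testBit n = y at *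
    cases c <;> cases x <;> cases y <;> simp at h2 ⊢ <;> omega

/-- PT of a serial fold over the bits of two numbers -/
theorem PT.serial {f g : α → BN} {h : α → ℕ} (hf : PT f) (hg : PT g) (hh : PT h)
    (d o : Bool → Bool → Bool → Bool) :
    PT (fun a => (List.range (h a)).foldl (fun (s : Bool × List Bool) i =>
      (d ((f a).val.testBit i) ((g a).val.testBit i) s.1,
        o ((f a).val.testBit i) ((g a).val.testBit i) s.1 :: s.2)) (false, [])) := by
  have hd : PT (fun x : Bool × (Bool × Bool) => d x.1 x.2.1 x.2.2) := PT.ofFintype _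
  have ho : PT (fun x : Bool × (Bool × Bool) => o x.1 x.2.1 x.2.2) := PT.ofFintype _
  refine PT.foldl_add (f := fun a => List.range (h a)) (init := fun _ => (false, ([] : List Bool)))
    (step := fun a s i => (d ((f a).val.testBit i) ((g a).val.testBit i) s.1,
        o ((f a).val.testBit i) ((g a).val.testBit i) s.1 :: s.2)) hh.range (PT.const _) ?_
    (C := fun _ => 6) (PB.const 6) ?_
  · have t1 : PT (fun x : α × ((Bool × List Bool) × ℕ) => (f x.1).val.testBit x.2.2) :=
      PT.testBit (hf.comp PT.fst) PT.snd.snd'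
    have t2 : PT (fun x : α × ((Bool × List Bool) × ℕ) => (g x.1).val.testBit x.2.2) :=
      PT.testBit (hg.comp PT.fst) PT.snd.snd'
    have t3 : PT (fun x : α × ((Bool × List Bool) × ℕ) => x.2.1.1) := PT.snd.fst'.fst'
    have t4 : PT (fun x : α × ((Bool × List Bool) × ℕ) => x.2.1.2) := PT.snd.fst'.snd'
    exact (hd.comp (t1.pair (t2.pair t3))).pair (PT.cons (ho.comp (t1.pair (t2.pair t3))) t4)
  · intro a s i _
    obtain ⟨c, l⟩ := s
    simp only [size_prod, size_cons]
    have h1 := size_bool_le (d ((f a).val.testBit i) ((g a).val.testBit i) c)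
    have h2 := size_bool_le (o ((f a).val.testBit i) ((g a).val.testBit i) c)
    have h3 := size_bool_pos c
    omega

theorem PT.addF {f g : α → BN} {h : α → ℕ} (hf : PT f) (hg : PT g) (hh : PT h) :
    PT (fun a => addF (f a).val (g a).val (h a)) :=
  PT.serial hf hg hh (fun x y c => (x && y) || ((x || y) && c)) (fun x y c => xor (xor x y) c)

theorem PT.subF {f g : α → BN} {h : α → ℕ} (hf : PT f) (hg : PT g) (hh : PT h) :
    PT (fun a => subF (f a).val (g a).val (h a)) :=
  PT.serial hf hg hh (fun x y c => (!x && y) || ((!x || y) && c)) (fun x y c => xor (xor x y) c)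

theorem msb_addF {a b n : ℕ} (h : a + b < 2 ^ n) : msb (addF a b n).2 = a + b := by
  obtain ⟨h1, h2⟩ := addF_spec a b n
  rw [Nat.mod_eq_of_lt (by omega), Nat.mod_eq_of_lt (by omega)] at h2
  cases hc : (addF a b n).1
  · rw [hc] at h2; simpa using h2
  · rw [hc] at h2
    simp at h2
    omega

theorem subF_fst {a b n : ℕ} (ha : a < 2 ^ n) (hb : b < 2 ^ n) :
    (subF a b n).1 = decide (a < b) := by
  obtain ⟨h1, h2⟩ := subF_spec a b n
  have h3 := msb_lt (subF a b n).2
  rw [h1] at h3
  rw [Nat.mod_eq_of_lt ha, Nat.mod_eq_of_lt hb] at h2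
  cases hc : (subF a b n).1
  · rw [hc] at h2
    simp at h2
    symm; rw [decide_eq_false_iff_not]; omega
  · rw [hc] at h2
    simp at h2
    symm; rw [decide_eq_true_iff]; omega

theorem msb_subF {a b n : ℕ} (ha : a < 2 ^ n) (hb : b ≤ a) :
    msb (subF a b n).2 = a - b := by
  obtain ⟨h1, h2⟩ := subF_spec a b n
  have h3 := subF_fst ha (lt_of_le_of_lt hb ha)
  rw [h3, Nat.mod_eq_of_lt ha, Nat.mod_eq_of_lt (by omega)] at h2
  have : ¬ a < b := by omega
  simp only [this, decide_false, Bool.toNat_false, zero_mul, add_zero] at h2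
  omega

/-- number of bits that is enough for both numbers and their sum -/
theorem PT.bnWidth {f g : α → BN} (hf : PT f) (hg : PT g) :
    PT (fun a => (f a).val.size + (g a).val.size + 1) := (hf.bnSize.add hg.bnSize).succ

theorem lt_width₁ (a b : ℕ) : a < 2 ^ (a.size + b.size + 1) :=
  (Nat.lt_size_self a).trans_le (Nat.pow_le_pow_right (by norm_num) (by omega))

theorem lt_width₂ (a b : ℕ) : b < 2 ^ (a.size + b.size + 1) :=
  (Nat.lt_size_self b).trans_le (Nat.pow_le_pow_right (by norm_num) (by omega))

theorem add_lt_width (a b : ℕ) : a + b < 2 ^ (a.size + b.size + 1) := by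
  have h1 : a < 2 ^ (a.size + b.size) :=
    (Nat.lt_size_self a).trans_le (Nat.pow_le_pow_right (by norm_num) (by omega))
  have h2 : b < 2 ^ (a.size + b.size) :=
    (Nat.lt_size_self b).trans_le (Nat.pow_le_pow_right (by norm_num) (by omega))
  rw [pow_succ]; omega

theorem PT.bnAdd {f g : α → BN} (hf : PT f) (hg : PT g) :
    PT (fun a => (⟨(f a).val + (g a).val⟩ : BN)) :=
  (PT.ofMSB (PT.addF hf hg (PT.bnWidth hf hg)).snd').congr
    (fun a => by rw [msb_addF (add_lt_width _ _)])

theorem PT.bnLt {f g : α → BN} (hf : PT f) (hg : PT g) :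
    PT (fun a => decide ((f a).val < (g a).val)) :=
  ((PT.subF hf hg (PT.bnWidth hf hg)).fst').congr
    (fun a => subF_fst (lt_width₁ _ _) (lt_width₂ _ _))

theorem PT.bnLe {f g : α → BN} (hf : PT f) (hg : PT g) :
    PT (fun a => decide ((f a).val ≤ (g a).val)) :=
  (PT.not (PT.bnLt hg hf)).congr (fun a => by
    by_cases h : (g a).val < (f a).val
    · simp [h, not_le.mpr h]
    · simp [h, not_lt.mp h])

theorem PT.bnEq {f g : α → BN} (hf : PT f) (hg : PT g) :
    PT (fun a => decide ((f a).val = (g a).val)) :=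
  (PT.eq hf hg).congr (fun a => by
    by_cases h : (f a).val = (g a).val
    · simp [BN.ext' h]
    · have : f a ≠ g a := fun h' => h (by rw [h'])
      simp [h, this])

theorem PT.bnSub {f g : α → BN} (hf : PT f) (hg : PT g) :
    PT (fun a => (⟨(f a).val - (g a).val⟩ : BN)) :=
  (PT.ite (c := fun a => (f a).val < (g a).val) (PT.bnLt hf hg) (PT.const ⟨0⟩)
    (PT.ofMSB (PT.subF hf hg (PT.bnWidth hf hg)).snd')).congr (fun a => by
      split_ifs with h
      · congr 1; omega
      · rw [msb_subF (lt_width₁ _ _) (by omega)])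

theorem PT.bnConst (n : ℕ) : PT (fun _ : α => (⟨n⟩ : BN)) := PT.const _

theorem PT.bnMin {f g : α → BN} (hf : PT f) (hg : PT g) :
    PT (fun a => (⟨min (f a).val (g a).val⟩ : BN)) :=
  (PT.ite (c := fun a => (f a).val ≤ (g a).val) (PT.bnLe hf hg) hf hg).congr (fun a => by
    split_ifs with h
    · exact BN.ext' (by simp [h])
    · exact BN.ext' (by simp; omega))

theorem PT.bnMax {f g : α → BN} (hf : PT f) (hg : PT g) :
    PT (fun a => (⟨max (f a).val (g a).val⟩ : BN)) :=
  (PT.ite (c := fun a => (f a).val ≤ (g a).val) (PT.bnLe hf hg) hg hf).congr (fun a => by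
    split_ifs with h
    · exact BN.ext' (by simp [h])
    · exact BN.ext' (by simp; omega))

theorem PT.bnSucc {f : α → BN} (hf : PT f) : PT (fun a => (⟨(f a).val + 1⟩ : BN)) :=
  PT.bnAdd hf (PT.bnConst 1)

/-- Powers of two, with exponent in unary. -/
theorem PT.bnTwoPow {f : α → ℕ} (hf : PT f) : PT (fun a => (⟨2 ^ f a⟩ : BN)) := by
  have h1 : PT (fun a => true :: (List.replicate (f a) ()).map (fun _ => false)) :=
    PT.cons (PT.const true) (PT.map (g := fun _ _ => false) hf.replicateUnit (PT.const false))
  refine (PT.ofMSB h1).congr (fun a => ?_)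
  have h2 : ∀ n : ℕ, msb ((List.replicate n ()).map (fun _ => false)) = 0 := by
    intro n
    induction n with
    | zero => rfl
    | succ n ih => rw [List.replicate_succ, List.map_cons, msb_cons, ih]; simp
  rw [msb_cons, h2]
  simp

/-- Folds with a binary accumulator whose values are polynomially bounded in length. -/
theorem PT.bnFoldl {f : α → List β} {init : α → BN} {step : α → BN → β → BN} (hf : PT f)
    (hi : PT init) (hs : PT (fun x : α × (BN × β) => step x.1 x.2.1 x.2.2))
    {B : ℕ → ℕ} (hBp : PB B)
    (hB : ∀ (a : α) (l' : List β), l' <+: f a →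
      (l'.foldl (step a) (init a)).val < 2 ^ B (size a)) :
    PT (fun a => (f a).foldl (step a) (init a)) :=
  PT.foldl hf hi hs (B := fun n => 4 * B n + 1) (((PB.const 4).mul hBp).add (PB.const 1))
    (fun a l' hl' => size_BN_le_of_lt (hB a l' hl'))

/-- From unary to binary. -/
theorem PT.toBN {f : α → ℕ} (hf : PT f) : PT (fun a => (⟨f a⟩ : BN)) := by
  obtain ⟨p, hp⟩ := hf.size_le
  have key : ∀ (l : List Unit) (n : ℕ), l.foldl (fun (s : BN) _ => (⟨s.val + 1⟩ : BN)) ⟨n⟩ =
      ⟨n + l.length⟩ := by
    intro l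
    induction l with
    | nil => intro n; rfl
    | cons _ l ih =>
      intro n
      rw [List.foldl_cons, ih, List.length_cons]
      exact BN.ext' (by simp only; omega)
  have h := PT.bnFoldl (f := fun a => List.replicate (f a) ()) (init := fun _ => (⟨0⟩ : BN))
    (step := fun _ s _ => ⟨s.val + 1⟩) hf.replicateUnit (PT.const _) (PT.bnSucc PT.snd.fst')
    (B := fun n => p.eval n) (PB.poly p) (by
      intro a l' hl'
      rw [key]
      have h1 := hl'.length_le
      rw [List.length_replicate] at h1
      have h2 := hp a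
      rw [size_nat] at h2
      simp only
      calc 0 + l'.length ≤ p.eval (size a) := by omega
        _ < 2 ^ p.eval (size a) := Nat.lt_two_pow_self)
  refine h.congr (fun a => ?_)
  rw [key]; simp

/-- The bits, most significant first. -/
theorem PT.bitsM {f : α → BN} (hf : PT f) : PT (fun a => (f a).val.bits.reverse) :=
  PT.reverse hf.bits

theorem msb_append_singleton (l : List Bool) (b : Bool) :
    msb (l ++ [b]) = 2 * msb l + b.toNat := by
  rw [msb, List.foldl_append]
  simp only [List.foldl_cons, List.foldl_nil]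
  rw [Nat.bit_val]
  rfl

theorem msb_bits (n : ℕ) : msb n.bits.reverse = n := by
  induction n using Nat.binaryRec' with
  | zero => simp [msb]
  | bit b n h ih =>
    rw [Nat.bits_append_bit _ _ h, List.reverse_cons, msb_append_singleton, ih, Nat.bit_val]

theorem msb_prefix_le {l' : List Bool} {n : ℕ} (h : l' <+: n.bits.reverse) :
    l'.length ≤ n.size := by
  have := h.length_le
  rwa [List.length_reverse, Nat.size_eq_bits_len] at this

/-! ### multiplication -/

/-- one step of the multiplication -/
def mulStep (b : ℕ) (s : BN) (c : Bool) : BN := ⟨s.val + s.val + (if c then b else 0)⟩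

theorem foldl_mulStep (b : ℕ) (l : List Bool) : l.foldl (mulStep b) ⟨0⟩ = ⟨msb l * b⟩ := by
  induction l using List.reverseRecOn with
  | nil => simp [msb]
  | append_singleton l c ih =>
    rw [List.foldl_append, ih, msb_append_singleton]
    simp only [List.foldl_cons, List.foldl_nil, mulStep]
    congr 1
    cases c <;> simp <;> ring

theorem PT.bnMul {f g : α → BN} (hf : PT f) (hg : PT g) :
    PT (fun a => (⟨(f a).val * (g a).val⟩ : BN)) := by
  obtain ⟨p, hp⟩ := hf.size_le
  obtain ⟨q, hq⟩ := hg.size_le
  have h := PT.bnFoldl (f := fun a => (f a).val.bits.reverse) (init := fun _ => (⟨0⟩ : BN))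
    (step := fun a s c => mulStep (g a).val s c) hf.bitsM (PT.const _) ?_
    (B := fun n => p.eval n + q.eval n) ((PB.poly p).add (PB.poly q)) ?_
  · refine h.congr (fun a => ?_)
    rw [foldl_mulStep, msb_bits]
  · have h1 : PT (fun x : α × (BN × Bool) => x.2.1) := PT.snd.fst'
    have h2 : PT (fun x : α × (BN × Bool) =>
        (⟨if x.2.2 = true then (g x.1).val else 0⟩ : BN)) :=
      (PT.cond (c := fun x : α × (BN × Bool) => x.2.2) PT.snd.snd' (hg.comp PT.fst)
        (PT.const ⟨0⟩)).congr (fun x => by
          rcases x with ⟨a, s, c⟩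
          cases c <;> rfl)
    exact PT.bnAdd (PT.bnAdd h1 h1) h2
  · intro a l' hl'
    rw [foldl_mulStep]
    simp only
    have h1 := msb_lt l'
    have h2 := msb_prefix_le hl'
    have h3 := le_size_BN (f a)
    have h4 := hp a
    have h5 := lt_two_pow_size (g a)
    have h6 := hq a
    have h7 : msb l' < 2 ^ p.eval (size a) :=
      h1.trans_le (Nat.pow_le_pow_right (by norm_num) (by omega))
    have h8 : (g a).val < 2 ^ q.eval (size a) :=
      h5.trans_le (Nat.pow_le_pow_right (by norm_num) h6)
    rw [pow_add]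
    exact Nat.mul_lt_mul'' h7 h8

/-! ### division -/

/-- one step of the long division by `m` -/
def divStep (m : ℕ) (s : BN × BN) (c : Bool) : BN × BN :=
  if m ≤ s.2.val + s.2.val + c.toNat then
    (⟨s.1.val + s.1.val + 1⟩, ⟨s.2.val + s.2.val + c.toNat - m⟩)
  else (⟨s.1.val + s.1.val⟩, ⟨s.2.val + s.2.val + c.toNat⟩)

theorem foldl_divStep {m : ℕ} (hm : 0 < m) (l : List Bool) :
    l.foldl (divStep m) (⟨0⟩, ⟨0⟩) = (⟨msb l / m⟩, ⟨msb l % m⟩) := by
  induction l using List.reverseRecOn with
  | nil => simp [msb]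
  | append_singleton l c ih =>
    rw [List.foldl_append, ih, msb_append_singleton]
    simp only [List.foldl_cons, List.foldl_nil, divStep]
    have h1 := Nat.div_add_mod (msb l) m
    have h2 := Nat.mod_lt (msb l) hm
    set q := msb l / m
    set r := msb l % m
    have hc := Bool.toNat_le c
    split_ifs with h
    · have h3 : 2 * msb l + c.toNat = (r + r + c.toNat - m) + m * (q + q + 1) := by
        have : m * (q + q + 1) = 2 * (m * q) + m := by ring
        omega
      have h4 : r + r + c.toNat - m < m := by omega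
      rw [h3, Nat.add_mul_div_left _ _ hm, Nat.add_mul_mod_self_left, Nat.div_eq_of_lt h4,
        Nat.mod_eq_of_lt h4]
      simp
    · have h3 : 2 * msb l + c.toNat = (r + r + c.toNat) + m * (q + q) := by
        have : m * (q + q) = 2 * (m * q) := by ring
        omega
      have h4 : r + r + c.toNat < m := by omega
      rw [h3, Nat.add_mul_div_left _ _ hm, Nat.add_mul_mod_self_left, Nat.div_eq_of_lt h4,
        Nat.mod_eq_of_lt h4]
      simp

theorem foldl_divStep_zero (l : List Bool) :
    (l.foldl (divStep 0) (⟨0⟩, ⟨0⟩)).2 = ⟨msb l⟩ ∧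
    (l.foldl (divStep 0) (⟨0⟩, ⟨0⟩)).1.val < 2 ^ l.length := by
  induction l using List.reverseRecOn with
  | nil => simp [msb]
  | append_singleton l c ih =>
    rw [List.foldl_append, msb_append_singleton]
    simp only [List.foldl_cons, List.foldl_nil, divStep, Nat.zero_le, if_true, List.length_append,
      List.length_singleton, pow_succ]
    rw [ih.1]
    constructor
    · congr 1
      simp only [Nat.sub_zero]
      ring
    · have := ih.2
      omega

theorem PT.bnDivMod {f g : α → BN} (hf : PT f) (hg : PT g) :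
    PT (fun a => ((f a).val.bits.reverse).foldl (divStep (g a).val) (⟨0⟩, ⟨0⟩)) := by
  obtain ⟨p, hp⟩ := hf.size_le
  refine PT.foldl (f := fun a => (f a).val.bits.reverse) (init := fun _ => ((⟨0⟩, ⟨0⟩) : BN × BN))
    (step := fun a s c => divStep (g a).val s c) hf.bitsM (PT.const _) ?_
    (B := fun n => (4 * p.eval n + 1) + (4 * p.eval n + 1) + 1)
    (((((PB.const 4).mul (PB.poly p)).add (PB.const 1)).add
      (((PB.const 4).mul (PB.poly p)).add (PB.const 1))).add (PB.const 1)) ?_
  · have h1 : PT (fun x : α × ((BN × BN) × Bool) => x.2.1.1) := PT.snd.fst'.fst'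
    have h2 : PT (fun x : α × ((BN × BN) × Bool) => x.2.1.2) := PT.snd.fst'.snd'
    have h3 : PT (fun x : α × ((BN × BN) × Bool) => (⟨x.2.2.toNat⟩ : BN)) := by
      have : PT (fun b : Bool => (⟨b.toNat⟩ : BN)) := PT.ofFintype _
      exact this.comp PT.snd.snd'
    have h4 : PT (fun x : α × ((BN × BN) × Bool) =>
        (⟨x.2.1.2.val + x.2.1.2.val + x.2.2.toNat⟩ : BN)) := PT.bnAdd (PT.bnAdd h2 h2) h3
    have h5 : PT (fun x : α × ((BN × BN) × Bool) => (⟨x.2.1.1.val + x.2.1.1.val⟩ : BN)) :=
      PT.bnAdd h1 h1
    have h6 : PT (fun x : α × ((BN × BN) × Bool) => g x.1) := hg.comp PT.fst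
    exact PT.ite (c := fun x : α × ((BN × BN) × Bool) =>
      (g x.1).val ≤ x.2.1.2.val + x.2.1.2.val + x.2.2.toNat) (PT.bnLe h6 h4)
      (PT.pair (PT.bnSucc h5) (PT.bnSub h4 h6)) (PT.pair h5 h4)
  · intro a l' hl'
    change size (l'.foldl (divStep (g a).val) (⟨0⟩, ⟨0⟩)) ≤ _
    have h2 := msb_prefix_le hl'
    have h3 := le_size_BN (f a)
    have h4 := hp a
    have h1 := msb_lt l'
    have h5 : 2 ^ l'.length ≤ 2 ^ p.eval (size a) :=
      Nat.pow_le_pow_right (by norm_num) (by omega)
    rcases Nat.eq_zero_or_pos (g a).val with h0 | h0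
    · rw [h0]
      obtain ⟨e1, e2⟩ := foldl_divStep_zero l'
      rw [size_prod, e1]
      have b1 : size (⟨msb l'⟩ : BN) ≤ 4 * p.eval (size a) + 1 :=
        size_BN_le_of_lt (h1.trans_le h5)
      have b2 := size_BN_le_of_lt (e2.trans_le h5)
      omega
    · rw [foldl_divStep h0, size_prod]
      have b1 : size (⟨msb l' / (g a).val⟩ : BN) ≤ 4 * p.eval (size a) + 1 :=
        size_BN_le_of_lt ((Nat.div_le_self _ _).trans_lt (h1.trans_le h5))
      have b2 : size (⟨msb l' % (g a).val⟩ : BN) ≤ 4 * p.eval (size a) + 1 :=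
        size_BN_le_of_lt ((Nat.mod_le _ _).trans_lt (h1.trans_le h5))
      simp only
      omega

theorem PT.bnMod {f g : α → BN} (hf : PT f) (hg : PT g) :
    PT (fun a => (⟨(f a).val % (g a).val⟩ : BN)) :=
  ((PT.bnDivMod hf hg).snd').congr (fun a => by
    rcases Nat.eq_zero_or_pos (g a).val with h0 | h0
    · rw [h0, (foldl_divStep_zero _).1, msb_bits, Nat.mod_zero]
    · rw [foldl_divStep h0, msb_bits])

theorem PT.bnDiv {f g : α → BN} (hf : PT f) (hg : PT g) :
    PT (fun a => (⟨(f a).val / (g a).val⟩ : BN)) :=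
  (PT.ite (c := fun a => (g a).val = 0) (PT.bnEq hg (PT.bnConst 0)) (PT.const ⟨0⟩)
    ((PT.bnDivMod hf hg).fst')).congr (fun a => by
    split_ifs with h0
    · rw [h0, Nat.div_zero]
    · rw [foldl_divStep (Nat.pos_of_ne_zero h0), msb_bits])

/-! ### greatest common divisor -/

/-- one step of the Euclidean algorithm -/
def gcdStep (s : BN × BN) : BN × BN := if s.2.val = 0 then s else (s.2, ⟨s.1.val % s.2.val⟩)

theorem gcdStep_gcd (s : BN × BN) :
    Nat.gcd (gcdStep s).1.val (gcdStep s).2.val = Nat.gcd s.1.val s.2.val := by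
  unfold gcdStep
  split_ifs with h
  · rfl
  · simp only
    rw [Nat.gcd_comm s.2.val, ← Nat.gcd_rec, Nat.gcd_comm]

theorem gcdStep_zero {s : BN × BN} (h : s.2.val = 0) (k : ℕ) : gcdStep^[k] s = s := by
  induction k with
  | zero => rfl
  | succ k ih => rw [iterate_succ_apply, gcdStep, if_pos h, ih]

theorem gcdStep_iter : ∀ (n : ℕ) (s : BN × BN), s.2.val < 2 ^ n → (gcdStep^[2 * n] s).2.val = 0 := by
  intro n
  induction n with
  | zero => intro s h; simpa using h
  | succ n ih =>
    intro s h
    by_cases h0 : s.2.val = 0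
    · rw [gcdStep_zero h0]; exact h0
    · have e : 2 * (n + 1) = 2 * n + 1 + 1 := by ring
      rw [e, iterate_succ_apply, iterate_succ_apply]
      apply ih
      have e1 : gcdStep s = (s.2, ⟨s.1.val % s.2.val⟩) := by rw [gcdStep, if_neg h0]
      rw [e1]
      by_cases h1 : s.1.val % s.2.val = 0
      · rw [gcdStep, if_pos (by exact h1)]
        simp only [h1]
        positivity
      · rw [gcdStep, if_neg (by exact h1)]
        simp only
        have h2 : s.1.val % s.2.val < s.2.val := Nat.mod_lt _ (Nat.pos_of_ne_zero h0)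
        set r := s.1.val % s.2.val
        have h3 : s.2.val % r < r := Nat.mod_lt _ (Nat.pos_of_ne_zero h1)
        have h4 := Nat.div_add_mod s.2.val r
        have h5 : 1 ≤ s.2.val / r := (Nat.one_le_div_iff (Nat.pos_of_ne_zero h1)).mpr h2.le
        have h6 : r ≤ r * (s.2.val / r) := Nat.le_mul_of_pos_right _ h5
        rw [pow_succ] at h
        omega

theorem gcdStep_le (k : ℕ) (s : BN × BN) : (gcdStep^[k] s).1.val ≤ max s.1.val s.2.val ∧
    (gcdStep^[k] s).2.val ≤ max s.1.val s.2.val := by
  induction k with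
  | zero => simp
  | succ k ih =>
    rw [iterate_succ_apply']
    set t := gcdStep^[k] s
    unfold gcdStep
    split_ifs with h
    · exact ih
    · exact ⟨ih.2, (Nat.mod_le _ _).trans ih.1⟩

theorem gcdStep_gcd_iter (k : ℕ) (s : BN × BN) :
    Nat.gcd (gcdStep^[k] s).1.val (gcdStep^[k] s).2.val = Nat.gcd s.1.val s.2.val := by
  induction k with
  | zero => rfl
  | succ k ih => rw [iterate_succ_apply', gcdStep_gcd, ih]

theorem PT.bnGcd {f g : α → BN} (hf : PT f) (hg : PT g) :
    PT (fun a => (⟨Nat.gcd (f a).val (g a).val⟩ : BN)) := by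
  obtain ⟨p, hp⟩ := hf.size_le
  obtain ⟨q, hq⟩ := hg.size_le
  have h := PT.iterate (f := fun a => 2 * (g a).val.size) (init := fun a => (f a, g a))
    (step := fun _ s => gcdStep s) (PT.mulConst hg.bnSize 2) (hf.pair hg) (by
      have h1 : PT (fun x : α × (BN × BN) => x.2.1) := PT.snd.fst'
      have h2 : PT (fun x : α × (BN × BN) => x.2.2) := PT.snd.snd'
      exact PT.ite (c := fun x : α × (BN × BN) => x.2.2.val = 0) (PT.bnEq h2 (PT.bnConst 0))
        PT.snd (PT.pair h2 (PT.bnMod h1 h2)))
    (B := fun n => (4 * (p.eval n + q.eval n) + 1) + (4 * (p.eval n + q.eval n) + 1) + 1)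
    (((((PB.const 4).mul ((PB.poly p).add (PB.poly q))).add (PB.const 1)).add
      (((PB.const 4).mul ((PB.poly p).add (PB.poly q))).add (PB.const 1))).add (PB.const 1)) (by
      intro a i _
      change size (gcdStep^[i] (f a, g a)) ≤ _
      have e1 := gcdStep_le i (f a, g a)
      have h1 := lt_two_pow_size (f a)
      have h2 := lt_two_pow_size (g a)
      have h3 := hp a
      have h4 := hq a
      have h5 : (f a).val < 2 ^ (p.eval (size a) + q.eval (size a)) :=
        h1.trans_le (Nat.pow_le_pow_right (by norm_num) (by omega))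
      have h6 : (g a).val < 2 ^ (p.eval (size a) + q.eval (size a)) :=
        h2.trans_le (Nat.pow_le_pow_right (by norm_num) (by omega))
      have h7 : max (f a).val (g a).val < 2 ^ (p.eval (size a) + q.eval (size a)) :=
        max_lt h5 h6
      have h8 := size_BN_le_of_lt (e1.1.trans_lt h7)
      have h9 := size_BN_le_of_lt (e1.2.trans_lt h7)
      rw [size_prod]
      omega)
  refine h.fst'.congr (fun a => BN.ext' ?_)
  have e1 := gcdStep_gcd_iter (2 * (g a).val.size) (f a, g a)
  have e2 := gcdStep_iter (g a).val.size (f a, g a) (Nat.lt_size_self _)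
  rw [e2, Nat.gcd_zero_right] at e1
  exact e1

/-! ### sums and maxima over lists, capped conversion to unary -/

theorem PT.bnSum {f : α → List β} {g : α → β → BN} (hf : PT f)
    (hg : PT (fun x : α × β => g x.1 x.2)) :
    PT (fun a => (⟨((f a).map (fun b => (g a b).val)).sum⟩ : BN)) := by
  obtain ⟨p, hp⟩ := hf.size_le
  obtain ⟨q, hq⟩ := hg.size_le
  have key : ∀ (a : α) (l : List β) (n : ℕ),
      l.foldl (fun (s : BN) b => (⟨s.val + (g a b).val⟩ : BN)) ⟨n⟩ =
      ⟨n + (l.map (fun b => (g a b).val)).sum⟩ := by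
    intro a l
    induction l with
    | nil => intro n; simp
    | cons b l ih =>
      intro n
      rw [List.foldl_cons, ih, List.map_cons, List.sum_cons]
      congr 1
      ring
  have h := PT.bnFoldl (f := f) (init := fun _ => (⟨0⟩ : BN))
    (step := fun a s b => ⟨s.val + (g a b).val⟩) hf (PT.const _)
    (PT.bnAdd PT.snd.fst' (hg.comp (PT.fst.pair PT.snd.snd')))
    (B := fun n => p.eval n + q.eval (n + p.eval n + 1))
    ((PB.poly p).add (PB.comp q ((PB.id.add (PB.poly p)).add (PB.const 1)))) (by
      intro a l' hl'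
      rw [key]
      simp only [zero_add]
      set Q := q.eval (size a + p.eval (size a) + 1) with hQ
      have h1 : ∀ b ∈ l', (g a b).val ≤ 2 ^ Q := by
        intro b hb
        have h2 := size_mem_lt (hl'.subset hb)
        have h3 := hp a
        have h4 := hq (a, b)
        have h5 : size (a, b) ≤ size a + p.eval (size a) + 1 := by
          rw [size_prod]; simp only; omega
        have h6 := h4.trans (eval_mono q h5)
        exact (lt_two_pow_size _).le.trans (Nat.pow_le_pow_right (by norm_num) h6)
      have h2 : (l'.map (fun b => (g a b).val)).sum ≤ l'.length * 2 ^ Q := by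
        clear hl'
        induction l' with
        | nil => simp
        | cons b l ih =>
          have h3 := ih (fun b hb => h1 b (List.mem_cons_of_mem _ hb))
          have h4 := h1 b List.mem_cons_self
          rw [List.map_cons, List.sum_cons, List.length_cons, Nat.succ_mul]
          omega
      have h3 : l'.length ≤ p.eval (size a) :=
        hl'.length_le.trans ((length_le_size _).trans (hp a))
      have h4 : l'.length < 2 ^ p.eval (size a) := lt_of_le_of_lt h3 Nat.lt_two_pow_self
      rw [pow_add]
      exact h2.trans_lt (Nat.mul_lt_mul_of_pos_right h4 (by positivity)))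
  refine h.congr (fun a => ?_)
  rw [key, zero_add]

/-- capped conversion to unary -/
theorem PT.bnCap {f : α → BN} {g : α → ℕ} (hf : PT f) (hg : PT g) :
    PT (fun a => min (f a).val (g a)) := by
  have h := PT.length (PT.filter (f := fun a => List.range (g a))
    (p := fun a i => decide (i < (f a).val)) hg.range
    ((PT.bnLt (PT.toBN PT.snd) (hf.comp PT.fst)).congr (fun x => rfl)))
  refine h.congr (fun a => ?_)
  have key : ∀ m n : ℕ, ((List.range n).filter (fun i => decide (i < m))).length = min m n := by
    intro m n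
    induction n with
    | zero => simp
    | succ n ih =>
      rw [List.range_succ, List.filter_append, List.length_append, ih]
      by_cases h : n < m
      · simp [h]; omega
      · simp [h]; omega
  exact key _ _

/-! ### integers -/

/-- Integers, encoded as a sign and a binary absolute value. -/
structure BZ where
  /-- the integer -/
  val : ℤ
  deriving DecidableEq

theorem BZ.ext' {x y : BZ} (h : x.val = y.val) : x = y := by
  cases x; cases y; simp only at h; rw [h]

instance encBZ : Enc BZ :=
  Enc.ofInj (fun x : BZ => (decide (x.val < 0), (⟨x.val.natAbs⟩ : BN))) (by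
    intro x y h
    simp only [Prod.mk.injEq, BN.mk.injEq, decide_eq_decide] at h
    apply BZ.ext'
    omega)

theorem enc_BZ (x : BZ) : enc x = enc (decide (x.val < 0), (⟨x.val.natAbs⟩ : BN)) := rfl

theorem size_BZ_le_of_lt {x : BZ} {n : ℕ} (h : x.val.natAbs < 2 ^ n) : size x ≤ 4 * n + 5 := by
  have h1 : size x = size (decide (x.val < 0), (⟨x.val.natAbs⟩ : BN)) := rfl
  rw [h1, size_prod]
  have h2 := size_bool_le (decide (x.val < 0))
  have h3 : size (⟨x.val.natAbs⟩ : BN) ≤ 4 * n + 1 := size_BN_le_of_lt h
  simp only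
  omega

theorem natAbs_lt_two_pow_size (x : BZ) : x.val.natAbs < 2 ^ size x := by
  have h1 : size x = size (decide (x.val < 0), (⟨x.val.natAbs⟩ : BN)) := rfl
  have h2 := lt_two_pow_size (⟨x.val.natAbs⟩ : BN)
  rw [h1, size_prod]
  exact h2.trans_le (Nat.pow_le_pow_right (by norm_num) (by simp only; omega))

theorem PT.bzAbs {f : α → BZ} (hf : PT f) : PT (fun a => (⟨(f a).val.natAbs⟩ : BN)) := by
  have h : PT (fun x : BZ => (decide (x.val < 0), (⟨x.val.natAbs⟩ : BN))) :=
    PT.of_enc_eq (fun _ => rfl)
  exact (h.comp hf).snd'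

theorem PT.bzNeg? {f : α → BZ} (hf : PT f) : PT (fun a => decide ((f a).val < 0)) := by
  have h : PT (fun x : BZ => (decide (x.val < 0), (⟨x.val.natAbs⟩ : BN))) :=
    PT.of_enc_eq (fun _ => rfl)
  exact (h.comp hf).fst'

/-- Integer from a sign and an absolute value. -/
theorem PT.bzMk {c : α → Bool} {f : α → BN} (hc : PT c) (hf : PT f) :
    PT (fun a => (⟨if c a then -((f a).val : ℤ) else ((f a).val : ℤ)⟩ : BZ)) := by
  have h1 : PT (fun a => (c a && !decide ((f a).val = 0), f a)) :=
    (PT.and hc (PT.not (PT.bnEq hf (PT.bnConst 0)))).pair hf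
  refine PT.congr_enc h1 (fun a => ?_)
  rw [enc_BZ]
  congr 1
  cases c a
  · simp
  · by_cases h : (f a).val = 0
    · simp [BN.ext' h]
    · have : 0 < (f a).val := Nat.pos_of_ne_zero h
      simp [h, this]

theorem PT.bzOfBN {f : α → BN} (hf : PT f) : PT (fun a => (⟨((f a).val : ℤ)⟩ : BZ)) :=
  (PT.bzMk (PT.const false) hf).congr (fun a => by simp)

theorem PT.bzConst (n : ℤ) : PT (fun _ : α => (⟨n⟩ : BZ)) := PT.const _

theorem PT.bzToBN {f : α → BZ} (hf : PT f) : PT (fun a => (⟨(f a).val.toNat⟩ : BN)) :=
  (PT.cond (PT.bzNeg? hf) (PT.const (⟨0⟩ : BN)) (PT.bzAbs hf)).congr (fun a => by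
    by_cases h : (f a).val < 0
    · simp only [h, decide_true, if_true]
      exact BN.ext' (by simp only; omega)
    · simp only [h, decide_false, Bool.false_eq_true, if_false]
      exact BN.ext' (by simp only; omega))

theorem PT.bzNeg {f : α → BZ} (hf : PT f) : PT (fun a => (⟨-(f a).val⟩ : BZ)) :=
  (PT.bzMk (PT.not (PT.bzNeg? hf)) (PT.bzAbs hf)).congr (fun a => by
    apply BZ.ext'
    simp only
    by_cases h : (f a).val < 0
    · simp only [h, decide_true, Bool.not_true, Bool.false_eq_true, if_false]; omega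
    · simp only [h, decide_false, Bool.not_false, if_true]; omega)

theorem PT.bzAdd {f g : α → BZ} (hf : PT f) (hg : PT g) :
    PT (fun a => (⟨(f a).val + (g a).val⟩ : BZ)) := by
  have cf := PT.bzNeg? hf
  have cg := PT.bzNeg? hg
  have af := PT.bzAbs hf
  have ag := PT.bzAbs hg
  have h1 : PT (fun a => decide (decide ((f a).val < 0) = decide ((g a).val < 0))) := PT.eq cf cg
  have h2 := PT.bzMk cf (PT.bnAdd af ag)
  have h3 := PT.bzMk cf (PT.bnSub af ag)
  have h4 := PT.bzMk cg (PT.bnSub ag af)
  refine (PT.ite (c := fun a => decide ((f a).val < 0) = decide ((g a).val < 0)) h1 h2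
    (PT.ite (c := fun a => (g a).val.natAbs ≤ (f a).val.natAbs) (PT.bnLe ag af) h3 h4)).congr
    (fun a => BZ.ext' ?_)
  by_cases hx : (f a).val < 0 <;> by_cases hy : (g a).val < 0
  · simp only [hx, hy, decide_true, if_true]; omega
  · simp only [hx, hy, decide_true, decide_false, Bool.true_eq_false, if_false, if_true,
      Bool.false_eq_true]
    split_ifs with h <;> simp only <;> omega
  · simp only [hx, hy, decide_true, decide_false, Bool.false_eq_true, if_false, if_true]
    split_ifs with h <;> simp only <;> omega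
  · simp only [hx, hy, decide_false, if_true, Bool.false_eq_true, if_false]; omega

theorem PT.bzSub {f g : α → BZ} (hf : PT f) (hg : PT g) :
    PT (fun a => (⟨(f a).val - (g a).val⟩ : BZ)) :=
  (PT.bzAdd hf (PT.bzNeg hg)).congr (fun _ => BZ.ext' (by simp only; ring))

theorem PT.bzLt {f g : α → BZ} (hf : PT f) (hg : PT g) :
    PT (fun a => decide ((f a).val < (g a).val)) :=
  (PT.bzNeg? (PT.bzSub hf hg)).congr (fun a => by
    simp only [decide_eq_decide]
    omega)

theorem PT.bzLe {f g : α → BZ} (hf : PT f) (hg : PT g) :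
    PT (fun a => decide ((f a).val ≤ (g a).val)) :=
  (PT.not (PT.bzLt hg hf)).congr (fun a => by
    by_cases h : (g a).val < (f a).val
    · simp [h, not_le.mpr h]
    · simp [h, not_lt.mp h])

theorem PT.bzEq {f g : α → BZ} (hf : PT f) (hg : PT g) :
    PT (fun a => decide ((f a).val = (g a).val)) :=
  (PT.eq hf hg).congr (fun a => by
    by_cases h : (f a).val = (g a).val
    · simp [BZ.ext' h]
    · have : f a ≠ g a := fun h' => h (by rw [h'])
      simp [h, this])

theorem PT.bzMax {f g : α → BZ} (hf : PT f) (hg : PT g) :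
    PT (fun a => (⟨max (f a).val (g a).val⟩ : BZ)) :=
  (PT.ite (c := fun a => (f a).val ≤ (g a).val) (PT.bzLe hf hg) hg hf).congr (fun a => by
    split_ifs with h
    · exact BZ.ext' (by simp [h])
    · exact BZ.ext' (by simp; omega))

theorem PT.bzMin {f g : α → BZ} (hf : PT f) (hg : PT g) :
    PT (fun a => (⟨min (f a).val (g a).val⟩ : BZ)) :=
  (PT.ite (c := fun a => (f a).val ≤ (g a).val) (PT.bzLe hf hg) hf hg).congr (fun a => by
    split_ifs with h
    · exact BZ.ext' (by simp [h])
    · exact BZ.ext' (by simp; omega))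

theorem PT.bzMul {f g : α → BZ} (hf : PT f) (hg : PT g) :
    PT (fun a => (⟨(f a).val * (g a).val⟩ : BZ)) := by
  have cf := PT.bzNeg? hf
  have cg := PT.bzNeg? hg
  have hx : PT (fun a => xor (decide ((f a).val < 0)) (decide ((g a).val < 0))) := by
    have : PT (fun x : Bool × Bool => xor x.1 x.2) := PT.ofFintype _
    exact this.comp (cf.pair cg)
  refine (PT.bzMk hx (PT.bnMul (PT.bzAbs hf) (PT.bzAbs hg))).congr (fun a => BZ.ext' ?_)
  simp only
  have h3 : (((f a).val.natAbs * (g a).val.natAbs : ℕ) : ℤ) = |(f a).val| * |(g a).val| := by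
    push_cast; rfl
  rw [h3]
  by_cases hx : (f a).val < 0 <;> by_cases hy : (g a).val < 0
  · simp [hx, hy, abs_of_neg hx, abs_of_neg hy]
  · simp [hx, hy, abs_of_neg hx, abs_of_nonneg (not_lt.mp hy)]
  · simp [hx, hy, abs_of_neg hy, abs_of_nonneg (not_lt.mp hx)]
  · simp [hx, hy, abs_of_nonneg (not_lt.mp hy), abs_of_nonneg (not_lt.mp hx)]

/-- Folds with an integer accumulator of polynomially bounded length. -/
theorem PT.bzFoldl {f : α → List β} {init : α → BZ} {step : α → BZ → β → BZ} (hf : PT f)
    (hi : PT init) (hs : PT (fun x : α × (BZ × β) => step x.1 x.2.1 x.2.2))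
    {B : ℕ → ℕ} (hBp : PB B)
    (hB : ∀ (a : α) (l' : List β), l' <+: f a →
      (l'.foldl (step a) (init a)).val.natAbs < 2 ^ B (size a)) :
    PT (fun a => (f a).foldl (step a) (init a)) :=
  PT.foldl hf hi hs (B := fun n => 4 * B n + 5) (((PB.const 4).mul hBp).add (PB.const 5))
    (fun a l' hl' => size_BZ_le_of_lt (hB a l' hl'))

end Pool.Agent.Lib.PolyTime
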