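import Pool.Agent.Lib.PolyTime.Core
import Mathlib.Data.Fintype.Sum
import Mathlib.Data.Fintype.Prod
import Mathlib.Data.Fintype.Option
import Mathlib.Data.Finset.Lattice.Fold

/-!
# Composition of polynomial time Turing machines

This proves the statement marked `proof_wanted` in
`Mathlib.Computability.TuringMachine.Computable`.
-/

namespace Pool.Agent.Lib.PolyTime

open Function Turing StateTransition

/-! ### Growth of stacks -/

section growth

variable {K : Type} [DecidableEq K] {Γ : K → Type} {Λ σ : Type}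

/-- The number of pushes of a statement. -/
def pushes : TM2.Stmt Γ Λ σ → ℕ
  | .push _ _ q => pushes q + 1
  | .peek _ _ q => pushes q
  | .pop _ _ q => pushes q
  | .load _ q => pushes q
  | .branch _ q₁ q₂ => pushes q₁ + pushes q₂
  | .goto _ => 0
  | .halt => 0

theorem length_stepAux (q : TM2.Stmt Γ Λ σ) (v : σ) (S : ∀ k, List (Γ k)) (k : K) :
    ((TM2.stepAux q v S).stk k).length ≤ (S k).length + pushes q := by
  induction q generalizing v S with
  | push k' f q ih =>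
    simp only [TM2.stepAux, pushes]
    refine (ih _ _).trans ?_
    by_cases h : k = k'
    · subst h; rw [update_self, List.length_cons]; omega
    · rw [update_of_ne h]; omega
  | peek k' f q ih => simp only [TM2.stepAux, pushes]; exact ih _ _
  | pop k' f q ih =>
    simp only [TM2.stepAux, pushes]
    refine (ih _ _).trans ?_
    by_cases h : k = k'
    · subst h; rw [update_self, List.length_tail]; omega
    · rw [update_of_ne h]
  | load a q ih => simp only [TM2.stepAux, pushes]; exact ih _ _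
  | branch f q₁ q₂ ih1 ih2 =>
    simp only [TM2.stepAux, pushes]
    cases f v
    · exact (ih2 v S).trans (by omega)
    · exact (ih1 v S).trans (by omega)
  | goto f => simp only [TM2.stepAux, pushes]; omega
  | halt => simp only [TM2.stepAux, pushes]; omega

theorem stepsTo_succ {σ : Type*} {f : σ → Option σ} {a b : σ} {n : ℕ} :
    StepsTo f a b (n + 1) ↔ ∃ c, f a = some c ∧ StepsTo f c b n := by
  unfold StepsTo
  rw [iterate_succ_apply]
  have h1 : flip bind f (some a) = f a := rfl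
  rw [h1]
  cases hfa : f a with
  | none =>
    constructor
    · intro h
      exfalso
      have : ∀ m, (flip bind f)^[m] (none : Option σ) = none := by
        intro m
        induction m with
        | zero => rfl
        | succ m ih => rw [iterate_succ_apply]; exact ih
      rw [this] at h
      cases h
    · rintro ⟨c, h, _⟩; cases h
  | some c =>
    constructor
    · intro h; exact ⟨c, rfl, h⟩
    · rintro ⟨c', h, h'⟩
      obtain rfl := Option.some.inj h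
      exact h'

theorem stepsTo_length {M : Λ → TM2.Stmt Γ Λ σ} {c : ℕ} (hc : ∀ l, pushes (M l) ≤ c) (k : K) :
    ∀ (n : ℕ) (a b : TM2.Cfg Γ Λ σ), StepsTo (TM2.step M) a b n →
      (b.stk k).length ≤ (a.stk k).length + n * c := by
  intro n
  induction n with
  | zero =>
    intro a b h
    obtain rfl := Option.some.inj h
    omega
  | succ n ih =>
    intro a b h
    obtain ⟨d, h1, h2⟩ := stepsTo_succ.mp h
    have h3 := ih d b h2
    have h4 : (d.stk k).length ≤ (a.stk k).length + c := by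
      rcases a with ⟨_ | l, v, S⟩
      · cases h1
      · simp only [TM2.step, Option.some.injEq] at h1
        subst h1
        exact (length_stepAux _ _ _ _).trans (Nat.add_le_add_left (hc l) _)
    rw [Nat.succ_mul]
    omega

end growth

/-! ### The composed machine -/

section comp

variable (M₁ M₂ : FinTM2)

/-- The alphabets of the composed machine. -/
def cΓ : M₁.K ⊕ (M₂.K ⊕ Unit) → Type
  | Sum.inl k => M₁.Γ k
  | Sum.inr (Sum.inl k) => M₂.Γ k
  | Sum.inr (Sum.inr _) => M₂.Γ M₂.k₀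

/-- The labels of the composed machine. -/
abbrev cΛ : Type := M₁.Λ ⊕ (M₂.Λ ⊕ Bool)

/-- The states of the composed machine. -/
abbrev cσ : Type := M₁.σ × (M₂.σ × Option (M₂.Γ M₂.k₀))

/-- Translation of the statements of the first machine. -/
def map₁ : TM2.Stmt M₁.Γ M₁.Λ M₁.σ → TM2.Stmt (cΓ M₁ M₂) (cΛ M₁ M₂) (cσ M₁ M₂)
  | .push k f q => .push (Sum.inl k) (fun v => f v.1) (map₁ q)
  | .peek k f q => .peek (Sum.inl k) (fun v o => (f v.1 o, v.2)) (map₁ q)
  | .pop k f q => .pop (Sum.inl k) (fun v o => (f v.1 o, v.2)) (map₁ q)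
  | .load a q => .load (fun v => (a v.1, v.2)) (map₁ q)
  | .branch f q₁ q₂ => .branch (fun v => f v.1) (map₁ q₁) (map₁ q₂)
  | .goto l => .goto (fun v => Sum.inl (l v.1))
  | .halt => .goto (fun _ => Sum.inr (Sum.inr false))

/-- Translation of the statements of the second machine. -/
def map₂ : TM2.Stmt M₂.Γ M₂.Λ M₂.σ → TM2.Stmt (cΓ M₁ M₂) (cΛ M₁ M₂) (cσ M₁ M₂)
  | .push k f q => .push (Sum.inr (Sum.inl k)) (fun v => f v.2.1) (map₂ q)
  | .peek k f q => .peek (Sum.inr (Sum.inl k)) (fun v o => (v.1, (f v.2.1 o, v.2.2))) (map₂ q)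
  | .pop k f q => .pop (Sum.inr (Sum.inl k)) (fun v o => (v.1, (f v.2.1 o, v.2.2))) (map₂ q)
  | .load a q => .load (fun v => (v.1, (a v.2.1, v.2.2))) (map₂ q)
  | .branch f q₁ q₂ => .branch (fun v => f v.2.1) (map₂ q₁) (map₂ q₂)
  | .goto l => .goto (fun v => Sum.inr (Sum.inl (l v.2.1)))
  | .halt => .halt

open Classical in
/-- The composed machine. -/
noncomputable def compTM (e : M₁.Γ M₁.k₁ → M₂.Γ M₂.k₀) : FinTM2 where
  K := M₁.K ⊕ (M₂.K ⊕ Unit)
  kDecidableEq := by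
    letI := M₁.kDecidableEq
    letI := M₂.kDecidableEq
    infer_instance
  kFin := by
    let _ := M₁.kFin
    let _ := M₂.kFin
    infer_instance
  k₀ := Sum.inl M₁.k₀
  k₁ := Sum.inr (Sum.inl M₂.k₁)
  Γ := cΓ M₁ M₂
  Λ := cΛ M₁ M₂
  main := Sum.inl M₁.main
  ΛFin := by
    let _ := M₁.ΛFin
    let _ := M₂.ΛFin
    infer_instance
  σ := cσ M₁ M₂
  initialState := (M₁.initialState, (M₂.initialState, none))
  σFin := by
    let _ := M₁.σFin
    let _ := M₂.σFin
    let _ := M₂.Γk₀Fin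
    infer_instance
  Γk₀Fin := M₁.Γk₀Fin
  m
    | Sum.inl l => map₁ M₁ M₂ (M₁.m l)
    | Sum.inr (Sum.inl l) => map₂ M₁ M₂ (M₂.m l)
    | Sum.inr (Sum.inr false) =>
      if h : Nonempty (M₂.Γ M₂.k₀) then
        .pop (Sum.inl M₁.k₁) (fun v o => (v.1, (v.2.1, Option.map e o)))
          (.branch (fun v => v.2.2.isSome)
            (.push (Sum.inr (Sum.inr ())) (fun v => v.2.2.getD h.some)
              (.goto fun _ => Sum.inr (Sum.inr false)))
            (.goto fun _ => Sum.inr (Sum.inr true)))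
      else .goto fun _ => Sum.inr (Sum.inr true)
    | Sum.inr (Sum.inr true) =>
      if h : Nonempty (M₂.Γ M₂.k₀) then
        .pop (Sum.inr (Sum.inr ())) (fun v o => (v.1, (v.2.1, o)))
          (.branch (fun v => v.2.2.isSome)
            (.push (Sum.inr (Sum.inl M₂.k₀)) (fun v => v.2.2.getD h.some)
              (.goto fun _ => Sum.inr (Sum.inr true)))
            (.goto fun _ => Sum.inr (Sum.inl M₂.main)))
      else .goto fun _ => Sum.inr (Sum.inl M₂.main)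

/-- Joint stacks. -/
def join (S₁ : ∀ k, List (M₁.Γ k)) (S₂ : ∀ k, List (M₂.Γ k)) (w : List (M₂.Γ M₂.k₀)) :
    ∀ k, List (cΓ M₁ M₂ k)
  | Sum.inl k => S₁ k
  | Sum.inr (Sum.inl k) => S₂ k
  | Sum.inr (Sum.inr _) => w

variable {M₁ M₂}

theorem update_join₁ (S₁ : ∀ k, List (M₁.Γ k)) (S₂ : ∀ k, List (M₂.Γ k))
    (w : List (M₂.Γ M₂.k₀)) (k : M₁.K) (x : List (M₁.Γ k))
    [inst : DecidableEq (M₁.K ⊕ (M₂.K ⊕ Unit))] :
    @update _ _ inst (join M₁ M₂ S₁ S₂ w) (Sum.inl k) x =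
      join M₁ M₂ (@update _ _ M₁.kDecidableEq S₁ k x) S₂ w := by
  let _ := M₁.kDecidableEq
  funext k'
  rcases k' with k' | k' | k'
  · by_cases h : k' = k
    · subst h; simp [join]
    · simp [join, h]
  · simp [join]
  · simp [join]

theorem update_join₂ (S₁ : ∀ k, List (M₁.Γ k)) (S₂ : ∀ k, List (M₂.Γ k))
    (w : List (M₂.Γ M₂.k₀)) (k : M₂.K) (x : List (M₂.Γ k))
    [inst : DecidableEq (M₁.K ⊕ (M₂.K ⊕ Unit))] :
    @update _ _ inst (join M₁ M₂ S₁ S₂ w) (Sum.inr (Sum.inl k)) x =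
      join M₁ M₂ S₁ (@update _ _ M₂.kDecidableEq S₂ k x) w := by
  let _ := M₂.kDecidableEq
  funext k'
  rcases k' with k' | k' | k'
  · simp [join]
  · by_cases h : k' = k
    · subst h; simp [join]
    · simp [join, h]
  · simp [join]

theorem update_join₃ (S₁ : ∀ k, List (M₁.Γ k)) (S₂ : ∀ k, List (M₂.Γ k))
    (w x : List (M₂.Γ M₂.k₀)) [inst : DecidableEq (M₁.K ⊕ (M₂.K ⊕ Unit))] :
    @update _ _ inst (join M₁ M₂ S₁ S₂ w) (Sum.inr (Sum.inr ())) x =
      join M₁ M₂ S₁ S₂ x := by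
  funext k'
  rcases k' with k' | k' | k'
  · simp [join]
  · simp [join]
  · cases k'; simp [join]

/-- Embedding of the configurations of the first machine. -/
def emb₁ (v₂ : M₂.σ) (o : Option (M₂.Γ M₂.k₀)) (S₂ : ∀ k, List (M₂.Γ k)) (w : List (M₂.Γ M₂.k₀))
    (c : TM2.Cfg M₁.Γ M₁.Λ M₁.σ) : TM2.Cfg (cΓ M₁ M₂) (cΛ M₁ M₂) (cσ M₁ M₂) where
  l := some (match c.l with
    | some l => Sum.inl l
    | none => Sum.inr (Sum.inr false))
  var := (c.var, (v₂, o))
  stk := join M₁ M₂ c.stk S₂ w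

/-- Embedding of the configurations of the second machine. -/
def emb₂ (v₁ : M₁.σ) (o : Option (M₂.Γ M₂.k₀)) (S₁ : ∀ k, List (M₁.Γ k)) (w : List (M₂.Γ M₂.k₀))
    (c : TM2.Cfg M₂.Γ M₂.Λ M₂.σ) : TM2.Cfg (cΓ M₁ M₂) (cΛ M₁ M₂) (cσ M₁ M₂) where
  l := c.l.map (fun l => Sum.inr (Sum.inl l))
  var := (v₁, (c.var, o))
  stk := join M₁ M₂ S₁ c.stk w

theorem stepAux_map₁ [inst : DecidableEq (M₁.K ⊕ (M₂.K ⊕ Unit))] (v₂ : M₂.σ)
    (o : Option (M₂.Γ M₂.k₀)) (S₂ : ∀ k, List (M₂.Γ k)) (w : List (M₂.Γ M₂.k₀))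
    (q : TM2.Stmt M₁.Γ M₁.Λ M₁.σ) (v : M₁.σ) (S : ∀ k, List (M₁.Γ k)) :
    @TM2.stepAux _ _ _ _ inst (map₁ M₁ M₂ q) (v, (v₂, o)) (join M₁ M₂ S S₂ w) =
      emb₁ v₂ o S₂ w (@TM2.stepAux _ _ _ _ M₁.kDecidableEq q v S) := by
  induction q generalizing v S with
  | push k f q ih =>
    simp only [map₁, TM2.stepAux]
    rw [← ih]
    congr 1
    exact update_join₁ _ _ _ _ _
  | peek k f q ih => simp only [map₁, TM2.stepAux]; rw [← ih]; rfl
  | pop k f q ih =>
    simp only [map₁, TM2.stepAux]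
    rw [← ih]
    congr 1
    exact update_join₁ _ _ _ _ _
  | load a q ih => simp only [map₁, TM2.stepAux]; rw [← ih]
  | branch f q₁ q₂ ih1 ih2 =>
    simp only [map₁, TM2.stepAux]
    cases f v
    · exact ih2 v S
    · exact ih1 v S
  | goto f => rfl
  | halt => rfl

theorem stepAux_map₂ [inst : DecidableEq (M₁.K ⊕ (M₂.K ⊕ Unit))] (v₁ : M₁.σ)
    (o : Option (M₂.Γ M₂.k₀)) (S₁ : ∀ k, List (M₁.Γ k)) (w : List (M₂.Γ M₂.k₀))
    (q : TM2.Stmt M₂.Γ M₂.Λ M₂.σ) (v : M₂.σ) (S : ∀ k, List (M₂.Γ k)) :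
    @TM2.stepAux _ _ _ _ inst (map₂ M₁ M₂ q) (v₁, (v, o)) (join M₁ M₂ S₁ S w) =
      emb₂ v₁ o S₁ w (@TM2.stepAux _ _ _ _ M₂.kDecidableEq q v S) := by
  induction q generalizing v S with
  | push k f q ih =>
    simp only [map₂, TM2.stepAux]
    rw [← ih]
    congr 1
    exact update_join₂ _ _ _ _ _
  | peek k f q ih => simp only [map₂, TM2.stepAux]; rw [← ih]; rfl
  | pop k f q ih =>
    simp only [map₂, TM2.stepAux]
    rw [← ih]
    congr 1
    exact update_join₂ _ _ _ _ _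
  | load a q ih => simp only [map₂, TM2.stepAux]; rw [← ih]
  | branch f q₁ q₂ ih1 ih2 =>
    simp only [map₂, TM2.stepAux]
    cases f v
    · exact ih2 v S
    · exact ih1 v S
  | goto f => rfl
  | halt => rfl

theorem stepsTo_emb₁ (e : M₁.Γ M₁.k₁ → M₂.Γ M₂.k₀) (v₂ : M₂.σ) (o : Option (M₂.Γ M₂.k₀))
    (S₂ : ∀ k, List (M₂.Γ k)) (w : List (M₂.Γ M₂.k₀)) : ∀ (n : ℕ) (a b : M₁.Cfg),
    StepsTo M₁.step a b n →
    StepsTo (compTM M₁ M₂ e).step (emb₁ v₂ o S₂ w a) (emb₁ v₂ o S₂ w b) n := by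
  intro n
  induction n with
  | zero =>
    intro a b h
    obtain rfl := Option.some.inj h
    rfl
  | succ n ih =>
    intro a b h
    obtain ⟨c, h1, h2⟩ := stepsTo_succ.mp h
    refine stepsTo_succ.mpr ⟨emb₁ v₂ o S₂ w c, ?_, ih c b h2⟩
    rcases a with ⟨_ | l, v, S⟩
    · cases h1
    · have h1' : c = @TM2.stepAux _ _ _ _ M₁.kDecidableEq (M₁.m l) v S :=
        (Option.some.inj h1).symm
      rw [h1', ← stepAux_map₁ (inst := (compTM M₁ M₂ e).kDecidableEq)]
      rfl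

theorem stepsTo_emb₂ (e : M₁.Γ M₁.k₁ → M₂.Γ M₂.k₀) (v₁ : M₁.σ) (o : Option (M₂.Γ M₂.k₀))
    (S₁ : ∀ k, List (M₁.Γ k)) (w : List (M₂.Γ M₂.k₀)) : ∀ (n : ℕ) (a b : M₂.Cfg),
    StepsTo M₂.step a b n →
    StepsTo (compTM M₁ M₂ e).step (emb₂ v₁ o S₁ w a) (emb₂ v₁ o S₁ w b) n := by
  intro n
  induction n with
  | zero =>
    intro a b h
    obtain rfl := Option.some.inj h
    rfl
  | succ n ih =>
    intro a b h
    obtain ⟨c, h1, h2⟩ := stepsTo_succ.mp h
    refine stepsTo_succ.mpr ⟨emb₂ v₁ o S₁ w c, ?_, ih c b h2⟩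
    rcases a with ⟨_ | l, v, S⟩
    · cases h1
    · have h1' : c = @TM2.stepAux _ _ _ _ M₂.kDecidableEq (M₂.m l) v S :=
        (Option.some.inj h1).symm
      rw [h1', ← stepAux_map₂ (inst := (compTM M₁ M₂ e).kDecidableEq)]
      rfl

theorem upd_helper {K : Type} {Γ' : K → Type} [DecidableEq K] {J J' : ∀ k, List (Γ' k)} (k : K)
    (f : (∀ k, List (Γ' k)) → List (Γ' k)) (h : J = J') :
    update J k (f J) = update J' k (f J') := by rw [h]

theorem step_move₁_nil (e : M₁.Γ M₁.k₁ → M₂.Γ M₂.k₀) (v₁ : M₁.σ) (v₂ : M₂.σ)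
    (S₁ : ∀ k, List (M₁.Γ k)) (S₂ : ∀ k, List (M₂.Γ k)) (o : Option (M₂.Γ M₂.k₀))
    (ho : ¬ Nonempty (M₂.Γ M₂.k₀) → o = none) (w : List (M₂.Γ M₂.k₀)) (hS : S₁ M₁.k₁ = []) :
    (compTM M₁ M₂ e).step
      ⟨some (Sum.inr (Sum.inr false)), (v₁, (v₂, o)), join M₁ M₂ S₁ S₂ w⟩ =
      some ⟨some (Sum.inr (Sum.inr true)), (v₁, (v₂, none)), join M₁ M₂ S₁ S₂ w⟩ := by
  let _ := M₁.kDecidableEq
  have hu : update S₁ M₁.k₁ [] = S₁ := by rw [← hS, update_eq_self]
  have e2 := update_join₁ (M₁ := M₁) (M₂ := M₂) S₁ S₂ w M₁.k₁ []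
        (inst := (compTM M₁ M₂ e).kDecidableEq)
  rw [hu] at e2
  by_cases h : Nonempty (M₂.Γ M₂.k₀)
  · have hm : (compTM M₁ M₂ e).m (Sum.inr (Sum.inr false)) =
        .pop (Sum.inl M₁.k₁) (fun v o => (v.1, (v.2.1, Option.map e o)))
          (.branch (fun v => v.2.2.isSome)
            (.push (Sum.inr (Sum.inr ())) (fun v => v.2.2.getD h.some)
              (.goto fun _ => Sum.inr (Sum.inr false)))
            (.goto fun _ => Sum.inr (Sum.inr true))) := dif_pos h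
    have hst : (compTM M₁ M₂ e).step
      ⟨some (Sum.inr (Sum.inr false)), (v₁, (v₂, o)), join M₁ M₂ S₁ S₂ w⟩ =
      some (TM2.stepAux ((compTM M₁ M₂ e).m (Sum.inr (Sum.inr false))) (v₁, (v₂, o))
        (join M₁ M₂ S₁ S₂ w)) := rfl
    rw [hst, hm]
    refine congrArg some ?_
    have hj : (join M₁ M₂ S₁ S₂ w (Sum.inl M₁.k₁)) = [] := hS
    have : ∀ (x : List (M₁.Γ M₁.k₁)) (J : ∀ k, List (cΓ M₁ M₂ k)), x = [] →
        TM2.stepAux (.branch (fun v => v.2.2.isSome)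
            (.push (Sum.inr (Sum.inr ())) (fun v => v.2.2.getD h.some)
              (.goto fun _ => Sum.inr (Sum.inr false)))
            (.goto fun _ => Sum.inr (Sum.inr true)) : TM2.Stmt (cΓ M₁ M₂) (cΛ M₁ M₂)
              (cσ M₁ M₂)) (v₁, (v₂, Option.map e x.head?)) J =
          ⟨some (Sum.inr (Sum.inr true)), (v₁, (v₂, none)), J⟩ := by
      rintro x J rfl
      rfl
    refine (this (join M₁ M₂ S₁ S₂ w (Sum.inl M₁.k₁)) _ hj).trans ?_
    congr 1
    rw [hj]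
    exact e2
  · have hm : (compTM M₁ M₂ e).m (Sum.inr (Sum.inr false)) =
        .goto fun _ => Sum.inr (Sum.inr true) := dif_neg h
    have hst : (compTM M₁ M₂ e).step
      ⟨some (Sum.inr (Sum.inr false)), (v₁, (v₂, o)), join M₁ M₂ S₁ S₂ w⟩ =
      some (TM2.stepAux ((compTM M₁ M₂ e).m (Sum.inr (Sum.inr false))) (v₁, (v₂, o))
        (join M₁ M₂ S₁ S₂ w)) := rfl
    rw [hst, hm, ho h]
    rfl

theorem step_move₁_cons (e : M₁.Γ M₁.k₁ → M₂.Γ M₂.k₀) (v₁ : M₁.σ) (v₂ : M₂.σ)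
    (S₁ : ∀ k, List (M₁.Γ k)) (S₂ : ∀ k, List (M₂.Γ k)) (o : Option (M₂.Γ M₂.k₀))
    (w : List (M₂.Γ M₂.k₀)) (x : M₁.Γ M₁.k₁) (u : List (M₁.Γ M₁.k₁)) (hS : S₁ M₁.k₁ = x :: u) :
    (compTM M₁ M₂ e).step
      ⟨some (Sum.inr (Sum.inr false)), (v₁, (v₂, o)), join M₁ M₂ S₁ S₂ w⟩ =
      some ⟨some (Sum.inr (Sum.inr false)), (v₁, (v₂, some (e x))),
        join M₁ M₂ (@update _ _ M₁.kDecidableEq S₁ M₁.k₁ u) S₂ (e x :: w)⟩ := by
  let _ := M₁.kDecidableEq
  have h : Nonempty (M₂.Γ M₂.k₀) := ⟨e x⟩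
  have e2 := update_join₁ (M₁ := M₁) (M₂ := M₂) S₁ S₂ w M₁.k₁ u
      (inst := (compTM M₁ M₂ e).kDecidableEq)
  have e3 := update_join₃ (M₁ := M₁) (M₂ := M₂) (update S₁ M₁.k₁ u) S₂ w (e x :: w)
      (inst := (compTM M₁ M₂ e).kDecidableEq)
  have hm : (compTM M₁ M₂ e).m (Sum.inr (Sum.inr false)) =
        .pop (Sum.inl M₁.k₁) (fun v o => (v.1, (v.2.1, Option.map e o)))
          (.branch (fun v => v.2.2.isSome)
            (.push (Sum.inr (Sum.inr ())) (fun v => v.2.2.getD h.some)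
              (.goto fun _ => Sum.inr (Sum.inr false)))
            (.goto fun _ => Sum.inr (Sum.inr true))) := dif_pos h
  have hst : (compTM M₁ M₂ e).step
      ⟨some (Sum.inr (Sum.inr false)), (v₁, (v₂, o)), join M₁ M₂ S₁ S₂ w⟩ =
      some (TM2.stepAux ((compTM M₁ M₂ e).m (Sum.inr (Sum.inr false))) (v₁, (v₂, o))
        (join M₁ M₂ S₁ S₂ w)) := rfl
  rw [hst, hm]
  refine congrArg some ?_
  have hj : (join M₁ M₂ S₁ S₂ w (Sum.inl M₁.k₁)) = x :: u := hS
  have key : ∀ (y : List (M₁.Γ M₁.k₁)) (J : ∀ k, List (cΓ M₁ M₂ k)), y = x :: u →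
      @TM2.stepAux _ _ _ _ (compTM M₁ M₂ e).kDecidableEq (.branch (fun v => v.2.2.isSome)
          (.push (Sum.inr (Sum.inr ())) (fun v => v.2.2.getD h.some)
            (.goto fun _ => Sum.inr (Sum.inr false)))
          (.goto fun _ => Sum.inr (Sum.inr true)) : TM2.Stmt (cΓ M₁ M₂) (cΛ M₁ M₂)
            (cσ M₁ M₂)) (v₁, (v₂, Option.map e y.head?)) J =
        ⟨some (Sum.inr (Sum.inr false)), (v₁, (v₂, some (e x))),
          @update _ _ (compTM M₁ M₂ e).kDecidableEq J (Sum.inr (Sum.inr ()))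
            (e x :: J (Sum.inr (Sum.inr ())))⟩ := by
    rintro y J rfl
    rfl
  refine (key (join M₁ M₂ S₁ S₂ w (Sum.inl M₁.k₁)) _ hj).trans ?_
  congr 1
  rw [hj]
  have e4 : @update _ _ (compTM M₁ M₂ e).kDecidableEq (join M₁ M₂ S₁ S₂ w) (Sum.inl M₁.k₁)
      (x :: u).tail = join M₁ M₂ (update S₁ M₁.k₁ u) S₂ w := e2
  exact (@upd_helper _ (cΓ M₁ M₂) (compTM M₁ M₂ e).kDecidableEq _ _ (Sum.inr (Sum.inr ()))
    (fun J => e x :: J (Sum.inr (Sum.inr ()))) e4).trans e3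

/-- The first transfer loop. -/
theorem stepsTo_move₁ (e : M₁.Γ M₁.k₁ → M₂.Γ M₂.k₀) (v₁ : M₁.σ) (v₂ : M₂.σ)
    (S₂ : ∀ k, List (M₂.Γ k)) : ∀ (u : List (M₁.Γ M₁.k₁)) (o : Option (M₂.Γ M₂.k₀))
    (_ : ¬ Nonempty (M₂.Γ M₂.k₀) → o = none)
    (S₁ : ∀ k, List (M₁.Γ k)) (w : List (M₂.Γ M₂.k₀)), S₁ M₁.k₁ = u →
    StepsTo (compTM M₁ M₂ e).step
      ⟨some (Sum.inr (Sum.inr false)), (v₁, (v₂, o)), join M₁ M₂ S₁ S₂ w⟩
      ⟨some (Sum.inr (Sum.inr true)), (v₁, (v₂, none)),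
        join M₁ M₂ (@update _ _ M₁.kDecidableEq S₁ M₁.k₁ []) S₂ ((u.map e).reverse ++ w)⟩
      (u.length + 1) := by
  let _ := M₁.kDecidableEq
  intro u
  induction u with
  | nil =>
    intro o ho S₁ w hS
    have hu : update S₁ M₁.k₁ [] = S₁ := by rw [← hS, update_eq_self]
    rw [hu]
    exact StepsTo.single (step_move₁_nil e v₁ v₂ S₁ S₂ o ho w hS)
  | cons x u ih =>
    intro o ho S₁ w hS
    have h : Nonempty (M₂.Γ M₂.k₀) := ⟨e x⟩
    have h2 := ih (some (e x)) (fun hn => (hn h).elim) (update S₁ M₁.k₁ u) (e x :: w) (by simp)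
    have e1 : (join M₁ M₂ (update (update S₁ M₁.k₁ u) M₁.k₁ []) S₂
        ((u.map e).reverse ++ (e x :: w))) = join M₁ M₂ (update S₁ M₁.k₁ []) S₂
        (((x :: u).map e).reverse ++ w) := by
      rw [update_idem]; simp
    rw [e1] at h2
    exact stepsTo_succ.mpr ⟨_, step_move₁_cons e v₁ v₂ S₁ S₂ o w x u hS, h2⟩

theorem step_move₂_nil (e : M₁.Γ M₁.k₁ → M₂.Γ M₂.k₀) (v₁ : M₁.σ) (v₂ : M₂.σ)
    (S₁ : ∀ k, List (M₁.Γ k)) (S₂ : ∀ k, List (M₂.Γ k)) (o : Option (M₂.Γ M₂.k₀))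
    (ho : ¬ Nonempty (M₂.Γ M₂.k₀) → o = none) :
    (compTM M₁ M₂ e).step
      ⟨some (Sum.inr (Sum.inr true)), (v₁, (v₂, o)), join M₁ M₂ S₁ S₂ []⟩ =
      some ⟨some (Sum.inr (Sum.inl M₂.main)), (v₁, (v₂, none)), join M₁ M₂ S₁ S₂ []⟩ := by
  have e2 := update_join₃ (M₁ := M₁) (M₂ := M₂) S₁ S₂ [] []
        (inst := (compTM M₁ M₂ e).kDecidableEq)
  by_cases h : Nonempty (M₂.Γ M₂.k₀)
  · have hm : (compTM M₁ M₂ e).m (Sum.inr (Sum.inr true)) =
        .pop (Sum.inr (Sum.inr ())) (fun v o => (v.1, (v.2.1, o)))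
          (.branch (fun v => v.2.2.isSome)
            (.push (Sum.inr (Sum.inl M₂.k₀)) (fun v => v.2.2.getD h.some)
              (.goto fun _ => Sum.inr (Sum.inr true)))
            (.goto fun _ => Sum.inr (Sum.inl M₂.main))) := dif_pos h
    have hst : (compTM M₁ M₂ e).step
      ⟨some (Sum.inr (Sum.inr true)), (v₁, (v₂, o)), join M₁ M₂ S₁ S₂ []⟩ =
      some (TM2.stepAux ((compTM M₁ M₂ e).m (Sum.inr (Sum.inr true))) (v₁, (v₂, o))
        (join M₁ M₂ S₁ S₂ [])) := rfl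
    rw [hst, hm]
    refine congrArg some ?_
    have : ∀ (x : List (M₂.Γ M₂.k₀)) (J : ∀ k, List (cΓ M₁ M₂ k)), x = [] →
        TM2.stepAux (.branch (fun v => v.2.2.isSome)
            (.push (Sum.inr (Sum.inl M₂.k₀)) (fun v => v.2.2.getD h.some)
              (.goto fun _ => Sum.inr (Sum.inr true)))
            (.goto fun _ => Sum.inr (Sum.inl M₂.main)) : TM2.Stmt (cΓ M₁ M₂) (cΛ M₁ M₂)
              (cσ M₁ M₂)) (v₁, (v₂, x.head?)) J =
          ⟨some (Sum.inr (Sum.inl M₂.main)), (v₁, (v₂, none)), J⟩ := by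
      rintro x J rfl
      rfl
    refine (this (join M₁ M₂ S₁ S₂ [] (Sum.inr (Sum.inr ()))) _ rfl).trans ?_
    congr 1
  · have hm : (compTM M₁ M₂ e).m (Sum.inr (Sum.inr true)) =
        .goto fun _ => Sum.inr (Sum.inl M₂.main) := dif_neg h
    have hst : (compTM M₁ M₂ e).step
      ⟨some (Sum.inr (Sum.inr true)), (v₁, (v₂, o)), join M₁ M₂ S₁ S₂ []⟩ =
      some (TM2.stepAux ((compTM M₁ M₂ e).m (Sum.inr (Sum.inr true))) (v₁, (v₂, o))
        (join M₁ M₂ S₁ S₂ [])) := rfl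
    rw [hst, hm, ho h]
    rfl

theorem step_move₂_cons (e : M₁.Γ M₁.k₁ → M₂.Γ M₂.k₀) (v₁ : M₁.σ) (v₂ : M₂.σ)
    (S₁ : ∀ k, List (M₁.Γ k)) (S₂ : ∀ k, List (M₂.Γ k)) (o : Option (M₂.Γ M₂.k₀))
    (x : M₂.Γ M₂.k₀) (w : List (M₂.Γ M₂.k₀)) :
    (compTM M₁ M₂ e).step
      ⟨some (Sum.inr (Sum.inr true)), (v₁, (v₂, o)), join M₁ M₂ S₁ S₂ (x :: w)⟩ =
      some ⟨some (Sum.inr (Sum.inr true)), (v₁, (v₂, some x)),
        join M₁ M₂ S₁ (@update _ _ M₂.kDecidableEq S₂ M₂.k₀ (x :: S₂ M₂.k₀)) w⟩ := by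
  let _ := M₂.kDecidableEq
  have h : Nonempty (M₂.Γ M₂.k₀) := ⟨x⟩
  have e2 := update_join₂ (M₁ := M₁) (M₂ := M₂) S₁ S₂ w M₂.k₀ (x :: S₂ M₂.k₀)
      (inst := (compTM M₁ M₂ e).kDecidableEq)
  have e3 := update_join₃ (M₁ := M₁) (M₂ := M₂) S₁ S₂ (x :: w) w
      (inst := (compTM M₁ M₂ e).kDecidableEq)
  have hm : (compTM M₁ M₂ e).m (Sum.inr (Sum.inr true)) =
        .pop (Sum.inr (Sum.inr ())) (fun v o => (v.1, (v.2.1, o)))
          (.branch (fun v => v.2.2.isSome)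
            (.push (Sum.inr (Sum.inl M₂.k₀)) (fun v => v.2.2.getD h.some)
              (.goto fun _ => Sum.inr (Sum.inr true)))
            (.goto fun _ => Sum.inr (Sum.inl M₂.main))) := dif_pos h
  have hst : (compTM M₁ M₂ e).step
      ⟨some (Sum.inr (Sum.inr true)), (v₁, (v₂, o)), join M₁ M₂ S₁ S₂ (x :: w)⟩ =
      some (TM2.stepAux ((compTM M₁ M₂ e).m (Sum.inr (Sum.inr true))) (v₁, (v₂, o))
        (join M₁ M₂ S₁ S₂ (x :: w))) := rfl
  rw [hst, hm]
  refine congrArg some ?_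
  have key : ∀ (y : List (M₂.Γ M₂.k₀)) (J : ∀ k, List (cΓ M₁ M₂ k)), y = x :: w →
      @TM2.stepAux _ _ _ _ (compTM M₁ M₂ e).kDecidableEq (.branch (fun v => v.2.2.isSome)
          (.push (Sum.inr (Sum.inl M₂.k₀)) (fun v => v.2.2.getD h.some)
            (.goto fun _ => Sum.inr (Sum.inr true)))
          (.goto fun _ => Sum.inr (Sum.inl M₂.main)) : TM2.Stmt (cΓ M₁ M₂) (cΛ M₁ M₂)
            (cσ M₁ M₂)) (v₁, (v₂, y.head?)) J =
        ⟨some (Sum.inr (Sum.inr true)), (v₁, (v₂, some x)),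
          @update _ _ (compTM M₁ M₂ e).kDecidableEq J (Sum.inr (Sum.inl M₂.k₀))
            (x :: J (Sum.inr (Sum.inl M₂.k₀)))⟩ := by
    rintro y J rfl
    rfl
  refine (key (join M₁ M₂ S₁ S₂ (x :: w) (Sum.inr (Sum.inr ()))) _ rfl).trans ?_
  congr 1
  have e4 : @update _ _ (compTM M₁ M₂ e).kDecidableEq (join M₁ M₂ S₁ S₂ (x :: w))
      (Sum.inr (Sum.inr ())) (x :: w).tail = join M₁ M₂ S₁ S₂ w := e3
  exact (@upd_helper _ (cΓ M₁ M₂) (compTM M₁ M₂ e).kDecidableEq _ _ (Sum.inr (Sum.inl M₂.k₀))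
    (fun J => x :: J (Sum.inr (Sum.inl M₂.k₀))) e4).trans e2

/-- The second transfer loop. -/
theorem stepsTo_move₂ (e : M₁.Γ M₁.k₁ → M₂.Γ M₂.k₀) (v₁ : M₁.σ) (v₂ : M₂.σ)
    (S₁ : ∀ k, List (M₁.Γ k)) : ∀ (w : List (M₂.Γ M₂.k₀)) (o : Option (M₂.Γ M₂.k₀))
    (_ : ¬ Nonempty (M₂.Γ M₂.k₀) → o = none) (S₂ : ∀ k, List (M₂.Γ k)),
    StepsTo (compTM M₁ M₂ e).step
      ⟨some (Sum.inr (Sum.inr true)), (v₁, (v₂, o)), join M₁ M₂ S₁ S₂ w⟩
      ⟨some (Sum.inr (Sum.inl M₂.main)), (v₁, (v₂, none)),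
        join M₁ M₂ S₁ (@update _ _ M₂.kDecidableEq S₂ M₂.k₀ (w.reverse ++ S₂ M₂.k₀)) []⟩
      (w.length + 1) := by
  let _ := M₂.kDecidableEq
  intro w
  induction w with
  | nil =>
    intro o ho S₂
    have hu : update S₂ M₂.k₀ ([].reverse ++ S₂ M₂.k₀) = S₂ := by simp
    rw [hu]
    exact StepsTo.single (step_move₂_nil e v₁ v₂ S₁ S₂ o ho)
  | cons x w ih =>
    intro o ho S₂
    have h : Nonempty (M₂.Γ M₂.k₀) := ⟨x⟩
    have h2 := ih (some x) (fun hn => (hn h).elim) (update S₂ M₂.k₀ (x :: S₂ M₂.k₀))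
    have e1 : update (update S₂ M₂.k₀ (x :: S₂ M₂.k₀)) M₂.k₀ (w.reverse ++
        update S₂ M₂.k₀ (x :: S₂ M₂.k₀) M₂.k₀) =
        update S₂ M₂.k₀ ((x :: w).reverse ++ S₂ M₂.k₀) := by
      rw [update_self, update_idem]; simp
    rw [e1] at h2
    exact stepsTo_succ.mpr ⟨_, step_move₂_cons e v₁ v₂ S₁ S₂ o x w, h2⟩

theorem haltList_stk (M : FinTM2) (w : List (M.Γ M.k₁)) (k : M.K) :
    (haltList M w).stk k = @update _ _ M.kDecidableEq (fun _ => []) M.k₁ w k := by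
  let _ := M.kDecidableEq
  by_cases h : M.k₁ = k
  · obtain rfl := h
    simp [haltList]
  · have h' : ¬ k = M.k₁ := fun h'' => h h''.symm
    simp [haltList, h']

theorem initList_stk (M : FinTM2) (w : List (M.Γ M.k₀)) (k : M.K) :
    (initList M w).stk k = @update _ _ M.kDecidableEq (fun _ => []) M.k₀ w k := by
  let _ := M.kDecidableEq
  by_cases h : M.k₀ = k
  · obtain rfl := h
    simp [initList]
  · have h' : ¬ k = M.k₀ := fun h'' => h h''.symm
    simp [initList, h']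

theorem initList_compTM (e : M₁.Γ M₁.k₁ → M₂.Γ M₂.k₀) (w : List (M₁.Γ M₁.k₀)) :
    initList (compTM M₁ M₂ e) w =
      emb₁ M₂.initialState none (fun _ => []) [] (initList M₁ w) := by
  have h : (initList (compTM M₁ M₂ e) w).stk =
      join M₁ M₂ (initList M₁ w).stk (fun _ => []) [] := by
    funext k
    refine (initList_stk (compTM M₁ M₂ e) w k).trans ?_
    let _ := (compTM M₁ M₂ e).kDecidableEq
    let _ := M₁.kDecidableEq
    have e1 := update_join₁ (M₁ := M₁) (M₂ := M₂) (fun _ => []) (fun _ => []) [] M₁.k₀ w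
      (inst := (compTM M₁ M₂ e).kDecidableEq)
    have e2 : join M₁ M₂ (fun _ => []) (fun _ => []) [] = fun _ => [] := by
      funext k; rcases k with k | k | k <;> rfl
    have e3 : (initList M₁ w).stk = update (fun _ => []) M₁.k₀ w := by
      funext k
      exact initList_stk M₁ w k
    rw [e2] at e1
    rw [e3, ← e1]
    rfl
  have : initList (compTM M₁ M₂ e) w = ⟨(initList (compTM M₁ M₂ e) w).l,
      (initList (compTM M₁ M₂ e) w).var, (initList (compTM M₁ M₂ e) w).stk⟩ := rfl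
  rw [this, h]
  rfl

theorem haltList_compTM (e : M₁.Γ M₁.k₁ → M₂.Γ M₂.k₀) (w : List (M₂.Γ M₂.k₁)) :
    haltList (compTM M₁ M₂ e) w =
      emb₂ M₁.initialState none (fun _ => []) [] (haltList M₂ w) := by
  have h : (haltList (compTM M₁ M₂ e) w).stk =
      join M₁ M₂ (fun _ => []) (haltList M₂ w).stk [] := by
    funext k
    refine (haltList_stk (compTM M₁ M₂ e) w k).trans ?_
    let _ := (compTM M₁ M₂ e).kDecidableEq
    let _ := M₂.kDecidableEq
    have e1 := update_join₂ (M₁ := M₁) (M₂ := M₂) (fun _ => []) (fun _ => []) [] M₂.k₁ w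
      (inst := (compTM M₁ M₂ e).kDecidableEq)
    have e2 : join M₁ M₂ (fun _ => []) (fun _ => []) [] = fun _ => [] := by
      funext k; rcases k with k | k | k <;> rfl
    have e3 : (haltList M₂ w).stk = update (fun _ => []) M₂.k₁ w := by
      funext k
      exact haltList_stk M₂ w k
    rw [e2] at e1
    rw [e3, ← e1]
    rfl
  have : haltList (compTM M₁ M₂ e) w = ⟨(haltList (compTM M₁ M₂ e) w).l,
      (haltList (compTM M₁ M₂ e) w).var, (haltList (compTM M₁ M₂ e) w).stk⟩ := rfl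
  rw [this, h]
  rfl

theorem StepsTo.congr_right {σ : Type*} {f : σ → Option σ} {a b b' : σ} {n : ℕ}
    (h : StepsTo f a b n) (hb : b = b') : StepsTo f a b' n := hb ▸ h

/-- The run of the composed machine. -/
theorem stepsTo_compTM (e : M₁.Γ M₁.k₁ → M₂.Γ M₂.k₀) (w : List (M₁.Γ M₁.k₀))
    (u : List (M₁.Γ M₁.k₁)) (v : List (M₂.Γ M₂.k₁)) (n₁ n₂ : ℕ)
    (h₁ : StepsTo M₁.step (initList M₁ w) (haltList M₁ u) n₁)
    (h₂ : StepsTo M₂.step (initList M₂ (u.map e)) (haltList M₂ v) n₂) :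
    StepsTo (compTM M₁ M₂ e).step (initList (compTM M₁ M₂ e) w) (haltList (compTM M₁ M₂ e) v)
      (n₁ + ((u.length + 1) + ((u.length + 1) + n₂))) := by
  let _ := M₁.kDecidableEq
  let _ := M₂.kDecidableEq
  rw [initList_compTM, haltList_compTM]
  have s1 := stepsTo_emb₁ e M₂.initialState none (fun _ => []) [] n₁ _ _ h₁
  have hS : (haltList M₁ u).stk = update (fun _ => []) M₁.k₁ u := by
    funext k
    exact haltList_stk M₁ u k
  have s2 := stepsTo_move₁ e M₁.initialState M₂.initialState (fun _ => []) u none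
    (fun _ => rfl) (haltList M₁ u).stk [] (by rw [hS, update_self])
  have e2 : update (haltList M₁ u).stk M₁.k₁ [] = fun _ => [] := by
    rw [hS, update_idem]
    funext k
    by_cases hk : k = M₁.k₁
    · subst hk; simp
    · simp [hk]
  rw [e2, List.append_nil] at s2
  have s3 := stepsTo_move₂ e M₁.initialState M₂.initialState (fun _ => [])
    (u.map e).reverse none (fun _ => rfl) (fun _ => [])
  rw [List.reverse_reverse, List.append_nil, List.length_reverse, List.length_map] at s3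
  have s4 := stepsTo_emb₂ e M₁.initialState none (fun _ => []) [] n₂ _ _ h₂
  have e4 : (⟨some (Sum.inr (Sum.inl M₂.main)), (M₁.initialState, (M₂.initialState, none)),
      join M₁ M₂ (fun _ => []) (update (fun _ => []) M₂.k₀ (u.map e)) []⟩ :
      TM2.Cfg (cΓ M₁ M₂) (cΛ M₁ M₂) (cσ M₁ M₂)) =
      emb₂ M₁.initialState none (fun _ => []) [] (initList M₂ (u.map e)) := by
    have : (initList M₂ (u.map e)).stk = update (fun _ => []) M₂.k₀ (u.map e) := by
      funext k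
      exact initList_stk M₂ _ k
    unfold emb₂
    rw [this]
    rfl
  exact s1.trans (s2.trans ((StepsTo.congr_right s3 e4).trans s4))

end comp

/-- From an existence statement to Mathlib's data-carrying structure. -/
noncomputable def evalsOf {σ : Type} {f : σ → Option σ} {a b : σ} {m : ℕ}
    (h : ∃ n, n ≤ m ∧ StepsTo f a b n) : EvalsToInTime f a (some b) m where
  steps := h.choose
  evals_in_steps := h.choose_spec.2
  steps_le_m := h.choose_spec.1

/-- Composition of polynomial time functions (in the sense of Mathlib's multi-stack Turing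
machines). -/
theorem computable_comp {α β γ αΓ βΓ γΓ : Type} {eα : α → List αΓ} {eβ : β → List βΓ}
    {eγ : γ → List γΓ} {f : α → β} {g : β → γ} (h1 : TM2ComputableInPolyTime eα eβ f)
    (h2 : TM2ComputableInPolyTime eβ eγ g) :
    Nonempty (TM2ComputableInPolyTime eα eγ (fun a => g (f a))) := by
  let e : h1.tm.Γ h1.tm.k₁ → h2.tm.Γ h2.tm.k₀ := fun x =>
    h2.inputAlphabet.invFun (h1.outputAlphabet x)
  let _ := h1.tm.ΛFin
  let c : ℕ := Finset.univ.sup (fun l => pushes (h1.tm.m l))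
  have hc : ∀ l, pushes (h1.tm.m l) ≤ c := fun l =>
    Finset.le_sup (f := fun l => pushes (h1.tm.m l)) (Finset.mem_univ l)
  let B : Polynomial ℕ := Polynomial.X + h1.time * Polynomial.C c
  refine ⟨{ tm := compTM h1.tm h2.tm e
            inputAlphabet := h1.inputAlphabet
            outputAlphabet := h2.outputAlphabet
            time := h1.time + ((B + 1) + ((B + 1) + h2.time.comp B))
            outputsFun := fun a => evalsOf ?_ }⟩
  have r1 := h1.outputsFun a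
  have r2 := h2.outputsFun (f a)
  have s1 : StepsTo h1.tm.step (initList h1.tm (List.map h1.inputAlphabet.invFun (eα a)))
      (haltList h1.tm (List.map h1.outputAlphabet.invFun (eβ (f a)))) r1.steps :=
    r1.evals_in_steps
  obtain ⟨n2, h5, s2⟩ : ∃ n2, n2 ≤ h2.time.eval (eβ (f a)).length ∧ StepsTo h2.tm.step
      (initList h2.tm (List.map h2.inputAlphabet.invFun (eβ (f a))))
      (haltList h2.tm (List.map h2.outputAlphabet.invFun (eγ (g (f a))))) n2 :=
    ⟨r2.steps, r2.steps_le_m, r2.evals_in_steps⟩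
  have hmap : (List.map h1.outputAlphabet.invFun (eβ (f a))).map e =
      List.map h2.inputAlphabet.invFun (eβ (f a)) := by
    rw [List.map_map]
    congr 1
    funext x
    simp [e]
  rw [← hmap] at s2
  have s3 := stepsTo_compTM e _ _ _ _ _ s1 s2
  have hlen : (eβ (f a)).length ≤ B.eval (eα a).length := by
    have h := stepsTo_length (K := h1.tm.K) hc h1.tm.k₁ _ _ _ s1
    have e1 : ((haltList h1.tm (List.map h1.outputAlphabet.invFun (eβ (f a)))).stk
        h1.tm.k₁).length = (eβ (f a)).length := by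
      rw [haltList_stk, update_self, List.length_map]
    have e2 : ((initList h1.tm (List.map h1.inputAlphabet.invFun (eα a))).stk
        h1.tm.k₁).length ≤ (eα a).length := by
      rw [initList_stk]
      by_cases hk : h1.tm.k₀ = h1.tm.k₁
      · have : ∀ (k : h1.tm.K) (hk : h1.tm.k₀ = k),
            (@update _ _ h1.tm.kDecidableEq (fun _ => []) h1.tm.k₀
              (List.map h1.inputAlphabet.invFun (eα a)) k).length ≤ (eα a).length := by
          rintro k rfl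
          rw [update_self, List.length_map]
        exact this _ hk
      · rw [update_of_ne (fun h => hk h.symm)]
        simp
    have e3 : r1.steps * c ≤ h1.time.eval (eα a).length * c :=
      Nat.mul_le_mul_right _ r1.steps_le_m
    simp only [B, Polynomial.eval_add, Polynomial.eval_X, Polynomial.eval_mul, Polynomial.eval_C]
    have h' := h
    rw [e1] at h'
    omega
  refine ⟨_, ?_, s3⟩
  have h4 := r1.steps_le_m
  have h6 := eval_mono h2.time hlen
  simp only [Polynomial.eval_add, Polynomial.eval_one, Polynomial.eval_comp, List.length_map]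
  omega

end Pool.Agent.Lib.PolyTime
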