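import Pool.Agent.Lib.PolyTime.Prog

/-!
# Basic stack programs: moving, copying, clearing, reading off a tree
-/

namespace Pool.Agent.Lib.PolyTime

open Function

variable {K K' : Type} [DecidableEq K] [DecidableEq K']

/-! ### Renaming of stacks -/

/-- Renaming of the stacks of a program. -/
def Prog.map (e : K → K') : Prog K → Prog K'
  | .skip => .skip
  | .push k b => .push (e k) b
  | .pop k => .pop (e k)
  | .seq P Q => .seq (P.map e) (Q.map e)
  | .ite k p P Q => .ite (e k) p (P.map e) (Q.map e)
  | .loop k p P => .loop (e k) p (P.map e)

theorem Run.map {e : K → K'} (he : Injective e) {P : Prog K} {s s' : St K} {t : ℕ}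
    (h : Run P s s' t) : ∀ S : St K', (∀ k, S (e k) = s k) → ∃ S' : St K',
      Run (P.map e) S S' t ∧ (∀ k, S' (e k) = s' k) ∧ ∀ k', (∀ k, e k ≠ k') → S' k' = S k' := by
  induction h with
  | skip s =>
    intro S hS
    exact ⟨S, .skip S, hS, fun _ _ => rfl⟩
  | push k b s =>
    intro S hS
    refine ⟨_, .push (e k) b S, fun k₁ => ?_, fun k' hk' => ?_⟩
    · by_cases hk : k₁ = k
      · subst hk; simp [hS]
      · rw [update_of_ne (fun h => hk (he h)), update_of_ne hk, hS]
    · rw [update_of_ne (fun h => hk' k h.symm)]
  | pop k s =>
    intro S hS
    refine ⟨_, .pop (e k) S, fun k₁ => ?_, fun k' hk' => ?_⟩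
    · by_cases hk : k₁ = k
      · subst hk; simp [hS]
      · rw [update_of_ne (fun h => hk (he h)), update_of_ne hk, hS]
    · rw [update_of_ne (fun h => hk' k h.symm)]
  | seq _ _ ih1 ih2 =>
    intro S hS
    obtain ⟨S1, h1, h2, h3⟩ := ih1 S hS
    obtain ⟨S2, h4, h5, h6⟩ := ih2 S1 h2
    exact ⟨S2, .seq h1 h4, h5, fun k' hk' => (h6 k' hk').trans (h3 k' hk')⟩
  | iteT hp _ ih =>
    intro S hS
    obtain ⟨S1, h1, h2, h3⟩ := ih S hS
    exact ⟨S1, .iteT (by rw [hS]; exact hp) h1, h2, h3⟩
  | iteF hp _ ih =>
    intro S hS
    obtain ⟨S1, h1, h2, h3⟩ := ih S hS
    exact ⟨S1, .iteF (by rw [hS]; exact hp) h1, h2, h3⟩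
  | loopT hp _ _ ih1 ih2 =>
    intro S hS
    obtain ⟨S1, h1, h2, h3⟩ := ih1 S hS
    obtain ⟨S2, h4, h5, h6⟩ := ih2 S1 h2
    exact ⟨S2, .loopT (by rw [hS]; exact hp) h1 h4, h5,
      fun k' hk' => (h6 k' hk').trans (h3 k' hk')⟩
  | loopF hp =>
    intro S hS
    exact ⟨S, .loopF (by rw [hS]; exact hp), hS, fun _ _ => rfl⟩

/-- Stacks grow by at most one symbol per step. -/
theorem Run.length_le {P : Prog K} {s s' : St K} {t : ℕ} (h : Run P s s' t) (k : K) :
    (s' k).length ≤ (s k).length + t := by
  induction h with
  | skip s => omega
  | push k₁ b s =>
    by_cases hk : k = k₁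
    · subst hk; simp
    · rw [update_of_ne hk]; omega
  | pop k₁ s =>
    by_cases hk : k = k₁
    · subst hk; simp only [update_self, List.length_tail]; omega
    · rw [update_of_ne hk]; omega
  | seq _ _ ih1 ih2 => omega
  | iteT _ _ ih => omega
  | iteF _ _ ih => omega
  | loopT _ _ _ ih1 ih2 => omega
  | loopF _ => omega

/-! ### Moving and copying -/

/-- The test for a nonempty stack. -/
def ne : Option Bool → Bool := Option.isSome

/-- The test that the top is `true`. -/
def isT : Option Bool → Bool := fun o => o == some true

/-- Move the content of `a` to `b`, reversing it. -/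
def mv (a b : K) : Prog K :=
  .loop a ne (.ite a isT (.seq (.pop a) (.push b true)) (.seq (.pop a) (.push b false)))

/-- Move the content of `a` to both `b` and `c`, reversing it. -/
def mv2 (a b c : K) : Prog K :=
  .loop a ne (.ite a isT (.seq (.pop a) (.seq (.push b true) (.push c true)))
    (.seq (.pop a) (.seq (.push b false) (.push c false))))

/-- Clear the stack `a`. -/
def clear (a : K) : Prog K := .loop a ne (.pop a)

theorem run_clear (a : K) : ∀ (w : List Bool) (s : St K), s a = w →
    Run (clear a) s (update s a []) (2 * w.length + 1) := by
  intro w
  induction w with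
  | nil =>
    intro s hs
    have : update s a [] = s := by rw [← hs, update_eq_self]
    rw [this]
    exact .loopF (by rw [hs]; rfl)
  | cons b w ih =>
    intro s hs
    have h1 : Run (.pop a) s (update s a w) 1 := by
      have := Run.pop a s
      rwa [hs, List.tail_cons] at this
    have h2 := ih (update s a w) (by simp)
    rw [update_idem] at h2
    have h3 := Run.loopT (k := a) (p := ne) (by rw [hs]; rfl) h1 h2
    have e : 1 + (2 * w.length + 1) + 1 = 2 * (b :: w).length + 1 := by
      simp only [List.length_cons]; omega
    rw [e] at h3
    exact h3

theorem run_mv {a b : K} (hab : a ≠ b) : ∀ (w : List Bool) (s : St K), s a = w →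
    Run (mv a b) s (update (update s a []) b (w.reverse ++ s b)) (4 * w.length + 1) := by
  intro w
  induction w with
  | nil =>
    intro s hs
    have : update (update s a []) b ([].reverse ++ s b) = s := by
      rw [← hs, update_eq_self, hs]
      simp
    rw [this]
    exact .loopF (by rw [hs]; rfl)
  | cons x w ih =>
    intro s hs
    have h1 : Run (.ite a isT (.seq (.pop a) (.push b true)) (.seq (.pop a) (.push b false))) s
        (update (update s a w) b (x :: s b)) 3 := by
      have h1 : Run (.pop a) s (update s a w) 1 := by
        have := Run.pop a s
        rwa [hs, List.tail_cons] at this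
      have h2 : Run (.push b x) (update s a w) (update (update s a w) b (x :: s b)) 1 := by
        have := Run.push b x (update s a w)
        rwa [update_of_ne (Ne.symm hab)] at this
      cases x with
      | true => exact .iteT (by rw [hs]; rfl) (.seq h1 h2)
      | false => exact .iteF (by rw [hs]; rfl) (.seq h1 h2)
    have h2 := ih (update (update s a w) b (x :: s b)) (by rw [update_of_ne hab]; simp)
    have e1 : update (update (update (update s a w) b (x :: s b)) a []) b
        (w.reverse ++ update (update s a w) b (x :: s b) b) =
        update (update s a []) b ((x :: w).reverse ++ s b) := by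
      funext k
      by_cases hk : k = b
      · subst hk; simp
      · by_cases hk' : k = a
        · subst hk'; simp [hk]
        · simp [hk, hk']
    rw [e1] at h2
    have h3 := Run.loopT (k := a) (p := ne) (by rw [hs]; rfl) h1 h2
    have e : 3 + (4 * w.length + 1) + 1 = 4 * (x :: w).length + 1 := by
      simp only [List.length_cons]; omega
    rw [e] at h3
    exact h3

theorem run_mv2 {a b c : K} (hab : a ≠ b) (hac : a ≠ c) (hbc : b ≠ c) :
    ∀ (w : List Bool) (s : St K), s a = w →
    Run (mv2 a b c) s (update (update (update s a []) b (w.reverse ++ s b)) c
      (w.reverse ++ s c)) (5 * w.length + 1) := by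
  intro w
  induction w with
  | nil =>
    intro s hs
    have : update (update (update s a []) b ([].reverse ++ s b)) c ([].reverse ++ s c) = s := by
      rw [← hs, update_eq_self, hs]
      simp
    rw [this]
    exact .loopF (by rw [hs]; rfl)
  | cons x w ih =>
    intro s hs
    have h1 : Run (.ite a isT (.seq (.pop a) (.seq (.push b true) (.push c true)))
        (.seq (.pop a) (.seq (.push b false) (.push c false)))) s
        (update (update (update s a w) b (x :: s b)) c (x :: s c)) 4 := by
      have h1 : Run (.pop a) s (update s a w) 1 := by
        have := Run.pop a s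
        rwa [hs, List.tail_cons] at this
      have h2 : Run (.push b x) (update s a w) (update (update s a w) b (x :: s b)) 1 := by
        have := Run.push b x (update s a w)
        rwa [update_of_ne (Ne.symm hab)] at this
      have h3 : Run (.push c x) (update (update s a w) b (x :: s b))
          (update (update (update s a w) b (x :: s b)) c (x :: s c)) 1 := by
        have := Run.push c x (update (update s a w) b (x :: s b))
        rwa [update_of_ne (Ne.symm hbc), update_of_ne (Ne.symm hac)] at this
      cases x with
      | true => exact .iteT (by rw [hs]; rfl) (.seq h1 (.seq h2 h3))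
      | false => exact .iteF (by rw [hs]; rfl) (.seq h1 (.seq h2 h3))
    have h2 := ih (update (update (update s a w) b (x :: s b)) c (x :: s c))
      (by rw [update_of_ne hac, update_of_ne hab]; simp)
    have e1 : update (update (update (update (update (update s a w) b (x :: s b)) c (x :: s c))
        a []) b (w.reverse ++ update (update (update s a w) b (x :: s b)) c (x :: s c) b)) c
        (w.reverse ++ update (update (update s a w) b (x :: s b)) c (x :: s c) c) =
        update (update (update s a []) b ((x :: w).reverse ++ s b)) c
          ((x :: w).reverse ++ s c) := by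
      funext k
      by_cases hk : k = c
      · subst hk; simp
      · by_cases hk' : k = b
        · subst hk'; simp [hk]
        · by_cases hk'' : k = a
          · subst hk''; simp [hk, hk']
          · simp [hk, hk', hk'']
    rw [e1] at h2
    have h3 := Run.loopT (k := a) (p := ne) (by rw [hs]; rfl) h1 h2
    have e : 4 + (5 * w.length + 1) + 1 = 5 * (x :: w).length + 1 := by
      simp only [List.length_cons]; omega
    rw [e] at h3
    exact h3

/-! ### Trees -/

/-- Binary trees: the universal data type. -/
inductive BT : Type
  | leaf : BT
  | node (l r : BT) : BT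
  deriving DecidableEq

/-- Serialisation in preorder: `true` for a node, `false` for a leaf. -/
def BT.ser : BT → List Bool
  | .leaf => [false]
  | .node l r => true :: (l.ser ++ r.ser)

/-- Size of a tree: the length of its serialisation. -/
def BT.size (x : BT) : ℕ := x.ser.length

@[simp] theorem BT.size_leaf : BT.leaf.size = 1 := rfl
@[simp] theorem BT.size_node (l r : BT) : (BT.node l r).size = l.size + r.size + 1 := by
  simp [BT.size, BT.ser]

theorem BT.size_pos (x : BT) : 0 < x.size := by
  cases x <;> simp

theorem BT.ser_append_inj : ∀ {x y : BT} {u v : List Bool}, x.ser ++ u = y.ser ++ v →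
    x = y ∧ u = v := by
  intro x
  induction x with
  | leaf =>
    intro y u v h
    cases y with
    | leaf => simpa [BT.ser] using h
    | node l r => simp [BT.ser] at h
  | node l r ihl ihr =>
    intro y u v h
    cases y with
    | leaf => simp [BT.ser] at h
    | node l' r' =>
      simp only [BT.ser, List.cons_append, List.append_assoc, List.cons.injEq, true_and] at h
      obtain ⟨h1, h2⟩ := ihl h
      obtain ⟨h3, h4⟩ := ihr h2
      exact ⟨by rw [h1, h3], h4⟩

theorem BT.ser_injective : Injective BT.ser := by
  intro x y h
  exact (BT.ser_append_inj (u := []) (v := []) (by simpa using h)).1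

/-- The loop reading off a tree from `a`, moving it (reversed) to `b`, with counter `c`. -/
def takeLoop (a b c : K) : Prog K :=
  .loop c ne (.ite a isT (.seq (.pop a) (.seq (.push b true) (.push c true)))
    (.seq (.pop a) (.seq (.push b false) (.pop c))))

/-- Read off a tree from `a`, moving it (reversed) to `b`, with auxiliary stack `c`. -/
def takeTree (a b c : K) : Prog K := .seq (.push c true) (takeLoop a b c)

theorem run_takeLoop {a b c : K} (hab : a ≠ b) (hac : a ≠ c) (hbc : b ≠ c) (x : BT) :
    ∀ (s : St K) (u cs : List Bool) (s'' : St K) (t' : ℕ), s a = x.ser ++ u → s c = true :: cs →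
      Run (takeLoop a b c) (update (update (update s a u) b (x.ser.reverse ++ s b)) c cs) s'' t' →
      Run (takeLoop a b c) s s'' (t' + 5 * x.size) := by
  induction x with
  | leaf =>
    intro s u cs s'' t' ha hc h
    have h1 : Run (.ite a isT (.seq (.pop a) (.seq (.push b true) (.push c true)))
        (.seq (.pop a) (.seq (.push b false) (.pop c)))) s
        (update (update (update s a u) b (false :: s b)) c cs) 4 := by
      have h1 : Run (.pop a) s (update s a u) 1 := by
        have := Run.pop a s
        rwa [ha] at this
      have h2 : Run (.push b false) (update s a u) (update (update s a u) b (false :: s b)) 1 := by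
        have := Run.push b false (update s a u)
        rwa [update_of_ne (Ne.symm hab)] at this
      have h3 : Run (.pop c) (update (update s a u) b (false :: s b))
          (update (update (update s a u) b (false :: s b)) c cs) 1 := by
        have := Run.pop c (update (update s a u) b (false :: s b))
        rwa [update_of_ne (Ne.symm hbc), update_of_ne (Ne.symm hac), hc, List.tail_cons] at this
      exact .iteF (by rw [ha]; rfl) (.seq h1 (.seq h2 h3))
    have h2 := Run.loopT (k := c) (p := ne) (by rw [hc]; rfl) h1 h
    have e : 4 + t' + 1 = t' + 5 * BT.leaf.size := by simp; omega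
    rw [e] at h2
    exact h2
  | node l r ihl ihr =>
    intro s u cs s'' t' ha hc h
    have h1 : Run (.ite a isT (.seq (.pop a) (.seq (.push b true) (.push c true)))
        (.seq (.pop a) (.seq (.push b false) (.pop c)))) s
        (update (update (update s a (l.ser ++ (r.ser ++ u))) b (true :: s b)) c
          (true :: true :: cs)) 4 := by
      have h1 : Run (.pop a) s (update s a (l.ser ++ (r.ser ++ u))) 1 := by
        have := Run.pop a s
        rwa [ha, BT.ser, List.cons_append, List.tail_cons, List.append_assoc] at this
      have h2 : Run (.push b true) (update s a (l.ser ++ (r.ser ++ u)))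
          (update (update s a (l.ser ++ (r.ser ++ u))) b (true :: s b)) 1 := by
        have := Run.push b true (update s a (l.ser ++ (r.ser ++ u)))
        rwa [update_of_ne (Ne.symm hab)] at this
      have h3 : Run (.push c true) (update (update s a (l.ser ++ (r.ser ++ u))) b (true :: s b))
          (update (update (update s a (l.ser ++ (r.ser ++ u))) b (true :: s b)) c
            (true :: true :: cs)) 1 := by
        have := Run.push c true (update (update s a (l.ser ++ (r.ser ++ u))) b (true :: s b))
        rwa [update_of_ne (Ne.symm hbc), update_of_ne (Ne.symm hac), hc] at this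
      exact .iteT (by rw [ha]; rfl) (.seq h1 (.seq h2 h3))
    set s1 : St K := update (update (update s a (l.ser ++ (r.ser ++ u))) b (true :: s b)) c
          (true :: true :: cs) with hs1
    have h1a : s1 a = l.ser ++ (r.ser ++ u) := by
      rw [hs1, update_of_ne hac, update_of_ne hab, update_self]
    have h1b : s1 b = true :: s b := by
      rw [hs1, update_of_ne hbc, update_self]
    have h1c : s1 c = true :: true :: cs := by rw [hs1, update_self]
    set s2 : St K := update (update (update s1 a (r.ser ++ u)) b (l.ser.reverse ++ s1 b)) c
      (true :: cs) with hs2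
    have h2a : s2 a = r.ser ++ u := by
      rw [hs2, update_of_ne hac, update_of_ne hab, update_self]
    have h2b : s2 b = l.ser.reverse ++ (true :: s b) := by
      rw [hs2, update_of_ne hbc, update_self, h1b]
    have h2c : s2 c = true :: cs := by rw [hs2, update_self]
    have e3 : update (update (update s2 a u) b (r.ser.reverse ++ s2 b)) c cs =
        update (update (update s a u) b ((BT.node l r).ser.reverse ++ s b)) c cs := by
      funext k
      by_cases hk : k = c
      · subst hk; simp
      · by_cases hk' : k = b
        · subst hk'
          rw [update_of_ne hk, update_self, update_of_ne hk, update_self, h2b]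
          simp [BT.ser]
        · by_cases hk'' : k = a
          · subst hk''; simp [hk, hk']
          · rw [update_of_ne hk, update_of_ne hk', update_of_ne hk'', update_of_ne hk,
              update_of_ne hk', update_of_ne hk'', hs2, update_of_ne hk, update_of_ne hk',
              update_of_ne hk'', hs1, update_of_ne hk, update_of_ne hk', update_of_ne hk'']
    rw [← e3] at h
    have h4 := ihr s2 u cs s'' t' h2a h2c h
    have h5 := ihl s1 (r.ser ++ u) (true :: cs) s'' _ h1a h1c h4
    have h6 := Run.loopT (k := c) (p := ne) (by rw [hc]; rfl) h1 h5
    have e : 4 + (t' + 5 * r.size + 5 * l.size) + 1 = t' + 5 * (BT.node l r).size := by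
      rw [BT.size_node]; omega
    rw [e] at h6
    exact h6

theorem run_takeTree {a b c : K} (hab : a ≠ b) (hac : a ≠ c) (hbc : b ≠ c) (x : BT)
    (s : St K) (u : List Bool) (ha : s a = x.ser ++ u) (hc : s c = []) :
    Run (takeTree a b c) s (update (update s a u) b (x.ser.reverse ++ s b)) (5 * x.size + 2) := by
  have h1 : Run (.push c true) s (update s c [true]) 1 := by
    have := Run.push c true s
    rwa [hc] at this
  have h2 : Run (takeLoop a b c) (update (update (update (update s c [true]) a u) b
      (x.ser.reverse ++ update s c [true] b)) c [])
      (update (update s a u) b (x.ser.reverse ++ s b)) 1 := by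
    have e : update (update (update (update s c [true]) a u) b
        (x.ser.reverse ++ update s c [true] b)) c [] =
        update (update s a u) b (x.ser.reverse ++ s b) := by
      funext k
      by_cases hk : k = c
      · subst hk
        rw [update_self, update_of_ne (Ne.symm hbc), update_of_ne (Ne.symm hac), hc]
      · by_cases hk' : k = b
        · subst hk'
          rw [update_of_ne hk, update_self, update_self, update_of_ne hk]
        · by_cases hk'' : k = a
          · subst hk''; simp [hk, hk']
          · rw [update_of_ne hk, update_of_ne hk', update_of_ne hk'', update_of_ne hk,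
              update_of_ne hk', update_of_ne hk'']
    rw [e]
    refine .loopF ?_
    rw [update_of_ne (Ne.symm hbc), update_of_ne (Ne.symm hac), hc]
    rfl
  have h3 := run_takeLoop hab hac hbc x (update s c [true]) u [] _ _
    (by rw [update_of_ne hac]; exact ha) (by rw [update_self]) h2
  have h4 := Run.seq h1 h3
  have e : 1 + (1 + 5 * x.size) = 5 * x.size + 2 := by omega
  rw [e] at h4
  exact h4

end Pool.Agent.Lib.PolyTime
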