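import Pool.Agent.Lib.PolyTime.Basic
import Mathlib.Algebra.Polynomial.Eval.Degree
import Mathlib.Tactic.Linarith

/-!
# The class of polynomial time functions on encoded data, and its closure properties
-/

namespace Pool.Agent.Lib.PolyTime

open Function

/-! ### Polynomial bounds -/

theorem eval_mono (p : Polynomial ℕ) {m n : ℕ} (h : m ≤ n) : p.eval m ≤ p.eval n := by
  induction p using Polynomial.induction_on' with
  | add p q hp hq => simp only [Polynomial.eval_add]; omega
  | monomial i a =>
    simp only [Polynomial.eval_monomial]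
    exact Nat.mul_le_mul_left _ (Nat.pow_le_pow_left h i)

/-- `T` is bounded by a polynomial. -/
def PB (T : ℕ → ℕ) : Prop := ∃ p : Polynomial ℕ, ∀ n, T n ≤ p.eval n

theorem PB.const (c : ℕ) : PB (fun _ => c) := ⟨Polynomial.C c, fun n => by simp⟩
theorem PB.id : PB (fun n => n) := ⟨Polynomial.X, fun n => by simp⟩
theorem PB.poly (p : Polynomial ℕ) : PB (fun n => p.eval n) := ⟨p, fun _ => le_refl _⟩
theorem PB.add {S T : ℕ → ℕ} (hS : PB S) (hT : PB T) : PB (fun n => S n + T n) := by
  obtain ⟨p, hp⟩ := hS
  obtain ⟨q, hq⟩ := hT
  exact ⟨p + q, fun n => by rw [Polynomial.eval_add]; exact Nat.add_le_add (hp n) (hq n)⟩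
theorem PB.mul {S T : ℕ → ℕ} (hS : PB S) (hT : PB T) : PB (fun n => S n * T n) := by
  obtain ⟨p, hp⟩ := hS
  obtain ⟨q, hq⟩ := hT
  exact ⟨p * q, fun n => by rw [Polynomial.eval_mul]; exact Nat.mul_le_mul (hp n) (hq n)⟩
theorem PB.comp (p : Polynomial ℕ) {T : ℕ → ℕ} (hT : PB T) : PB (fun n => p.eval (T n)) := by
  obtain ⟨q, hq⟩ := hT
  exact ⟨p.comp q, fun n => by rw [Polynomial.eval_comp]; exact eval_mono p (hq n)⟩
theorem PB.mono {S T : ℕ → ℕ} (hT : PB T) (h : ∀ n, S n ≤ T n) : PB S := by
  obtain ⟨p, hp⟩ := hT
  exact ⟨p, fun n => (h n).trans (hp n)⟩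
theorem PB.pow {T : ℕ → ℕ} (hT : PB T) (k : ℕ) : PB (fun n => T n ^ k) := by
  obtain ⟨p, hp⟩ := hT
  exact ⟨p ^ k, fun n => by rw [Polynomial.eval_pow]; exact Nat.pow_le_pow_left (hp n) k⟩

/-! ### Encodings -/

/-- Encoding of a type in the type of binary trees. -/
class Enc (α : Type) where
  /-- the encoding -/
  enc : α → BT
  inj : Injective enc

export Enc (enc)

/-- The size of (the encoding of) an element. -/
def size {α : Type} [Enc α] (a : α) : ℕ := (enc a).size

/-- The code word of an element: a string of bits. -/
def code {α : Type} [Enc α] (a : α) : List Bool := (enc a).ser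

theorem length_code {α : Type} [Enc α] (a : α) : (code a).length = size a := rfl

theorem code_injective (α : Type) [Enc α] : Injective (code : α → List Bool) :=
  BT.ser_injective.comp Enc.inj

theorem size_pos {α : Type} [Enc α] (a : α) : 0 < size a := (enc a).size_pos

/-- Polynomial time functions on encoded data. -/
def PT {α β : Type} [Enc α] [Enc β] (f : α → β) : Prop :=
  ∃ (K : Type) (_ : Fintype K) (_ : DecidableEq K) (P : Prog K) (k₀ : K) (T : Polynomial ℕ),
    ∀ a, ∃ t, t ≤ T.eval (size a) ∧ Run P (single k₀ (code a)) (single k₀ (code (f a))) t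

/-- Functions in `PT` are computable in polynomial time by a Turing machine, in the sense of
Mathlib. -/
theorem PT.computable {α β : Type} [Enc α] [Enc β] {f : α → β} (hf : PT f) :
    Nonempty (Turing.TM2ComputableInPolyTime (code : α → List Bool) (code : β → List Bool) f) := by
  obtain ⟨K, _, _, P, k₀, T, h⟩ := hf
  exact computable_of_run code code f P k₀ T h

theorem PT.of {α β : Type} [Enc α] [Enc β] {f : α → β} {K : Type} [Fintype K] [DecidableEq K]
    (P : Prog K) (k₀ : K) (T : ℕ → ℕ) (hT : PB T)
    (h : ∀ a, ∃ t, t ≤ T (size a) ∧ Run P (single k₀ (code a)) (single k₀ (code (f a))) t) :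
    PT f := by
  obtain ⟨p, hp⟩ := hT
  refine ⟨K, inferInstance, inferInstance, P, k₀, p, fun a => ?_⟩
  obtain ⟨t, h1, h2⟩ := h a
  exact ⟨t, h1.trans (hp _), h2⟩

theorem embed {K K' : Type} [DecidableEq K] [DecidableEq K'] {P : Prog K} {k₀ : K}
    {w w' : List Bool} {t : ℕ} (h : Run P (single k₀ w) (single k₀ w') t) (e : K → K')
    (he : Injective e) (S : St K') (h0 : S (e k₀) = w) (h1 : ∀ k, k ≠ k₀ → S (e k) = []) :
    Run (P.map e) S (update S (e k₀) w') t := by
  obtain ⟨S', h2, h3, h4⟩ := h.map he S (fun k => by
    by_cases hk : k = k₀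
    · subst hk; simp [single, h0]
    · simp [single, hk, h1 k hk])
  have : S' = update S (e k₀) w' := by
    funext k'
    by_cases hk' : k' = e k₀
    · subst hk'; rw [h3, update_self]; simp [single]
    · rw [update_of_ne hk']
      by_cases hex : ∃ k, e k = k'
      · obtain ⟨k, rfl⟩ := hex
        have hk : k ≠ k₀ := fun h => hk' (by rw [h])
        rw [h3, h1 k hk]
        simp [single, hk]
      · exact h4 k' (fun k hk => hex ⟨k, hk⟩)
  rwa [this] at h2

theorem single_self {K : Type} [DecidableEq K] (k : K) (w : List Bool) : single k w k = w := by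
  simp [single]

theorem single_ne {K : Type} [DecidableEq K] {k k' : K} (h : k' ≠ k) (w : List Bool) :
    single k w k' = [] := by
  simp [single, h]

theorem update_single {K : Type} [DecidableEq K] (k : K) (w w' : List Bool) :
    update (single k w) k w' = single k w' := by
  funext x
  by_cases h : x = k
  · subst h; simp [single]
  · simp [single, h]

theorem run_mv_single {K : Type} [DecidableEq K] {a b : K} (hab : a ≠ b) (w : List Bool) :
    Run (mv a b) (single a w) (single b w.reverse) (4 * w.length + 1) := by
  have h := run_mv hab w (single a w) (single_self a w)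
  have e : update (update (single a w) a []) b (w.reverse ++ single a w b) =
      single b w.reverse := by
    funext k
    by_cases hk : k = b
    · subst hk; simp [single, Ne.symm hab]
    · by_cases hk' : k = a
      · subst hk'; simp [single, hk]
      · simp [single, hk, hk']
  rwa [e] at h

/-- Move the content of `a` to `b` through `t`, keeping the order. -/
def mvv {K : Type} (a b t : K) : Prog K := .seq (mv a t) (mv t b)

theorem run_mvv_single {K : Type} [DecidableEq K] {a b t : K} (hat : a ≠ t) (hbt : b ≠ t)
    (w : List Bool) : Run (mvv a b t) (single a w) (single b w) (8 * w.length + 2) := by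
  have h1 := run_mv_single hat w
  have h2 := run_mv_single (Ne.symm hbt) w.reverse
  rw [List.reverse_reverse, List.length_reverse] at h2
  have h3 := Run.seq h1 h2
  have e : 4 * w.length + 1 + (4 * w.length + 1) = 8 * w.length + 2 := by omega
  rwa [e] at h3

/-! ### Identity, composition, constants -/

section

variable {α β γ : Type} [Enc α] [Enc β] [Enc γ]

theorem PT.of_enc_eq {f : α → β} (h : ∀ a, enc (f a) = enc a) : PT f := by
  refine PT.of (K := Unit) .skip () (fun _ => 1) (PB.const 1) (fun a => ⟨1, le_refl _, ?_⟩)
  have : code (f a) = code a := by simp only [code, h]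
  rw [this]
  exact .skip _

theorem PT.id : PT (fun a : α => a) := PT.of_enc_eq (fun _ => rfl)

theorem PT.size_le {f : α → β} (hf : PT f) : ∃ p : Polynomial ℕ, ∀ a, size (f a) ≤ p.eval (size a) := by
  obtain ⟨K, _, _, P, k₀, T, h⟩ := hf
  refine ⟨Polynomial.X + T, fun a => ?_⟩
  obtain ⟨t, h1, h2⟩ := h a
  have := h2.length_le k₀
  rw [single_self, single_self, length_code, length_code] at this
  rw [Polynomial.eval_add, Polynomial.eval_X]
  omega

theorem PT.comp {g : β → γ} {f : α → β} (hg : PT g) (hf : PT f) : PT (fun a => g (f a)) := by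
  obtain ⟨p, hp⟩ := hf.size_le
  obtain ⟨q, hq⟩ := hg.size_le
  obtain ⟨K1, _, _, P1, k1, T1, h1⟩ := hf
  obtain ⟨K2, _, _, P2, k2, T2, h2⟩ := hg
  let i1 : K1 → K1 ⊕ (K2 ⊕ Unit) := Sum.inl
  let i2 : K2 → K1 ⊕ (K2 ⊕ Unit) := fun k => Sum.inr (Sum.inl k)
  let t : K1 ⊕ (K2 ⊕ Unit) := Sum.inr (Sum.inr ())
  have hi1 : Injective i1 := Sum.inl_injective
  have hi2 : Injective i2 := Sum.inr_injective.comp Sum.inl_injective
  have n1 : i1 k1 ≠ t := by simp [i1, t]
  have n2 : i2 k2 ≠ t := by simp [i2, t]
  have n12 : ∀ k k', i2 k ≠ i1 k' := by simp [i1, i2]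
  refine PT.of (.seq (P1.map i1) (.seq (mvv (i1 k1) (i2 k2) t) (.seq (P2.map i2)
    (mvv (i2 k2) (i1 k1) t)))) (i1 k1)
    (fun n => T1.eval n + ((8 * p.eval n + 2) + (T2.eval (p.eval n) +
      (8 * q.eval (p.eval n) + 2)))) ?_ ?_
  · exact (PB.poly T1).add (((PB.const 8).mul (PB.poly p)).add (PB.const 2) |>.add
      ((PB.comp T2 (PB.poly p)).add (((PB.const 8).mul (PB.comp q (PB.poly p))).add
        (PB.const 2))))
  · intro a
    obtain ⟨t1, ht1, r1⟩ := h1 a
    obtain ⟨t2, ht2, r2⟩ := h2 (f a)
    have s1 := embed r1 i1 hi1 (single (i1 k1) (code a)) (single_self _ _)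
      (fun k hk => single_ne (fun h => hk (hi1 h)) _)
    rw [update_single] at s1
    have s2 := run_mvv_single n1 n2 (code (f a))
    have s3 := embed r2 i2 hi2 (single (i2 k2) (code (f a))) (single_self _ _)
      (fun k hk => single_ne (fun h => hk (hi2 h)) _)
    rw [update_single] at s3
    have s4 := run_mvv_single n2 n1 (code (g (f a)))
    refine ⟨_, ?_, .seq s1 (.seq s2 (.seq s3 s4))⟩
    rw [length_code, length_code]
    have b1 := hp a
    have b2 := hq (f a)
    have b3 := eval_mono T2 b1
    have b4 := eval_mono q b1
    omega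

/-- Program pushing a constant list. -/
def pushList {K : Type} (k : K) : List Bool → Prog K
  | [] => .skip
  | b :: w => .seq (pushList k w) (.push k b)

theorem run_pushList {K : Type} [DecidableEq K] (k : K) (w : List Bool) (s : St K) :
    Run (pushList k w) s (update s k (w ++ s k)) (w.length + 1) := by
  induction w with
  | nil => simp only [List.nil_append, update_eq_self]; exact .skip s
  | cons b w ih =>
    have h := Run.seq ih (Run.push k b _)
    rw [update_self, update_idem] at h
    exact h

theorem PT.const (b : β) : PT (fun _ : α => b) := by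
  refine PT.of (K := Unit) (.seq (clear ()) (pushList () (code b))) ()
    (fun n => 2 * n + 1 + ((code b).length + 1)) ?_ ?_
  · exact (((PB.const 2).mul PB.id).add (PB.const 1)).add (PB.const _)
  · intro a
    have h1 := run_clear (K := Unit) () (code a) (single () (code a)) (single_self _ _)
    rw [update_single] at h1
    have h2 := run_pushList (K := Unit) () (code b) (single () [])
    rw [update_single, single_self, List.append_nil] at h2
    exact ⟨_, le_refl _, .seq h1 h2⟩

/-! ### Pairs -/

instance encProd : Enc (α × β) where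
  enc x := .node (enc x.1) (enc x.2)
  inj := by
    rintro ⟨a, b⟩ ⟨a', b'⟩ h
    simp only [BT.node.injEq] at h
    rw [Enc.inj h.1, Enc.inj h.2]

@[simp] theorem enc_prod (x : α × β) : enc x = BT.node (enc x.1) (enc x.2) := rfl

theorem code_prod (x : α × β) : code x = true :: (code x.1 ++ code x.2) := rfl

@[simp] theorem size_prod (x : α × β) : size x = size x.1 + size x.2 + 1 := by
  simp [size]

theorem PT.fst : PT (fun x : α × β => x.1) := by
  refine PT.of (K := Fin 3) (.seq (.pop 0) (.seq (takeTree 0 1 2) (.seq (clear 0) (mv 1 0)))) 0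
    (fun n => 1 + ((5 * n + 2) + ((2 * n + 1) + (4 * n + 1)))) ?_ ?_
  · exact (PB.const 1).add ((((PB.const 5).mul PB.id).add (PB.const 2)).add
      ((((PB.const 2).mul PB.id).add (PB.const 1)).add
        (((PB.const 4).mul PB.id).add (PB.const 1))))
  · intro x
    have h1 := Run.pop (0 : Fin 3) (single 0 (code x))
    rw [single_self, update_single, code_prod, List.tail_cons] at h1
    have h2 := run_takeTree (a := (0 : Fin 3)) (b := 1) (c := 2) (by decide) (by decide)
      (by decide) (enc x.1) (single 0 (code x.1 ++ code x.2)) (code x.2) (single_self _ _) rfl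
    have e2 : update (update (single (0 : Fin 3) (code x.1 ++ code x.2)) 0 (code x.2)) 1
        ((enc x.1).ser.reverse ++ single (0 : Fin 3) (code x.1 ++ code x.2) 1) =
        update (single 0 (code x.2)) 1 (code x.1).reverse := by
      rw [update_single]
      simp [single, code]
    rw [e2] at h2
    have h3 := run_clear (0 : Fin 3) (code x.2) (update (single 0 (code x.2)) 1 (code x.1).reverse)
      rfl
    have e3 : update (update (single (0 : Fin 3) (code x.2)) 1 (code x.1).reverse) 0 [] =
        single 1 (code x.1).reverse := by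
      funext k
      by_cases hk : k = 0
      · subst hk; simp [single]
      · by_cases hk' : k = 1
        · subst hk'; simp [single]
        · simp [single, hk, hk']
    rw [e3] at h3
    have h4 := run_mv_single (a := (1 : Fin 3)) (b := 0) (by decide) (code x.1).reverse
    rw [List.reverse_reverse, List.length_reverse] at h4
    refine ⟨_, ?_, .seq h1 (.seq h2 (.seq h3 h4))⟩
    have e : (enc x.1).size = size x.1 := rfl
    rw [length_code, length_code, size_prod, e]
    omega

theorem PT.snd : PT (fun x : α × β => x.2) := by
  refine PT.of (K := Fin 3) (.seq (.pop 0) (.seq (takeTree 0 1 2) (clear 1))) 0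
    (fun n => 1 + ((5 * n + 2) + (2 * n + 1))) ?_ ?_
  · exact (PB.const 1).add ((((PB.const 5).mul PB.id).add (PB.const 2)).add
      (((PB.const 2).mul PB.id).add (PB.const 1)))
  · intro x
    have h1 := Run.pop (0 : Fin 3) (single 0 (code x))
    rw [single_self, update_single, code_prod, List.tail_cons] at h1
    have h2 := run_takeTree (a := (0 : Fin 3)) (b := 1) (c := 2) (by decide) (by decide)
      (by decide) (enc x.1) (single 0 (code x.1 ++ code x.2)) (code x.2) (single_self _ _) rfl
    have e2 : update (update (single (0 : Fin 3) (code x.1 ++ code x.2)) 0 (code x.2)) 1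
        ((enc x.1).ser.reverse ++ single (0 : Fin 3) (code x.1 ++ code x.2) 1) =
        update (single 0 (code x.2)) 1 (code x.1).reverse := by
      rw [update_single]
      simp [single, code]
    rw [e2] at h2
    have h3 := run_clear (1 : Fin 3) (code x.1).reverse
      (update (single 0 (code x.2)) 1 (code x.1).reverse) rfl
    have e3 : update (update (single (0 : Fin 3) (code x.2)) 1 (code x.1).reverse) 1 [] =
        single 0 (code x.2) := by
      funext k
      by_cases hk : k = 1
      · subst hk; simp [single]
      · simp [single, hk]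
    rw [e3] at h3
    refine ⟨_, ?_, .seq h1 (.seq h2 h3)⟩
    have e : (enc x.1).size = size x.1 := rfl
    rw [List.length_reverse, length_code, size_prod, e]
    omega

theorem PT.pair {f : α → β} {g : α → γ} (hf : PT f) (hg : PT g) : PT (fun a => (f a, g a)) := by
  obtain ⟨p, hp⟩ := hf.size_le
  obtain ⟨q, hq⟩ := hg.size_le
  obtain ⟨K1, _, _, P1, k1, T1, h1⟩ := hf
  obtain ⟨K2, _, _, P2, k2, T2, h2⟩ := hg
  let i1 : K1 → K1 ⊕ (K2 ⊕ Unit) := Sum.inl
  let i2 : K2 → K1 ⊕ (K2 ⊕ Unit) := fun k => Sum.inr (Sum.inl k)
  let t : K1 ⊕ (K2 ⊕ Unit) := Sum.inr (Sum.inr ())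
  have hi1 : Injective i1 := Sum.inl_injective
  have hi2 : Injective i2 := Sum.inr_injective.comp Sum.inl_injective
  have n1 : i1 k1 ≠ t := by simp [i1, t]
  have n2 : i2 k2 ≠ t := by simp [i2, t]
  have n12 : ∀ k k', i1 k ≠ i2 k' := by simp [i1, i2]
  have n21 : ∀ k k', i2 k ≠ i1 k' := by simp [i1, i2]
  refine PT.of (.seq (mv (i1 k1) t) (.seq (mv2 t (i1 k1) (i2 k2)) (.seq (P1.map i1)
    (.seq (P2.map i2) (.seq (mv (i1 k1) t) (.seq (mv t (i2 k2)) (.seq (.push (i2 k2) true)
      (mvv (i2 k2) (i1 k1) t)))))))) (i1 k1)
    (fun n => (4 * n + 1) + ((5 * n + 1) + (T1.eval n + (T2.eval n + ((4 * p.eval n + 1) +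
      ((4 * p.eval n + 1) + (1 + (8 * (p.eval n + q.eval n + 1) + 2)))))))) ?_ ?_
  · exact (((PB.const 4).mul PB.id).add (PB.const 1)).add ((((PB.const 5).mul PB.id).add
      (PB.const 1)).add ((PB.poly T1).add ((PB.poly T2).add
      ((((PB.const 4).mul (PB.poly p)).add (PB.const 1)).add
      ((((PB.const 4).mul (PB.poly p)).add (PB.const 1)).add ((PB.const 1).add
      (((PB.const 8).mul (((PB.poly p).add (PB.poly q)).add (PB.const 1))).add
        (PB.const 2))))))))
  · intro a
    obtain ⟨t1, ht1, r1⟩ := h1 a
    obtain ⟨t2, ht2, r2⟩ := h2 a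
    have s1 := run_mv_single n1 (code a)
    have s2 := run_mv2 (Ne.symm n1) (Ne.symm n2) (n12 k1 k2) (code a).reverse
      (single t (code a).reverse) (single_self _ _)
    have e2 : update (update (update (single t (code a).reverse) t []) (i1 k1)
        ((code a).reverse.reverse ++ single t (code a).reverse (i1 k1))) (i2 k2)
        ((code a).reverse.reverse ++ single t (code a).reverse (i2 k2)) =
        update (single (i1 k1) (code a)) (i2 k2) (code a) := by
      rw [single_ne n1, single_ne n2, List.reverse_reverse, List.append_nil]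
      funext k
      by_cases hk : k = i2 k2
      · subst hk; simp
      · by_cases hk' : k = i1 k1
        · subst hk'; simp [hk, single]
        · by_cases hk'' : k = t
          · subst hk''; simp [hk, hk', single]
          · simp [hk, hk', hk'', single]
    rw [e2, List.length_reverse] at s2
    have s3 := embed r1 i1 hi1 (update (single (i1 k1) (code a)) (i2 k2) (code a))
      (by rw [update_of_ne (n12 _ _), single_self])
      (fun k hk => by rw [update_of_ne (n12 _ _), single_ne (fun h => hk (hi1 h))])
    have s4 := embed r2 i2 hi2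
      (update (update (single (i1 k1) (code a)) (i2 k2) (code a)) (i1 k1) (code (f a)))
      (by rw [update_of_ne (n21 _ _), update_self])
      (fun k hk => by
        rw [update_of_ne (n21 _ _), update_of_ne (fun h => hk (hi2 h)), single_ne (n21 _ _)])
    have e4 : update (update (update (single (i1 k1) (code a)) (i2 k2) (code a)) (i1 k1)
        (code (f a))) (i2 k2) (code (g a)) =
        update (single (i1 k1) (code (f a))) (i2 k2) (code (g a)) := by
      funext k
      by_cases hk : k = i2 k2
      · subst hk; simp
      · by_cases hk' : k = i1 k1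
        · subst hk'; simp [hk, single]
        · simp [hk, hk', single]
    rw [e4] at s4
    have s5 := run_mv n1 (code (f a)) (update (single (i1 k1) (code (f a))) (i2 k2) (code (g a)))
      (by rw [update_of_ne (n12 _ _), single_self])
    have e5 : update (update (update (single (i1 k1) (code (f a))) (i2 k2) (code (g a))) (i1 k1)
        []) t ((code (f a)).reverse ++ update (single (i1 k1) (code (f a))) (i2 k2) (code (g a)) t) =
        update (single t (code (f a)).reverse) (i2 k2) (code (g a)) := by
      rw [update_of_ne (Ne.symm n2), single_ne (Ne.symm n1), List.append_nil]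
      funext k
      by_cases hk : k = i2 k2
      · subst hk; rw [update_of_ne n2, update_of_ne (n21 _ _), update_self, update_self]
      · by_cases hk' : k = i1 k1
        · subst hk'; simp [hk, single, n1]
        · by_cases hk'' : k = t
          · subst hk''; simp [hk, single]
          · simp [hk, hk', hk'', single]
    rw [e5] at s5
    have s6 := run_mv (Ne.symm n2) (code (f a)).reverse
      (update (single t (code (f a)).reverse) (i2 k2) (code (g a)))
      (by rw [update_of_ne (Ne.symm n2), single_self])
    have e6 : update (update (update (single t (code (f a)).reverse) (i2 k2) (code (g a))) t [])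
        (i2 k2) ((code (f a)).reverse.reverse ++
          update (single t (code (f a)).reverse) (i2 k2) (code (g a)) (i2 k2)) =
        single (i2 k2) (code (f a) ++ code (g a)) := by
      rw [update_self, List.reverse_reverse]
      funext k
      by_cases hk : k = i2 k2
      · subst hk; simp [single]
      · by_cases hk'' : k = t
        · subst hk''; simp [hk, single]
        · simp [hk, hk'', single]
    rw [e6, List.length_reverse] at s6
    have s7 := Run.push (i2 k2) true (single (i2 k2) (code (f a) ++ code (g a)))
    rw [update_single, single_self] at s7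
    have s8 := run_mvv_single n2 n1 (true :: (code (f a) ++ code (g a)))
    refine ⟨_, ?_, .seq s1 (.seq s2 (.seq s3 (.seq s4 (.seq s5 (.seq s6 (.seq s7 s8))))))⟩
    rw [List.length_cons, List.length_append, length_code, length_code, length_code]
    have b1 := hp a
    have b2 := hq a
    omega

end

end Pool.Agent.Lib.PolyTime
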