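import Pool.Agent.Lib.PolyTime.Core

/-!
# Case distinctions and bounded recursion on lists
-/

namespace Pool.Agent.Lib.PolyTime

open Function

variable {α β γ δ : Type} [Enc α] [Enc β] [Enc γ] [Enc δ]

instance encSubtype (p : α → Prop) : Enc {a : α // p a} where
  enc a := enc a.1
  inj := by
    intro a b h
    exact Subtype.ext (Enc.inj h)

@[simp] theorem enc_subtype {p : α → Prop} (a : {a : α // p a}) : enc a = enc a.1 := rfl

theorem PT.val {p : α → Prop} : PT (fun a : {a : α // p a} => a.1) := PT.of_enc_eq (fun _ => rfl)

theorem PT.restrict {f : α → β} (hf : PT f) (p : α → Prop) : PT (fun a : {a : α // p a} => f a.1) :=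
  hf.comp PT.val

instance encBool : Enc Bool where
  enc b := if b then .node .leaf .leaf else .leaf
  inj := by
    intro a b h
    cases a <;> cases b <;> simp_all

@[simp] theorem enc_true : enc true = BT.node .leaf .leaf := rfl
@[simp] theorem enc_false : enc false = BT.leaf := rfl

/-- Case distinction, with branches defined on the corresponding subtypes only. -/
theorem PT.cond' {c : α → Bool} {f : α → β} (hc : PT c)
    (h1 : PT (fun a : {a : α // c a = true} => f a.1))
    (h0 : PT (fun a : {a : α // c a = false} => f a.1)) : PT f := by
  obtain ⟨q, hq⟩ := h0.size_le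
  obtain ⟨K1, _, _, P1, k1, T1, g1⟩ := h1
  obtain ⟨K2, _, _, P2, k2, T2, g2⟩ := h0
  obtain ⟨K3, _, _, P3, k3, T3, g3⟩ := hc
  let i1 : K1 → K1 ⊕ (K2 ⊕ (K3 ⊕ Unit)) := Sum.inl
  let i2 : K2 → K1 ⊕ (K2 ⊕ (K3 ⊕ Unit)) := fun k => Sum.inr (Sum.inl k)
  let i3 : K3 → K1 ⊕ (K2 ⊕ (K3 ⊕ Unit)) := fun k => Sum.inr (Sum.inr (Sum.inl k))
  let t : K1 ⊕ (K2 ⊕ (K3 ⊕ Unit)) := Sum.inr (Sum.inr (Sum.inr ()))
  have hi1 : Injective i1 := Sum.inl_injective
  have hi2 : Injective i2 := Sum.inr_injective.comp Sum.inl_injective
  have hi3 : Injective i3 := Sum.inr_injective.comp (Sum.inr_injective.comp Sum.inl_injective)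
  have n1 : i1 k1 ≠ t := by simp [i1, t]
  have n2 : i2 k2 ≠ t := by simp [i2, t]
  have n3 : i3 k3 ≠ t := by simp [i3, t]
  have n13 : ∀ k k', i1 k ≠ i3 k' := by simp [i1, i3]
  have n31 : ∀ k k', i3 k ≠ i1 k' := by simp [i1, i3]
  refine PT.of (.seq (mv (i1 k1) t) (.seq (mv2 t (i1 k1) (i3 k3)) (.seq (P3.map i3)
    (.ite (i3 k3) isT (.seq (clear (i3 k3)) (P1.map i1))
      (.seq (clear (i3 k3)) (.seq (mvv (i1 k1) (i2 k2) t) (.seq (P2.map i2)
        (mvv (i2 k2) (i1 k1) t)))))))) (i1 k1)
    (fun n => (4 * n + 1) + ((5 * n + 1) + (T3.eval n + (7 + T1.eval n + ((8 * n + 2) +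
      (T2.eval n + (8 * q.eval n + 2))) + 1)))) ?_ ?_
  · exact (((PB.const 4).mul PB.id).add (PB.const 1)).add ((((PB.const 5).mul PB.id).add
      (PB.const 1)).add ((PB.poly T3).add ((((PB.const 7).add (PB.poly T1)).add
      ((((PB.const 8).mul PB.id).add (PB.const 2)).add ((PB.poly T2).add
      (((PB.const 8).mul (PB.poly q)).add (PB.const 2))))).add (PB.const 1))))
  · intro a
    obtain ⟨t3, ht3, r3⟩ := g3 a
    have s1 := run_mv_single n1 (code a)
    have s2 := run_mv2 (Ne.symm n1) (Ne.symm n3) (n13 k1 k3) (code a).reverse
      (single t (code a).reverse) (single_self _ _)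
    have e2 : update (update (update (single t (code a).reverse) t []) (i1 k1)
        ((code a).reverse.reverse ++ single t (code a).reverse (i1 k1))) (i3 k3)
        ((code a).reverse.reverse ++ single t (code a).reverse (i3 k3)) =
        update (single (i1 k1) (code a)) (i3 k3) (code a) := by
      rw [single_ne n1, single_ne n3, List.reverse_reverse, List.append_nil]
      funext k
      by_cases hk : k = i3 k3
      · subst hk; simp
      · by_cases hk' : k = i1 k1
        · subst hk'; simp [hk, single]
        · by_cases hk'' : k = t
          · subst hk''; simp [hk, hk', single]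
          · simp [hk, hk', hk'', single]
    rw [e2, List.length_reverse] at s2
    have s3 := embed r3 i3 hi3 (update (single (i1 k1) (code a)) (i3 k3) (code a))
      (by rw [update_self])
      (fun k hk => by rw [update_of_ne (fun h => hk (hi3 h)), single_ne (n31 _ _)])
    rw [update_idem] at s3
    have s4 := run_clear (i3 k3) (code (c a))
      (update (single (i1 k1) (code a)) (i3 k3) (code (c a))) (update_self _ _ _)
    have e4 : update (update (single (i1 k1) (code a)) (i3 k3) (code (c a))) (i3 k3) [] =
        single (i1 k1) (code a) := by
      rw [update_idem]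
      funext k
      by_cases hk : k = i3 k3
      · subst hk; rw [update_self, single_ne (n31 _ _)]
      · rw [update_of_ne hk]
    rw [e4] at s4
    have hlen : size (c a) ≤ 3 := by
      cases c a <;> simp [size]
    cases hca : c a with
    | true =>
      obtain ⟨t1, ht1, r1⟩ := g1 ⟨a, hca⟩
      have s5 := embed r1 i1 hi1 (single (i1 k1) (code a)) (single_self _ _)
        (fun k hk => single_ne (fun h => hk (hi1 h)) _)
      rw [update_single] at s5
      refine ⟨_, ?_, .seq s1 (.seq s2 (.seq s3 (.iteT ?_ (.seq s4 s5))))⟩
      · have : size (⟨a, hca⟩ : {a : α // c a = true}) = size a := rfl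
        rw [this] at ht1
        simp only [length_code]
        omega
      · rw [update_self, hca]; rfl
    | false =>
      obtain ⟨t2, ht2, r2⟩ := g2 ⟨a, hca⟩
      have s5 := run_mvv_single n1 n2 (code a)
      have s6 := embed r2 i2 hi2 (single (i2 k2) (code a)) (single_self _ _)
        (fun k hk => single_ne (fun h => hk (hi2 h)) _)
      rw [update_single] at s6
      have s7 := run_mvv_single n2 n1 (code (f a))
      refine ⟨_, ?_, .seq s1 (.seq s2 (.seq s3 (.iteF ?_ (.seq s4 (.seq s5 (.seq s6 s7))))))⟩
      · have : size (⟨a, hca⟩ : {a : α // c a = false}) = size a := rfl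
        rw [this] at ht2
        have b1 := hq ⟨a, hca⟩
        rw [this] at b1
        simp only [length_code]
        simp only at b1
        omega
      · rw [update_self, hca]; rfl

theorem PT.cond {c : α → Bool} {f g : α → β} (hc : PT c) (hf : PT f) (hg : PT g) :
    PT (fun a => if c a then f a else g a) := by
  refine PT.cond' hc ?_ ?_
  · have : (fun a : {a : α // c a = true} => if c a.1 then f a.1 else g a.1) =
        fun a : {a : α // c a = true} => f a.1 := by
      funext a; rw [if_pos a.2]
    rw [this]
    exact hf.restrict _
  · have : (fun a : {a : α // c a = false} => if c a.1 then f a.1 else g a.1) =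
        fun a : {a : α // c a = false} => g a.1 := by
      funext a; rw [if_neg (by rw [a.2]; simp)]
    rw [this]
    exact hg.restrict _

/-- Testing whether the encoding is a leaf. -/
theorem PT.isLeaf : PT (fun a : α => decide (enc a = BT.leaf)) := by
  refine PT.of (K := Unit) (.seq (.ite () isT (.seq (clear ()) (.seq (.push () false)
    (.seq (.push () false) (.push () true)))) (.seq (clear ()) (.push () false)))
      (.ite () isT (.seq (clear ()) (.push () false))
        (.seq (clear ()) (.seq (.push () false)
    (.seq (.push () false) (.push () true)))))) ()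
    (fun n => 2 * n + 40) (((PB.const 2).mul PB.id).add (PB.const 40)) ?_
  intro a
  have hcl : ∀ w : List Bool, Run (clear ()) (single () w) (single () []) (2 * w.length + 1) := by
    intro w
    have := run_clear (K := Unit) () w (single () w) (single_self _ _)
    rwa [update_single] at this
  have hpush : ∀ (b : Bool) (w : List Bool), Run (.push () b) (single () w)
      (single () (b :: w)) 1 := by
    intro b w
    have := Run.push (K := Unit) () b (single () w)
    rwa [update_single, single_self] at this
  cases h : enc a with
  | leaf =>
    have e : code a = [false] := by simp [code, h, BT.ser]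
    have e2 : code (decide (BT.leaf = BT.leaf)) = [true, false, false] := by
      simp [code, BT.ser]
    rw [e2, e]
    have h1 := Run.iteF (k := ()) (p := isT) (P := .seq (clear ()) (.seq (.push () false)
      (.seq (.push () false) (.push () true)))) (s := single () [false]) (by rfl)
      (.seq (hcl [false]) (hpush false []))
    have h2 := Run.iteF (k := ()) (p := isT) (P := .seq (clear ()) (.push () false))
      (s := single () [false]) (by rfl) (.seq (hcl [false]) (.seq (hpush false [])
        (.seq (hpush false _) (hpush true _))))
    refine ⟨_, ?_, .seq h1 h2⟩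
    simp
  | node l r =>
    have e : code a = true :: (l.ser ++ r.ser) := by simp [code, h, BT.ser]
    have e2 : code (decide (BT.node l r = BT.leaf)) = [false] := by
      simp [code, BT.ser]
    rw [e2]
    have h1 := Run.iteT (k := ()) (p := isT) (Q := .seq (clear ()) (.push () false))
      (s := single () (code a)) (by rw [single_self, e]; rfl) (.seq (hcl (code a))
        (.seq (hpush false []) (.seq (hpush false _) (hpush true _))))
    have h2 := Run.iteT (k := ()) (p := isT) (Q := .seq (clear ()) (.seq (.push () false)
      (.seq (.push () false) (.push () true))))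
      (s := single () [true, false, false]) (by rfl)
      (.seq (hcl _) (hpush false _))
    refine ⟨_, ?_, .seq h1 h2⟩
    rw [length_code]
    simp

/-! ### Lists -/

/-- Encoding of lists. -/
def encList : List α → BT
  | [] => .leaf
  | a :: l => .node (enc a) (encList l)

instance encListInst : Enc (List α) where
  enc := encList
  inj := by
    intro l
    induction l with
    | nil => intro l' h; cases l' with
      | nil => rfl
      | cons b l' => simp [encList] at h
    | cons a l ih => intro l' h; cases l' with
      | nil => simp [encList] at h
      | cons b l' =>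
        simp only [encList, BT.node.injEq] at h
        rw [Enc.inj h.1, ih h.2]

@[simp] theorem enc_nil : enc ([] : List α) = BT.leaf := rfl
@[simp] theorem enc_cons (a : α) (l : List α) : enc (a :: l) = BT.node (enc a) (enc l) := rfl

theorem code_cons (a : α) (l : List α) : code (a :: l) = true :: (code a ++ code l) := rfl

@[simp] theorem size_nil : size ([] : List α) = 1 := rfl
@[simp] theorem size_cons (a : α) (l : List α) : size (a :: l) = size a + size l + 1 := by
  simp [size]

theorem length_le_size (l : List α) : l.length ≤ size l := by
  induction l with
  | nil => simp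
  | cons a l ih => simp only [List.length_cons, size_cons]; omega

theorem PT.cons {f : α → β} {g : α → List β} (hf : PT f) (hg : PT g) :
    PT (fun a => f a :: g a) := by
  have h : PT (fun x : β × List β => x.1 :: x.2) := PT.of_enc_eq (fun _ => rfl)
  exact h.comp (hf.pair hg)

theorem PT.isNil {f : α → List β} (hf : PT f) : PT (fun a => (f a).isEmpty) := by
  have h : PT (fun l : List β => l.isEmpty) := by
    have := PT.isLeaf (α := List β)
    have e : (fun l : List β => decide (enc l = BT.leaf)) = fun l => l.isEmpty := by
      funext l; cases l <;> simp
    rwa [e] at this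
  exact h.comp hf

/-- Case distinction on a list. -/
theorem PT.listCases {f : α → List β} {g : α → γ} {h : α → β → List β → γ} (hf : PT f)
    (hg : PT g) (hh : PT (fun x : α × (β × List β) => h x.1 x.2.1 x.2.2)) :
    PT (fun a => match f a with
      | [] => g a
      | b :: l => h a b l) := by
  have key : PT (fun x : α × List β => match x.2 with
      | [] => g x.1
      | b :: l => h x.1 b l) := by
    refine PT.cond' (c := fun x : α × List β => x.2.isEmpty) (PT.isNil PT.snd) ?_ ?_
    · have : (fun a : {x : α × List β // x.2.isEmpty = true} => match a.1.2 with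
          | [] => g a.1.1
          | b :: l => h a.1.1 b l) = fun a => g a.1.1 := by
        funext ⟨⟨a, l⟩, hl⟩
        cases l with
        | nil => rfl
        | cons b l => simp at hl
      rw [this]
      exact (hg.comp PT.fst).restrict _
    · -- the identity cast
      let cast : {x : α × List β // x.2.isEmpty = false} → α × (β × List β) := fun x =>
        match x with
        | ⟨⟨a, b :: l⟩, _⟩ => (a, (b, l))
      have hc : PT cast := by
        refine PT.of_enc_eq ?_
        rintro ⟨⟨a, l⟩, hl⟩
        cases l with
        | nil => simp at hl
        | cons b l => rfl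
      have := hh.comp hc
      have e : (fun a : {x : α × List β // x.2.isEmpty = false} => match a.1.2 with
          | [] => g a.1.1
          | b :: l => h a.1.1 b l) = fun a => h (cast a).1 (cast a).2.1 (cast a).2.2 := by
        funext ⟨⟨a, l⟩, hl⟩
        cases l with
        | nil => simp at hl
        | cons b l => rfl
      rw [e]
      exact this
  exact key.comp (PT.id.pair hf)

/-! ### Recursion on lists -/

/-- The main loop of the recursion. -/
def foldLoop {K : Type} (k L t c : K) (P : Prog K) : Prog K :=
  .loop L isT (.seq (.pop L) (.seq (takeTree L t c) (.seq (mv t k) (.seq (.push k true) P))))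

theorem run_foldLoop {K : Type} [DecidableEq K] {k L t c : K} (hkL : k ≠ L) (hkt : k ≠ t)
    (hLt : L ≠ t) (hLc : L ≠ c) (htc : t ≠ c) (hkc : k ≠ c) {P : Prog K}
    {step : α × β → β} {T : ℕ → ℕ} (hT : Monotone T)
    (hP : ∀ (x : α × β) (u : List Bool), ∃ τ, τ ≤ T (size x) ∧
      Run P (update (single k (code x)) L u) (update (single k (code (step x))) L u) τ)
    (M N : ℕ) : ∀ (l : List α) (b : β), size l ≤ N →
      (∀ l', l' <+: l → size (l'.foldl (fun b a => step (a, b)) b) ≤ M) →
      ∃ τ, τ ≤ l.length * (9 * N + 20 + T (N + M + 1)) + 1 ∧
        Run (foldLoop k L t c P) (update (single k (code b)) L (code l))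
          (update (single k (code (l.foldl (fun b a => step (a, b)) b))) L [false]) τ := by
  intro l
  induction l with
  | nil =>
    intro b _ _
    refine ⟨1, by omega, .loopF ?_⟩
    rw [update_self]
    rfl
  | cons a l ih =>
    intro b hN hM
    have hMb : size b ≤ M := hM [] (List.nil_prefix)
    obtain ⟨τ2, hτ2, r2⟩ := ih (step (a, b)) (by rw [size_cons] at hN; omega)
      (fun l' hl' => by
        have := hM (a :: l') (List.cons_prefix_cons.mpr ⟨rfl, hl'⟩)
        simpa using this)
    obtain ⟨τ1, hτ1, r1⟩ := hP (a, b) (code l)
    have hsz : size (a, b) ≤ N + M + 1 := by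
      rw [size_prod]; rw [size_cons] at hN
      simp only
      omega
    have hτ1' := hτ1.trans (hT hsz)
    -- pop
    have h1 : Run (.pop L) (update (single k (code b)) L (code (a :: l)))
        (update (single k (code b)) L (code a ++ code l)) 1 := by
      have := Run.pop L (update (single k (code b)) L (code (a :: l)))
      rwa [update_self, update_idem, code_cons, List.tail_cons] at this
    have h2 := run_takeTree hLt hLc htc (enc a)
      (update (single k (code b)) L (code a ++ code l)) (code l) (by rw [update_self]; rfl)
      (by rw [update_of_ne (Ne.symm hLc), single_ne (Ne.symm hkc)])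
    have h3 := run_mv (Ne.symm hkt) (code a).reverse
      (update (update (update (single k (code b)) L (code a ++ code l)) L (code l)) t
      ((enc a).ser.reverse ++ update (single k (code b)) L (code a ++ code l) t))
      (by rw [update_self, update_of_ne (Ne.symm hLt), single_ne (Ne.symm hkt),
            List.append_nil]; rfl)
    have e3 : update (update (update (update (update (single k (code b)) L (code a ++ code l)) L
        (code l)) t ((enc a).ser.reverse ++ update (single k (code b)) L
        (code a ++ code l) t)) t []) k ((code a).reverse.reverse ++
        update (update (update (single k (code b)) L (code a ++ code l)) L (code l)) t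
        ((enc a).ser.reverse ++ update (single k (code b)) L (code a ++ code l) t) k) =
        update (single k (code a ++ code b)) L (code l) := by
      have e0 : update (update (update (single k (code b)) L (code a ++ code l)) L (code l)) t
          ((enc a).ser.reverse ++ update (single k (code b)) L (code a ++ code l) t) k =
          code b := by
        rw [update_of_ne hkt, update_of_ne hkL, update_of_ne hkL, single_self]
      rw [e0, List.reverse_reverse, update_idem, update_idem]
      funext x
      by_cases hx : x = k
      · subst hx; rw [update_self, update_of_ne hkL, single_self]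
      · by_cases hx' : x = t
        · subst hx'; rw [update_of_ne hx, update_self, update_of_ne (Ne.symm hLt), single_ne hx]
        · by_cases hx'' : x = L
          · subst hx''
            rw [update_of_ne hx, update_of_ne hx', update_self, update_self]
          · rw [update_of_ne hx, update_of_ne hx', update_of_ne hx'', update_of_ne hx'',
              single_ne hx, single_ne hx]
    rw [e3, List.length_reverse] at h3
    have h4 : Run (.push k true) (update (single k (code a ++ code b)) L (code l))
        (update (single k (code (a, b))) L (code l)) 1 := by
      have := Run.push k true (update (single k (code a ++ code b)) L (code l))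
      rw [update_of_ne hkL, single_self] at this
      have e : update (update (single k (code a ++ code b)) L (code l)) k
          (true :: (code a ++ code b)) = update (single k (code (a, b))) L (code l) := by
        funext x
        by_cases hx : x = k
        · subst hx; rw [update_self, update_of_ne hkL, single_self]; rfl
        · by_cases hx'' : x = L
          · subst hx''
            rw [update_of_ne hx, update_self, update_self]
          · rw [update_of_ne hx, update_of_ne hx'', update_of_ne hx'', single_ne hx, single_ne hx]
      rwa [e] at this
    have h5 := Run.seq h1 (.seq h2 (.seq h3 (.seq h4 r1)))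
    have h6 := Run.loopT (k := L) (p := isT) (by rw [update_self, code_cons]; rfl) h5 r2
    refine ⟨_, ?_, h6⟩
    have e : (enc a).size = size a := rfl
    have hsa : size a ≤ N := by rw [size_cons] at hN; omega
    rw [length_code, e, List.length_cons, Nat.add_mul]
    omega

/-- Recursion on lists with polynomially bounded intermediate results (on a set `p` of
inputs). -/
theorem PT.foldl' {step : α × β → β} (hs : PT step) (p : List α × β → Prop) (B : Polynomial ℕ)
    (hB : ∀ (l : List α) (b : β), p (l, b) → ∀ (l' : List α), l' <+: l →
      size (l'.foldl (fun b a => step (a, b)) b) ≤ B.eval (size (l, b))) :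
    PT (fun x : {x : List α × β // p x} => x.1.1.foldl (fun b a => step (a, b)) x.1.2) := by
  obtain ⟨K1, _, _, P1, k1, T1, h1⟩ := hs
  let i : K1 → K1 ⊕ Fin 3 := Sum.inl
  let L : K1 ⊕ Fin 3 := Sum.inr 0
  let t : K1 ⊕ Fin 3 := Sum.inr 1
  let c : K1 ⊕ Fin 3 := Sum.inr 2
  have hi : Injective i := Sum.inl_injective
  have hkL : i k1 ≠ L := by simp [i, L]
  have hkt : i k1 ≠ t := by simp [i, t]
  have hkc : i k1 ≠ c := by simp [i, c]
  have hLt : L ≠ t := by simp [L, t]
  have hLc : L ≠ c := by simp [L, c]
  have htc : t ≠ c := by simp [t, c]
  have hiL : ∀ k, i k ≠ L := by simp [i, L]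
  refine PT.of (.seq (.pop (i k1)) (.seq (takeTree (i k1) t c) (.seq (mv t L)
    (.seq (foldLoop (i k1) L t c (P1.map i)) (.pop L))))) (i k1)
    (fun n => 1 + ((5 * n + 2) + ((4 * n + 1) + ((n * (9 * n + 20 +
      T1.eval (n + B.eval n + 1)) + 1) + 1)))) ?_ ?_
  · exact (PB.const 1).add ((((PB.const 5).mul PB.id).add (PB.const 2)).add
      ((((PB.const 4).mul PB.id).add (PB.const 1)).add (((PB.id.mul
      ((((PB.const 9).mul PB.id).add (PB.const 20)).add (PB.comp T1
      ((PB.id.add (PB.poly B)).add (PB.const 1))))).add (PB.const 1)).add (PB.const 1))))
  · rintro ⟨⟨l, b⟩, hp⟩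
    have ec : code (⟨(l, b), hp⟩ : {x : List α × β // p x}) = code (l, b) := rfl
    have es : size (⟨(l, b), hp⟩ : {x : List α × β // p x}) = size (l, b) := rfl
    rw [ec, es]
    have s1 : Run (.pop (i k1)) (single (i k1) (code (l, b)))
        (single (i k1) (code l ++ code b)) 1 := by
      have := Run.pop (i k1) (single (i k1) (code (l, b)))
      rwa [single_self, update_single, code_prod, List.tail_cons] at this
    have s2 := run_takeTree hkt hkc htc (enc l) (single (i k1) (code l ++ code b)) (code b)
      (single_self _ _) (single_ne (Ne.symm hkc) _)
    have e2 : update (update (single (i k1) (code l ++ code b)) (i k1) (code b)) t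
        ((enc l).ser.reverse ++ single (i k1) (code l ++ code b) t) =
        update (single (i k1) (code b)) t (code l).reverse := by
      rw [update_single, single_ne (Ne.symm hkt), List.append_nil]; rfl
    rw [e2] at s2
    have s3 := run_mv (Ne.symm hLt) (code l).reverse
      (update (single (i k1) (code b)) t (code l).reverse) (update_self _ _ _)
    have e3 : update (update (update (single (i k1) (code b)) t (code l).reverse) t []) L
        ((code l).reverse.reverse ++ update (single (i k1) (code b)) t (code l).reverse L) =
        update (single (i k1) (code b)) L (code l) := by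
      rw [List.reverse_reverse, update_of_ne hLt, single_ne (Ne.symm hkL), List.append_nil,
        update_idem]
      congr 1
      funext x
      by_cases hx : x = t
      · subst hx; rw [update_self, single_ne (Ne.symm hkt)]
      · rw [update_of_ne hx]
    rw [e3, List.length_reverse] at s3
    obtain ⟨τ, hτ, s4⟩ := run_foldLoop (α := α) (β := β) hkL hkt hLt hLc htc hkc
      (P := P1.map i) (step := step) (T := fun n => T1.eval n)
      (fun m n h => eval_mono T1 h)
      (fun x u => by
        obtain ⟨τ, hτ, r⟩ := h1 x
        refine ⟨τ, hτ, ?_⟩
        have := embed r i hi (update (single (i k1) (code x)) L u)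
          (by rw [update_of_ne hkL, single_self])
          (fun k hk => by rw [update_of_ne (hiL _), single_ne (fun h => hk (hi h))])
        rwa [update_comm (Ne.symm hkL), update_single] at this)
      (B.eval (size (l, b))) (size (l, b)) l b (by rw [size_prod]; simp only; omega)
      (fun l' hl' => hB l b hp l' hl')
    have s5 : Run (.pop L) (update (single (i k1) (code (l.foldl (fun b a => step (a, b)) b))) L
        [false]) (single (i k1) (code (l.foldl (fun b a => step (a, b)) b))) 1 := by
      have := Run.pop L (update (single (i k1) (code (l.foldl (fun b a => step (a, b)) b))) L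
        [false])
      rw [update_self, update_idem, List.tail_cons] at this
      have e : update (single (i k1) (code (l.foldl (fun b a => step (a, b)) b))) L [] =
          single (i k1) (code (l.foldl (fun b a => step (a, b)) b)) := by
        funext x
        by_cases hx : x = L
        · subst hx; rw [update_self, single_ne (Ne.symm hkL)]
        · rw [update_of_ne hx]
      rwa [e] at this
    refine ⟨_, ?_, .seq s1 (.seq s2 (.seq s3 (.seq s4 s5)))⟩
    have e : (enc l).size = size l := rfl
    rw [length_code, e]
    have hl := length_le_size l
    have hle : size l ≤ size (l, b) := by rw [size_prod]; simp only; omega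
    have hmul := Nat.mul_le_mul_right (9 * size (l, b) + 20 +
      T1.eval (size (l, b) + B.eval (size (l, b)) + 1)) (hl.trans hle)
    omega

end Pool.Agent.Lib.PolyTime
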