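import Pool.Agent.Lib.PolyTime.Ctrl
import Mathlib.Data.Fintype.Basic
import Mathlib.Data.List.Basic
import Mathlib.Data.List.Infix
import Mathlib.Data.List.FinRange

/-!
# Derived closure properties: folds with parameters, map, append, reverse, flatMap, finite types,
unary natural numbers, ranges
-/

namespace Pool.Agent.Lib.PolyTime

open Function

variable {α β γ δ σ : Type} [Enc α] [Enc β] [Enc γ] [Enc δ] [Enc σ]

/-! ### Small types -/

/-- Encoding through an injection. -/
@[reducible] def Enc.ofInj {α β : Type} [Enc β] (f : α → β) (hf : Injective f) : Enc α where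
  enc a := enc (f a)
  inj := Enc.inj.comp hf

instance encUnit : Enc Unit where
  enc _ := .leaf
  inj := fun _ _ _ => rfl

@[simp] theorem enc_unit (u : Unit) : enc u = BT.leaf := rfl

instance encBT : Enc BT where
  enc x := x
  inj := fun _ _ h => h

theorem PT.congr {f g : α → β} (hf : PT f) (h : ∀ a, f a = g a) : PT g := by
  have : f = g := funext h
  rwa [← this]

theorem PT.fst' {f : α → β × γ} (hf : PT f) : PT (fun a => (f a).1) := PT.fst.comp hf
theorem PT.snd' {f : α → β × γ} (hf : PT f) : PT (fun a => (f a).2) := PT.snd.comp hf

theorem PT.comp₂ {g : β → γ → δ} {f : α → β} {f' : α → γ}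
    (hg : PT (fun x : β × γ => g x.1 x.2)) (hf : PT f) (hf' : PT f') :
    PT (fun a => g (f a) (f' a)) :=
  PT.comp (g := fun x : β × γ => g x.1 x.2) hg (hf.pair hf')

/-! ### Booleans -/

theorem PT.ite {c : α → Prop} [DecidablePred c] {f g : α → β} (hc : PT (fun a => decide (c a)))
    (hf : PT f) (hg : PT g) : PT (fun a => if c a then f a else g a) := by
  refine (PT.cond hc hf hg).congr (fun a => ?_)
  by_cases h : c a <;> simp [h]

theorem PT.not {f : α → Bool} (hf : PT f) : PT (fun a => !(f a)) :=
  (PT.cond hf (PT.const false) (PT.const true)).congr (fun a => by cases f a <;> rfl)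

theorem PT.and {f g : α → Bool} (hf : PT f) (hg : PT g) : PT (fun a => f a && g a) :=
  (PT.cond hf hg (PT.const false)).congr (fun a => by cases f a <;> simp)

theorem PT.or {f g : α → Bool} (hf : PT f) (hg : PT g) : PT (fun a => f a || g a) :=
  (PT.cond hf (PT.const true) hg).congr (fun a => by cases f a <;> simp)

/-! ### Comparison with a constant, finite types -/

/-- The right component of a tree. -/
def BT.snd' : BT → BT
  | .leaf => .leaf
  | .node _ r => r

/-- Comparison of a tree with a constant. -/
theorem PT.eqConstBT (c : BT) : PT (fun x : BT => decide (x = c)) := by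
  induction c with
  | leaf =>
    exact PT.isLeaf (α := BT)
  | node l r ihl ihr =>
    refine PT.cond' (c := fun x : BT => decide (x = BT.leaf)) (PT.isLeaf (α := BT)) ?_ ?_
    · have : (fun a : {x : BT // decide (x = BT.leaf) = true} =>
          decide (a.1 = BT.node l r)) = fun _ => false := by
        funext ⟨x, hx⟩
        have : x = BT.leaf := by simpa using hx
        subst this
        simp
      rw [this]
      exact PT.const false
    · let cast : {x : BT // decide (x = BT.leaf) = false} → BT × BT := fun x =>
        match x with
        | ⟨.node a b, _⟩ => (a, b)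
      have hc : PT cast := by
        refine PT.of_enc_eq ?_
        rintro ⟨x, hx⟩
        cases x with
        | leaf => simp at hx
        | node a b => rfl
      have h1 := (ihl.comp PT.fst).comp hc
      have h2 := (ihr.comp PT.snd).comp hc
      refine (h1.and h2).congr ?_
      rintro ⟨x, hx⟩
      cases x with
      | leaf => simp at hx
      | node a b => simp [cast]

theorem PT.eqConst [DecidableEq α] (c : α) : PT (fun x : α => decide (x = c)) := by
  have h1 : PT (fun x : α => enc x) := PT.of_enc_eq (β := BT) (fun a => rfl)
  refine ((PT.eqConstBT (enc c)).comp h1).congr (fun a => ?_)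
  by_cases h : a = c
  · simp [h]
  · have : enc a ≠ enc c := fun h' => h (Enc.inj h')
    simp [h, this]

/-- Case distinction over a finite type. -/
theorem PT.finCases {ι : Type} [Enc ι] [Fintype ι] [DecidableEq ι] {F : ι → α → β}
    (hF : ∀ i, PT (F i)) {f : α → ι} (hf : PT f) : PT (fun a => F (f a) a) := by
  have key : ∀ L : List ι, PT (fun a : {a : α // f a ∈ L} => F (f a.1) a.1) := by
    intro L
    induction L with
    | nil =>
      refine PT.of (K := Unit) .skip () (fun _ => 1) (PB.const 1) ?_
      rintro ⟨a, ha⟩
      simp at ha
    | cons i L ih =>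
      refine PT.cond' (c := fun a : {a : α // f a ∈ i :: L} => decide (f a.1 = i))
        ((PT.eqConst i).comp (hf.restrict _)) ?_ ?_
      · have e : (fun a : {a : {a : α // f a ∈ i :: L} // decide (f a.1 = i) = true} =>
            F (f a.1.1) a.1.1) = fun a => F i a.1.1 := by
          funext ⟨a, ha⟩
          have : f a.1 = i := by simpa using ha
          simp [this]
        rw [e]
        exact ((hF i).restrict _).restrict _
      · let cast : {a : {a : α // f a ∈ i :: L} // decide (f a.1 = i) = false} →
            {a : α // f a ∈ L} := fun a => ⟨a.1.1, by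
          obtain ⟨⟨a, ha⟩, hi⟩ := a
          have : f a ≠ i := by simpa using hi
          simpa [this] using ha⟩
        have hc : PT cast := PT.of_enc_eq (fun _ => rfl)
        exact ih.comp hc
  have h := key (Finset.univ : Finset ι).toList
  let cast : α → {a : α // f a ∈ (Finset.univ : Finset ι).toList} := fun a => ⟨a, by simp⟩
  have hc : PT cast := PT.of_enc_eq (fun _ => rfl)
  exact h.comp hc

theorem PT.ofFintype {ι : Type} [Enc ι] [Fintype ι] [DecidableEq ι] (F : ι → β) : PT F :=
  PT.finCases (α := ι) (F := fun i _ => F i) (fun _ => PT.const _) PT.id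

/-! ### Recursion on lists with parameters -/

/-- Recursion on lists, with a parameter and with polynomially bounded intermediate results. -/
theorem PT.foldl {f : α → List β} {init : α → σ} {step : α → σ → β → σ} (hf : PT f)
    (hi : PT init) (hs : PT (fun x : α × (σ × β) => step x.1 x.2.1 x.2.2))
    {B : ℕ → ℕ} (hBp : PB B)
    (hB : ∀ (a : α) (l' : List β), l' <+: f a → size (l'.foldl (step a) (init a)) ≤ B (size a)) :
    PT (fun a => (f a).foldl (step a) (init a)) := by
  obtain ⟨q, hq⟩ := hBp
  let step' : β × (α × σ) → α × σ := fun x => (x.2.1, step x.2.1 x.2.2 x.1)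
  have hs' : PT step' := by
    have h1 : PT (fun x : β × (α × σ) => x.2.1) := PT.snd.fst'
    have h2 : PT (fun x : β × (α × σ) => x.2.2) := PT.snd.snd'
    have h3 : PT (fun x : β × (α × σ) => x.1) := PT.fst
    exact h1.pair (PT.comp (g := fun x : α × (σ × β) => step x.1 x.2.1 x.2.2) hs
      (h1.pair (h2.pair h3)))
  have hfold : ∀ (a : α) (l : List β) (s : σ),
      l.foldl (fun b c => step' (c, b)) (a, s) = (a, l.foldl (step a) s) := by
    intro a l
    induction l with
    | nil => intro s; rfl
    | cons b l ih => intro s; simp only [List.foldl_cons]; exact ih _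
  have key := PT.foldl' hs' (fun x : List β × (α × σ) => x.1 = f x.2.1 ∧ x.2.2 = init x.2.1)
    (Polynomial.X + q + 1) (by
      rintro l ⟨a, s⟩ ⟨h1, h2⟩ l' hl'
      simp only at h1 h2
      subst h1 h2
      rw [hfold, size_prod]
      have h3 := hB a l' hl'
      have h4 := hq (size a)
      have h5 : size a ≤ size (f a, (a, init a)) := by
        rw [size_prod, size_prod]; simp only; omega
      have h6 := eval_mono q h5
      rw [Polynomial.eval_add, Polynomial.eval_add, Polynomial.eval_X, Polynomial.eval_one]
      simp only
      omega)
  let cast : α → {x : List β × (α × σ) // x.1 = f x.2.1 ∧ x.2.2 = init x.2.1} :=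
    fun a => ⟨(f a, (a, init a)), rfl, rfl⟩
  have hc : PT cast := by
    have h1 := hf.pair (PT.id.pair hi)
    obtain ⟨K, hK1, hK2, P, k₀, T, h⟩ := h1
    exact ⟨K, hK1, hK2, P, k₀, T, h⟩
  refine ((key.comp hc).snd').congr (fun a => ?_)
  simp only [cast, hfold]

/-- Recursion on lists where every step increases the size by a bounded amount. -/
theorem PT.foldl_add {f : α → List β} {init : α → σ} {step : α → σ → β → σ} (hf : PT f)
    (hi : PT init) (hs : PT (fun x : α × (σ × β) => step x.1 x.2.1 x.2.2))
    {C : ℕ → ℕ} (hC : PB C)
    (hB : ∀ (a : α) (s : σ) (b : β), b ∈ f a → size (step a s b) ≤ size s + C (size a)) :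
    PT (fun a => (f a).foldl (step a) (init a)) := by
  obtain ⟨p, hp⟩ := hf.size_le
  obtain ⟨q, hq⟩ := hi.size_le
  refine PT.foldl hf hi hs (B := fun n => q.eval n + p.eval n * C n)
    ((PB.poly q).add ((PB.poly p).mul hC)) ?_
  have key : ∀ (a : α) (l : List β) (s : σ), (∀ b ∈ l, b ∈ f a) →
      size (l.foldl (step a) s) ≤ size s + l.length * C (size a) := by
    intro a l
    induction l with
    | nil => intro s _; simp
    | cons b l ih =>
      intro s hl
      have h1 := ih (step a s b) (fun b' hb' => hl b' (List.mem_cons_of_mem _ hb'))
      have h2 := hB a s b (hl b List.mem_cons_self)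
      rw [List.foldl_cons, List.length_cons, Nat.add_mul]
      omega
  intro a l' hl'
  have h1 := key a l' (init a) (fun b hb => hl'.subset hb)
  have h2 := hq a
  have h3 : l'.length ≤ p.eval (size a) :=
    hl'.length_le.trans ((length_le_size _).trans (hp a))
  have h4 := Nat.mul_le_mul_right (C (size a)) h3
  omega

theorem size_mem_lt {l : List β} {b : β} (h : b ∈ l) : size b < size l := by
  induction l with
  | nil => simp at h
  | cons a l ih =>
    rcases List.mem_cons.mp h with rfl | h
    · rw [size_cons]; omega
    · have := ih h
      rw [size_cons]; omega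

theorem PT.reverse {f : α → List β} (hf : PT f) : PT (fun a => (f a).reverse) := by
  obtain ⟨p, hp⟩ := hf.size_le
  have h := PT.foldl_add (f := f) (init := fun _ => ([] : List β))
    (step := fun _ s b => b :: s) hf (PT.const _)
    (PT.cons PT.snd.snd' PT.snd.fst') (C := fun n => p.eval n + 1)
    ((PB.poly p).add (PB.const 1)) (fun a s b hb => by
      have h1 := size_mem_lt hb
      have h2 := hp a
      rw [size_cons]; omega)
  refine h.congr (fun a => ?_)
  have : ∀ (l s : List β), l.foldl (fun s b => b :: s) s = l.reverse ++ s := by
    intro l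
    induction l with
    | nil => intro s; simp
    | cons b l ih => intro s; rw [List.foldl_cons, ih]; simp
  rw [this]; simp

theorem PT.append {f g : α → List β} (hf : PT f) (hg : PT g) : PT (fun a => f a ++ g a) := by
  obtain ⟨p, hp⟩ := hf.size_le
  have h := PT.foldl_add (f := fun a => (f a).reverse) (init := g)
    (step := fun _ s b => b :: s) hf.reverse hg
    (PT.cons PT.snd.snd' PT.snd.fst') (C := fun n => p.eval n + 1)
    ((PB.poly p).add (PB.const 1)) (fun a s b hb => by
      have h1 := size_mem_lt (List.mem_reverse.mp hb)
      have h2 := hp a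
      rw [size_cons]; omega)
  refine h.congr (fun a => ?_)
  have : ∀ (l s : List β), l.foldl (fun s b => b :: s) s = l.reverse ++ s := by
    intro l
    induction l with
    | nil => intro s; simp
    | cons b l ih => intro s; rw [List.foldl_cons, ih]; simp
  rw [this]; simp

theorem PT.map {f : α → List β} {g : α → β → γ} (hf : PT f)
    (hg : PT (fun x : α × β => g x.1 x.2)) : PT (fun a => (f a).map (g a)) := by
  obtain ⟨p, hp⟩ := hf.size_le
  obtain ⟨q, hq⟩ := hg.size_le
  have h := PT.foldl_add (f := fun a => (f a).reverse) (init := fun _ => ([] : List γ))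
    (step := fun a s b => g a b :: s) hf.reverse (PT.const _)
    (PT.cons (hg.comp (PT.fst.pair PT.snd.snd')) PT.snd.fst')
    (C := fun n => q.eval (n + p.eval n + 1) + 1)
    ((PB.comp q ((PB.id.add (PB.poly p)).add (PB.const 1))).add (PB.const 1))
    (fun a s b hb => by
      have h1 := size_mem_lt (List.mem_reverse.mp hb)
      have h2 := hp a
      have h3 := hq (a, b)
      have h4 : size (a, b) ≤ size a + p.eval (size a) + 1 := by
        rw [size_prod]; simp only; omega
      have h5 := eval_mono q h4
      simp only at h3
      rw [size_cons]; omega)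
  refine h.congr (fun a => ?_)
  have : ∀ (l : List β) (s : List γ), l.foldl (fun s b => g a b :: s) s =
      (l.map (g a)).reverse ++ s := by
    intro l
    induction l with
    | nil => intro s; simp
    | cons b l ih => intro s; rw [List.foldl_cons, ih]; simp
  rw [this]; simp

theorem size_append (l l' : List β) : size (l ++ l') + 1 = size l + size l' := by
  induction l with
  | nil => simp; omega
  | cons a l ih => rw [List.cons_append, size_cons, size_cons]; omega

theorem size_reverse (l : List β) : size l.reverse = size l := by
  induction l with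
  | nil => rfl
  | cons b l ih =>
    have h := size_append l.reverse [b]
    rw [size_cons, size_nil] at h
    rw [List.reverse_cons, size_cons]
    omega

theorem PT.flatMap {f : α → List β} {g : α → β → List γ} (hf : PT f)
    (hg : PT (fun x : α × β => g x.1 x.2)) : PT (fun a => (f a).flatMap (g a)) := by
  obtain ⟨p, hp⟩ := hf.size_le
  obtain ⟨q, hq⟩ := hg.size_le
  have h := PT.foldl_add (f := fun a => (f a).reverse) (init := fun _ => ([] : List γ))
    (step := fun a s b => g a b ++ s) hf.reverse (PT.const _)
    (PT.append (hg.comp (PT.fst.pair PT.snd.snd')) PT.snd.fst')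
    (C := fun n => q.eval (n + p.eval n + 1) + 1)
    ((PB.comp q ((PB.id.add (PB.poly p)).add (PB.const 1))).add (PB.const 1))
    (fun a s b hb => by
      have h1 := size_mem_lt (List.mem_reverse.mp hb)
      have h2 := hp a
      have h3 := hq (a, b)
      have h4 : size (a, b) ≤ size a + p.eval (size a) + 1 := by
        rw [size_prod]; simp only; omega
      have h5 := eval_mono q h4
      simp only at h3
      have h6 := size_append (g a b) s
      omega)
  refine h.congr (fun a => ?_)
  have : ∀ (l : List β) (s : List γ), l.foldl (fun s b => g a b ++ s) s =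
      l.reverse.flatMap (g a) ++ s := by
    intro l
    induction l with
    | nil => intro s; simp
    | cons b l ih => intro s; rw [List.foldl_cons, ih]; simp
  rw [this]; simp

/-! ### Unary natural numbers -/

/-- Encoding of natural numbers in unary. -/
def encNat : ℕ → BT
  | 0 => .leaf
  | n + 1 => .node .leaf (encNat n)

instance encNatInst : Enc ℕ where
  enc := encNat
  inj := by
    intro m
    induction m with
    | zero => intro n h; cases n with
      | zero => rfl
      | succ n => simp [encNat] at h
    | succ m ih => intro n h; cases n with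
      | zero => simp [encNat] at h
      | succ n =>
        simp only [encNat, BT.node.injEq, true_and] at h
        rw [ih h]

@[simp] theorem enc_zero : enc (0 : ℕ) = BT.leaf := rfl
@[simp] theorem enc_succ (n : ℕ) : enc (n + 1) = BT.node BT.leaf (enc n) := rfl

@[simp] theorem size_nat (n : ℕ) : size n = 2 * n + 1 := by
  induction n with
  | zero => rfl
  | succ n ih =>
    have : size (n + 1) = 1 + size n + 1 := by simp [size]
    rw [this, ih]; omega

theorem enc_replicate_unit (n : ℕ) : enc (List.replicate n ()) = enc n := by
  induction n with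
  | zero => rfl
  | succ n ih => rw [List.replicate_succ, enc_cons, ih]; rfl

theorem PT.replicateUnit {f : α → ℕ} (hf : PT f) : PT (fun a => List.replicate (f a) ()) := by
  have h : PT (fun n : ℕ => List.replicate n ()) := PT.of_enc_eq enc_replicate_unit
  exact h.comp hf

theorem PT.length {f : α → List β} (hf : PT f) : PT (fun a => (f a).length) := by
  have h1 : PT (fun a => (f a).map (fun _ => ())) := PT.map (g := fun _ _ => ()) hf (PT.const ())
  have h2 : PT (fun l : List Unit => l.length) := PT.of_enc_eq (fun l => by
    rw [← enc_replicate_unit]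
    congr 1
    exact (List.eq_replicate_of_mem (fun _ _ => rfl)).symm)
  exact (h2.comp h1).congr (fun a => by simp)

theorem PT.succ {f : α → ℕ} (hf : PT f) : PT (fun a => f a + 1) := by
  have h : PT (fun x : Unit × ℕ => x.2 + 1) := PT.of_enc_eq (fun _ => rfl)
  exact h.comp ((PT.const ()).pair hf)

theorem PT.add {f g : α → ℕ} (hf : PT f) (hg : PT g) : PT (fun a => f a + g a) :=
  (PT.length (hf.replicateUnit.append hg.replicateUnit)).congr (fun a => by simp)

theorem PT.addConst {f : α → ℕ} (hf : PT f) (k : ℕ) : PT (fun a => f a + k) :=
  hf.add (PT.const k)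

theorem PT.mulConst {f : α → ℕ} (hf : PT f) (k : ℕ) : PT (fun a => k * f a) := by
  induction k with
  | zero => exact (PT.const 0).congr (fun a => by simp)
  | succ k ih => exact (ih.add hf).congr (fun a => by rw [Nat.succ_mul])

theorem PT.mul {f g : α → ℕ} (hf : PT f) (hg : PT g) : PT (fun a => f a * g a) := by
  have h : PT (fun a => (List.replicate (f a) ()).flatMap (fun _ => List.replicate (g a) ())) :=
    PT.flatMap (g := fun a _ => List.replicate (g a) ()) hf.replicateUnit
      (hg.replicateUnit.comp PT.fst)
  refine h.length.congr (fun a => ?_)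
  simp [List.length_flatMap]

theorem PT.tail {f : α → List β} (hf : PT f) : PT (fun a => (f a).tail) :=
  (PT.listCases (g := fun _ => ([] : List β)) (h := fun _ _ l => l) hf (PT.const _)
    PT.snd.snd').congr (fun a => by cases f a <;> rfl)

theorem PT.pred {f : α → ℕ} (hf : PT f) : PT (fun a => f a - 1) :=
  (PT.length (hf.replicateUnit.tail)).congr (fun a => by simp)

/-- Iteration of a function. -/
theorem PT.iterate {f : α → ℕ} {init : α → σ} {step : α → σ → σ} (hf : PT f) (hi : PT init)
    (hs : PT (fun x : α × σ => step x.1 x.2)) {B : ℕ → ℕ} (hBp : PB B)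
    (hB : ∀ (a : α) (i : ℕ), i ≤ f a → size ((step a)^[i] (init a)) ≤ B (size a)) :
    PT (fun a => (step a)^[f a] (init a)) := by
  have key : ∀ (a : α) (n : ℕ) (s : σ), (List.replicate n ()).foldl (fun s _ => step a s) s =
      (step a)^[n] s := by
    intro a n
    induction n with
    | zero => intro s; rfl
    | succ n ih => intro s; rw [List.replicate_succ, List.foldl_cons, ih]; rfl
  have h := PT.foldl (f := fun a => List.replicate (f a) ()) (init := init)
    (step := fun a s _ => step a s) hf.replicateUnit hi
    (hs.comp (PT.fst.pair PT.snd.fst')) hBp (by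
      intro a l' hl'
      have : l' = List.replicate l'.length () := List.eq_replicate_of_mem (fun _ _ => rfl)
      rw [this, key]
      exact hB a _ (by have := hl'.length_le; simpa using this))
  exact h.congr (fun a => key a _ _)

theorem size_range (n : ℕ) : size (List.range n) ≤ (2 * n + 2) * n + 1 := by
  induction n with
  | zero => simp
  | succ n ih =>
    rw [List.range_succ]
    have h := size_append (List.range n) [n]
    rw [size_cons, size_nat, size_nil] at h
    nlinarith

theorem PT.range {f : α → ℕ} (hf : PT f) : PT (fun a => List.range (f a)) := by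
  obtain ⟨p, hp⟩ := hf.size_le
  -- state: (i, accumulated list reversed)
  have key : ∀ n : ℕ, (fun s : ℕ × List ℕ => (s.1 + 1, s.1 :: s.2))^[n] (0, []) =
      (n, (List.range n).reverse) := by
    intro n
    induction n with
    | zero => rfl
    | succ n ih => rw [iterate_succ_apply', ih]; simp [List.range_succ]
  have h := PT.iterate (f := f) (init := fun _ => ((0, []) : ℕ × List ℕ))
    (step := fun _ s => (s.1 + 1, s.1 :: s.2)) hf (PT.const _)
    ((PT.snd.fst'.succ).pair (PT.cons PT.snd.fst' PT.snd.snd'))
    (B := fun n => 2 * p.eval n + 1 + ((2 * p.eval n + 2) * p.eval n + 1) + 1)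
    (((((PB.const 2).mul (PB.poly p)).add (PB.const 1)).add (((((PB.const 2).mul
      (PB.poly p)).add (PB.const 2)).mul (PB.poly p)).add (PB.const 1))).add (PB.const 1)) (by
      intro a i hi
      rw [key, size_prod]
      simp only
      have h1 : i ≤ p.eval (size a) := by
        have := hp a
        rw [size_nat] at this
        omega
      have h2 := size_range i
      have h3 := size_reverse (List.range i)
      rw [h3, size_nat]
      have h4 : (2 * i + 2) * i ≤ (2 * p.eval (size a) + 2) * p.eval (size a) :=
        Nat.mul_le_mul (by omega) h1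
      omega)
  refine (h.snd'.reverse).congr (fun a => ?_)
  simp only [key, List.reverse_reverse]

end Pool.Agent.Lib.PolyTime
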