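import Mathlib.Computability.TuringMachine.Computable

/-!
# Structured programs on stacks of bits, and their compilation to `Turing.FinTM2`

`Prog K` is a small structured programming language acting on stacks of bits indexed by `K`.
`Run P s s' t` is its big-step semantics with running time.  `Prog.machine` compiles a program to
Mathlib's bundled multi-stack Turing machines, with (almost) the same running time.
-/

namespace Pool.Agent.Lib.PolyTime

open Function Turing StateTransition

/-- Structured programs on stacks of bits. -/
inductive Prog (K : Type) : Type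
  | skip : Prog K
  | push (k : K) (b : Bool) : Prog K
  | pop (k : K) : Prog K
  | seq (P Q : Prog K) : Prog K
  | ite (k : K) (p : Option Bool → Bool) (P Q : Prog K) : Prog K
  | loop (k : K) (p : Option Bool → Bool) (P : Prog K) : Prog K

/-- The states: the contents of the stacks. -/
abbrev St (K : Type) : Type := K → List Bool

variable {K : Type} [DecidableEq K]

/-- Big-step semantics with running time. -/
inductive Run : Prog K → St K → St K → ℕ → Prop
  | skip (s : St K) : Run .skip s s 1
  | push (k : K) (b : Bool) (s : St K) : Run (.push k b) s (update s k (b :: s k)) 1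
  | pop (k : K) (s : St K) : Run (.pop k) s (update s k (s k).tail) 1
  | seq {P Q : Prog K} {s s' s'' : St K} {t t' : ℕ} (h : Run P s s' t) (h' : Run Q s' s'' t') :
      Run (.seq P Q) s s'' (t + t')
  | iteT {k : K} {p : Option Bool → Bool} {P Q : Prog K} {s s' : St K} {t : ℕ}
      (hp : p (s k).head? = true) (h : Run P s s' t) : Run (.ite k p P Q) s s' (t + 1)
  | iteF {k : K} {p : Option Bool → Bool} {P Q : Prog K} {s s' : St K} {t : ℕ}
      (hp : p (s k).head? = false) (h : Run Q s s' t) : Run (.ite k p P Q) s s' (t + 1)
  | loopT {k : K} {p : Option Bool → Bool} {P : Prog K} {s s' s'' : St K} {t t' : ℕ}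
      (hp : p (s k).head? = true) (h : Run P s s' t) (h' : Run (.loop k p P) s' s'' t') :
      Run (.loop k p P) s s'' (t + t' + 1)
  | loopF {k : K} {p : Option Bool → Bool} {P : Prog K} {s : St K}
      (hp : p (s k).head? = false) : Run (.loop k p P) s s 1

/-- The labels of a compiled program. -/
def Lbl : Prog K → Type
  | .skip => Unit
  | .push _ _ => Unit
  | .pop _ => Unit
  | .seq P Q => Lbl P ⊕ Lbl Q
  | .ite _ _ P Q => Option (Lbl P ⊕ Lbl Q)
  | .loop _ _ P => Option (Lbl P)

instance fintypeLbl : (P : Prog K) → Fintype (Lbl P)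
  | .skip => inferInstanceAs (Fintype Unit)
  | .push _ _ => inferInstanceAs (Fintype Unit)
  | .pop _ => inferInstanceAs (Fintype Unit)
  | .seq P Q => @instFintypeSum _ _ (fintypeLbl P) (fintypeLbl Q)
  | .ite _ _ P Q => @instFintypeOption _ (@instFintypeSum _ _ (fintypeLbl P) (fintypeLbl Q))
  | .loop _ _ P => @instFintypeOption _ (fintypeLbl P)

/-- The entry label of a compiled program. -/
def entry : (P : Prog K) → Lbl P
  | .skip => ()
  | .push _ _ => ()
  | .pop _ => ()
  | .seq P _ => Sum.inl (entry P)
  | .ite _ _ _ _ => none
  | .loop _ _ _ => none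

/-- Statements of the target machines. -/
abbrev MStmt (K Λ : Type) : Type := TM2.Stmt (fun _ : K => Bool) Λ (Option Bool)

/-- Compilation: the statement at a label, given an embedding of the labels into those of the
machine and an exit label. -/
def stmt {Λ : Type} : (P : Prog K) → (Lbl P → Λ) → Λ → Lbl P → MStmt K Λ
  | .skip, _, e, _ => .goto fun _ => e
  | .push k b, _, e, _ => .push k (fun _ => b) (.goto fun _ => e)
  | .pop k, _, e, _ => .pop k (fun v _ => v) (.goto fun _ => e)
  | .seq P Q, i, e, l => match l with
    | Sum.inl l => stmt P (fun l => i (Sum.inl l)) (i (Sum.inr (entry Q))) l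
    | Sum.inr l => stmt Q (fun l => i (Sum.inr l)) e l
  | .ite k p P Q, i, e, l => match l with
    | none => .peek k (fun _ o => o) (.branch p (.goto fun _ => i (some (Sum.inl (entry P))))
        (.goto fun _ => i (some (Sum.inr (entry Q)))))
    | some (Sum.inl l) => stmt P (fun l => i (some (Sum.inl l))) e l
    | some (Sum.inr l) => stmt Q (fun l => i (some (Sum.inr l))) e l
  | .loop k p P, i, e, l => match l with
    | none => .peek k (fun _ o => o) (.branch p (.goto fun _ => i (some (entry P)))
        (.goto fun _ => e))
    | some l => stmt P (fun l => i (some l)) (i none) l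

/-- `f` leads from `a` to `b` in exactly `n` steps. -/
def StepsTo {σ : Type*} (f : σ → Option σ) (a b : σ) (n : ℕ) : Prop :=
  (flip bind f)^[n] (some a) = some b

theorem StepsTo.refl {σ : Type*} (f : σ → Option σ) (a : σ) : StepsTo f a a 0 := rfl

theorem StepsTo.trans {σ : Type*} {f : σ → Option σ} {a b c : σ} {m n : ℕ}
    (h : StepsTo f a b m) (h' : StepsTo f b c n) : StepsTo f a c (m + n) := by
  unfold StepsTo at *
  rw [Nat.add_comm, iterate_add_apply, h, h']

theorem StepsTo.single {σ : Type*} {f : σ → Option σ} {a b : σ} (h : f a = some b) :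
    StepsTo f a b 1 := h

theorem run_stepsTo {Λ : Type} (M : Λ → MStmt K Λ) {P : Prog K} {s s' : St K} {t : ℕ}
    (h : Run P s s' t) : ∀ (i : Lbl P → Λ) (e : Λ), (∀ l, M (i l) = stmt P i e l) →
    ∀ v : Option Bool, ∃ v' : Option Bool,
      StepsTo (TM2.step M) ⟨some (i (entry P)), v, s⟩ ⟨some e, v', s'⟩ t := by
  induction h with
  | skip s =>
    intro i e hM v
    refine ⟨v, StepsTo.single ?_⟩
    simp only [TM2.step, hM, stmt, TM2.stepAux]
  | push k b s =>
    intro i e hM v
    refine ⟨v, StepsTo.single ?_⟩
    simp only [TM2.step, hM, stmt, TM2.stepAux]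
  | pop k s =>
    intro i e hM v
    refine ⟨v, StepsTo.single ?_⟩
    simp only [TM2.step, hM, stmt, TM2.stepAux]
  | @seq P Q s s' s'' t t' _ _ ih1 ih2 =>
    intro i e hM v
    obtain ⟨v1, h1⟩ := ih1 (fun l => i (Sum.inl l)) (i (Sum.inr (entry Q)))
      (fun l => by rw [hM]; rfl) v
    obtain ⟨v2, h2⟩ := ih2 (fun l => i (Sum.inr l)) e (fun l => by rw [hM]; rfl) v1
    exact ⟨v2, h1.trans h2⟩
  | @iteT k p P Q s s' t hp _ ih =>
    intro i e hM v
    obtain ⟨v1, h1⟩ := ih (fun l => i (some (Sum.inl l))) e (fun l => by rw [hM]; rfl) (s k).head?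
    refine ⟨v1, ?_⟩
    rw [Nat.add_comm]
    refine StepsTo.trans (StepsTo.single ?_) h1
    simp only [TM2.step, hM, stmt, TM2.stepAux, entry, hp, cond_true]
  | @iteF k p P Q s s' t hp _ ih =>
    intro i e hM v
    obtain ⟨v1, h1⟩ := ih (fun l => i (some (Sum.inr l))) e (fun l => by rw [hM]; rfl) (s k).head?
    refine ⟨v1, ?_⟩
    rw [Nat.add_comm]
    refine StepsTo.trans (StepsTo.single ?_) h1
    simp only [TM2.step, hM, stmt, TM2.stepAux, entry, hp, cond_false]
  | @loopT k p P s s' s'' t t' hp _ _ ih1 ih2 =>
    intro i e hM v
    obtain ⟨v1, h1⟩ := ih1 (fun l => i (some l)) (i none) (fun l => by rw [hM]; rfl) (s k).head?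
    obtain ⟨v2, h2⟩ := ih2 i e hM v1
    refine ⟨v2, ?_⟩
    rw [Nat.add_comm]
    refine StepsTo.trans (StepsTo.single ?_) (h1.trans h2)
    simp only [TM2.step, hM, stmt, TM2.stepAux, entry, hp, cond_true]
  | @loopF k p P s hp =>
    intro i e hM v
    refine ⟨(s k).head?, StepsTo.single ?_⟩
    simp only [TM2.step, hM, stmt, TM2.stepAux, entry, hp, cond_false]

/-- The machine compiled from a program: the input and the output are on the stack `k₀`. -/
def Prog.machine [Fintype K] (P : Prog K) (k₀ : K) : FinTM2 where
  K := K
  k₀ := k₀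
  k₁ := k₀
  Γ _ := Bool
  Λ := Option (Lbl P)
  main := some (entry P)
  σ := Option Bool
  initialState := none
  m
    | none => .load (fun _ => none) .halt
    | some l => stmt P some none l

/-- The state with content `w` on stack `k₀` and with all other stacks empty. -/
def single (k₀ : K) (w : List Bool) : St K := fun k => if k = k₀ then w else []

/-- A program that computes `f`, in time `T`, gives a polynomial time Turing machine. -/
theorem computable_of_run {α β : Type} (ea : α → List Bool) (eb : β → List Bool) (f : α → β)
    [Fintype K] (P : Prog K) (k₀ : K) (T : Polynomial ℕ)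
    (h : ∀ a, ∃ t, t ≤ T.eval (ea a).length ∧
      Run P (single k₀ (ea a)) (single k₀ (eb (f a))) t) :
    Nonempty (TM2ComputableInPolyTime ea eb f) := by
  refine ⟨{ tm := P.machine k₀
            inputAlphabet := Equiv.refl Bool
            outputAlphabet := Equiv.refl Bool
            time := T + 1
            outputsFun := fun a => ?_ }⟩
  have hex : ∃ n, n ≤ T.eval (ea a).length + 1 ∧ StepsTo (TM2.step (P.machine k₀).m)
      ⟨some (some (entry P)), none, single k₀ (ea a)⟩ ⟨none, none, single k₀ (eb (f a))⟩ n := by
    obtain ⟨t, ht, hr⟩ := h a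
    obtain ⟨v', hv⟩ := run_stepsTo (Λ := Option (Lbl P)) (P.machine k₀).m hr some none
      (fun l => rfl) none
    refine ⟨t + 1, by omega, hv.trans (StepsTo.single ?_)⟩
    rfl
  have e1 : initList (P.machine k₀) (List.map (Equiv.refl Bool).invFun (ea a)) =
      ⟨some (some (entry P)), none, single k₀ (ea a)⟩ := by
    unfold initList
    congr 1
    funext k
    by_cases hk : k₀ = k
    · subst hk
      simp [single, Prog.machine]
    · simp [single, Prog.machine]
  have e2 : haltList (P.machine k₀) (List.map (Equiv.refl Bool).invFun (eb (f a))) =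
      ⟨none, none, single k₀ (eb (f a))⟩ := by
    unfold haltList
    congr 1
    funext k
    by_cases hk : k₀ = k
    · subst hk
      simp [single, Prog.machine]
    · simp [single, Prog.machine]
  exact { steps := hex.choose
          evals_in_steps := by
            rw [e1]
            simp only [Option.map_some]
            rw [e2]
            exact hex.choose_spec.2
          steps_le_m := by
            have := hex.choose_spec.1
            simpa using this }

end Pool.Agent.Lib.PolyTime
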